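import Pool.Agent.H88.D8.Df
import Pool.Agent.H88.T7.Ac
import Pool.Agent.H88.T7.Gk

/-!
ROW Aa (project MP_78d38b_T8, about 130 lines): totally split primes, the symbol conditions.

PROOF. tot_nice: `1` is odd. tot_rat: `rat_ef` (`H88/T7/Ab.lean`). tot_card: `∑ e f = finrank` over the places above `p` with `e = f = 1`: see
`nice_odd` in `H88/T7/Mg.lean` and `geom` in `H88/T7/Gk.lean` (`Ideal.sum_ramification_inertia`).
tp_iff: `x ≠ 0`, `eo v (sc x) = 1`, `v` odd. `sc (-x) = sc (-1) + sc x` (`sc_mul`), `eo v (sc (-1)) = 0` (the valuation of `-1` is one), so `eo v (sc (-x)) = 1` and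
`la v (sc (-x)) = la v (sc (-1)) + la v (sc x)` (`H38T1.la_add`). `tp v c (sc (-x)) = eo c * la (-x) + 1 * la c + eo c * 1 * la (-1) = eo c * la x + la c`
in `ZMod 2`; decide over the values of `eo c`, `la c`, `la x`.
sg_iff: `v` above `q ∈ Q0`: `q` is odd (`hD.two`, `hD.co`), `ramificationIdx = 1` (`hD.unr`), `q` divides exactly one of `β`, `1 - 64 β`, and exactly once (`hD.sqf`), so
`eo v (sc β) = 1`, resp. `eo v (sc (1 - 64 β)) = 1` (`eo_int7`). Apply tp_iff with `x = β` (`g8 = sc (-β)`), resp. `x = - (1 - 64 β)` (`g8 = sc (-x)`).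
-/

set_option autoImplicit false
set_option linter.unusedSectionVars false
open scoped Classical

open WithZero NumberField IsDedekindDomain H38RT H88T7 H88T8
open H38T1 (SC sc rep eo la si Pri tp OddP LD XX XX' NS ov rp SqMod)

namespace H88D8

variable {K : Type} [Field K] [NumberField K] {B : Finset ℕ} {QK : AddSubgroup (SC ℚ)}
  {E0 : Set (SC K)} {a β : ℤ} {Qa Qb : Finset ℕ} {v : HeightOneSpectrum (𝓞 K)}

theorem tot_nice {p : ℕ} (h : Tot K p) : Nice K p := by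
  refine ⟨h.1, h.2.1, fun v hv => ⟨(h.2.2 v hv).1, ?_⟩⟩
  rw [(h.2.2 v hv).2]
  exact odd_one

theorem tot_rat {p : ℕ} (hp : p.Prime) (h2 : p ≠ 2) : Tot ℚ p := by
  exact ⟨hp, h2, fun v _ => rat_ef v⟩

theorem tot_card {p : ℕ} (h : Tot K p) : (ov K {p}).ncard = Module.finrank ℚ K := by
  have hm : ∀ v : HeightOneSpectrum (𝓞 K), rp v = p → (p : 𝓞 K) ∈ v.asIdeal := fun v hv =>
    (H38T1.mem_iff_eq h.1).2 hv
  obtain ⟨S, hS, hsum⟩ := Gk_sum (K := K) h.1 fun v hv => (h.2.2 v (hm v hv)).1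
  have h1 : ov K {p} = (S : Set (HeightOneSpectrum (𝓞 K))) := by
    ext v
    rw [Finset.mem_coe, hS]
    constructor
    · rintro ⟨q, hq, hv⟩
      rw [Set.mem_singleton_iff] at hq
      subst hq
      exact (H38T1.mem_iff_eq h.1).1 hv
    · intro hv
      exact ⟨p, rfl, hm v hv⟩
  rw [h1, Set.ncard_coe_finset, ← hsum, Finset.card_eq_sum_ones]
  refine Finset.sum_congr rfl fun v hv => ?_
  exact ((h.2.2 v (hm v ((hS v).1 hv))).2).symm

theorem tp_iff (hv : OddP v) {x : K} (hx : x ≠ 0) (he : eo v (sc x) = 1) (c : SC K) :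
    tp v c (sc (-x)) = 0 ↔ (eo v c = 0 ∧ la v c = 0) ∨
      (eo v c = eo v (sc x) ∧ la v c = la v (sc x)) := by
  have hm1 : (-1 : K) ≠ 0 := by norm_num
  have h1 : eo v (sc (-1 : K)) = 0 := by
    have h2 := eo_int0 (K := K) (v := v) (m := -1) (by norm_num) (by
      rw [padicValInt.eq_zero_of_not_dvd]
      · exact Even.zero
      · intro hd
        have h4 := (dvd_neg (a := (rp v : ℤ)) (b := 1)).1 hd
        have h3 : rp v ∣ 1 := by exact_mod_cast h4
        exact (H38T1.rp_prime v).one_lt.ne' (Nat.dvd_one.1 h3))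
    rwa [Int.cast_neg, Int.cast_one] at h2
  have h2 : sc (-x) = sc (-1 : K) + sc x := by
    rw [← H38T1.sc_mul hm1 hx, neg_one_mul]
  have h3 : eo v (sc (-x)) = 1 := by
    rw [h2, H38T1.eo_add, h1, he, zero_add]
  have h4 : la v (sc (-x)) = la v (sc (-1 : K)) + la v (sc x) := by
    rw [h2, H38T1.la_add hv]
  unfold tp
  rw [h3, h4, he]
  generalize la v (sc (-1 : K)) = a
  generalize la v (sc x) = b
  generalize la v c = d
  generalize eo v c = e
  revert a b d e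
  decide

private theorem Aa_val {p : ℕ} (hp : p.Prime) {m : ℤ} (hm : m ≠ 0) (hs : Squarefree m)
    (hd : (p : ℤ) ∣ m) : padicValInt p m = 1 := by
  have hF : Fact p.Prime := ⟨hp⟩
  have h1 : 1 ≤ padicValInt p m := by
    have h2 : ((p : ℕ) : ℤ) ^ 1 ∣ m := by rwa [pow_one]
    rw [padicValInt_dvd_iff] at h2
    rcases h2 with h2 | h2
    · exact absurd h2 hm
    · exact h2
  by_contra hne
  have h3 : ((p : ℕ) : ℤ) ^ 2 ∣ m := by
    rw [padicValInt_dvd_iff]
    right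
    omega
  have h4 := hs (p : ℤ) (by rwa [← sq])
  rw [Int.isUnit_iff] at h4
  have h5 := hp.two_le
  omega

theorem sg_iff (hD : Dat8 K B QK E0 a β Qa Qb) (hv : v ∈ ov K (Q0 a β Qa Qb)) (c : SC K) :
    ((rp v : ℤ) ∣ β → (tp v c (g8 K a β v) = 0 ↔ (eo v c = 0 ∧ la v c = 0) ∨
      (eo v c = eo v (sc (β : K)) ∧ la v c = la v (sc (β : K))))) ∧
    (¬ (rp v : ℤ) ∣ β → (tp v c (g8 K a β v) = 0 ↔ (eo v c = 0 ∧ la v c = 0) ∨
      (eo v c = eo v (sc ((-(a ^ 2 - 64 * β) : ℤ) : K)) ∧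
        la v c = la v (sc ((-(a ^ 2 - 64 * β) : ℤ) : K))))) := by
  obtain ⟨⟨hp, hdd⟩, -, -⟩ := (H38T1.mem_ov (fun q hq => hq.1.1)).1 hv
  have hnB := hD.co _ hp hdd
  have h2 : rp v ≠ 2 := by
    intro h2
    rw [h2] at hnB
    exact hnB hD.two
  have hodd : OddP v := H38T1.oddP_iff.2 h2
  have hr := hD.unr v hnB
  have hβ0 : β ≠ 0 := hD.pos.ne'
  have hD0 : -(a ^ 2 - 64 * β) ≠ 0 := by
    have := hD.lt
    omega
  have hβs : Squarefree β := hD.sqf.squarefree_of_dvd (dvd_mul_right _ _)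
  have hDs : Squarefree (-(a ^ 2 - 64 * β)) :=
    hD.sqf.squarefree_of_dvd ((neg_dvd).2 (dvd_mul_left _ _))
  constructor
  · intro hd
    have hx : (β : K) ≠ 0 := by exact_mod_cast hβ0
    have he : eo v (sc (β : K)) = 1 := by
      rw [eo_int7 hr hβ0, Aa_val hp hβ0 hβs hd, Nat.cast_one]
    have h3 : g8 K a β v = sc (-(β : K)) := by
      unfold g8
      rw [if_pos hd, Int.cast_neg]
    rw [h3]
    exact tp_iff hodd hx he c
  · intro hd
    have hd' : (rp v : ℤ) ∣ -(a ^ 2 - 64 * β) := by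
      rw [dvd_neg]
      exact ((Nat.prime_iff_prime_int.mp hp).dvd_or_dvd hdd).resolve_left hd
    have hx : ((-(a ^ 2 - 64 * β) : ℤ) : K) ≠ 0 := by exact_mod_cast hD0
    have he : eo v (sc ((-(a ^ 2 - 64 * β) : ℤ) : K)) = 1 := by
      rw [eo_int7 hr hD0, Aa_val hp hD0 hDs hd', Nat.cast_one]
    have h3 : g8 K a β v = sc (-((-(a ^ 2 - 64 * β) : ℤ) : K)) := by
      unfold g8
      rw [if_neg hd, Int.cast_neg, neg_neg]
    rw [h3]
    exact tp_iff hodd hx he c

end H88D8
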