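import Pool.Agent.H88.D8.Aa
import Pool.Agent.H88.T7.Ah

/-!
ROW Ah (project MP_78d38b_T8, about 220 lines): the local data are good, the groups are finite subgroups and contain the
classes of `β` and `1 - 64 β`. Modification of the proved file `Pool/Agent/H88/T7/Ah.lean` (there `Sg` is empty).

PROOF. `D = 1 - 64 β < 0`, odd, coprime to `β`. `pd (β D)` is the disjoint union of `Qa`-primes, `Qb`-primes (`hD.pa`, `hD.pb`; disjoint because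
`β`, `D` are coprime) and `Q0`. All these primes are odd and outside `B` (`hD.co`, `hD.two`).
good8: finiteness `H38T1.fin_ov`, odd places, disjointness (`H38T1.mem_ov`, `hS.ndvd`, `hS.dj`); `gen`: at `v ∈ Sg` the order of `g8` is odd (`eo_int7`,
`hD.sqf`, `hD.unr`). sub8, sub8': additivity (`H38T1.tp_add_left` for the condition at `Sg` of `XX`; for `XX'` the condition at `Sg` says that
the pair `(eo, la)` is `0` or that of `g`: closed under addition since `x + x = 0` in `ZMod 2`); compare `H38T1.XX_add`.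
fin8, fin8': as `fin7`, `fin7'`: even order outside a finite set.
beta_mem8: `v ∉ Sg ∪ P'`: `rp v ∤ β`: even order (`eo_int0`). `v ∈ Sg`, `rp v ∣ β`: `sg_iff`, second alternative. `v ∈ Sg`, `rp v ∣ D`: `β` is a unit and a square
modulo `rp v` (`64 β ≡ 1`, `64 = 8^2`): `sg_iff`, first alternative (`la_int0`). `v ∈ P`: `rp v ∈ Qa` (divides `D`: `β` is a square) or `rp v ∈ Pp` (`hS.sq`).
Positive: `hD.pos`. disc_mem8: `v ∉ Sg ∪ P`: `rp v ∤ D`. Primary: `D = 1 - 4 (16 β)`. `v ∈ Sg`: `rp v ∣ D`: `g8 = sc D`, second alternative; `rp v ∣ β`: `D ≡ 1`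
is a square modulo `rp v`, trivial. `v ∈ P'`: `rp v ∈ Qb` divides `β`, `D ≡ 1`; or `rp v ∈ Pp'` (`hS.sq'`).
ne8: `β > 1` squarefree (it has a prime divisor: `hD.nb`), `D < 0`, `β D < 0`: as `ne7`.
dat8_rat, st8_rat: the data over `ℚ` with `E0 = ∅`... (`exo` is empty); `bal` for `ℚ`: `nrComplexPlaces ℚ = 0`, `ov ℚ Qb` has `Qb.card` elements (`ov_rat`,
`rat_inj`), `hD.card`. `tot_rat`.
-/

/-!
ROW Ah (project MP_78d38b_T8, about 220 lines): the local data are good, the groups are finite subgroups and contain the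
classes of `β` and `1 - 64 β`. Modification of the proved file `Pool/Agent/H88/T7/Ah.lean` (there `Sg` is empty).
-/

set_option autoImplicit false
set_option linter.unusedSectionVars false
open scoped Classical

open WithZero NumberField IsDedekindDomain H38RT H88T7 H88T8
open H38T1 (SC sc rep eo la si Pri tp OddP LD XX XX' NS ov rp SqMod)

namespace H88D8

variable {K : Type} [Field K] [NumberField K] {B : Finset ℕ} {QK : AddSubgroup (SC ℚ)}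
  {E0 : Set (SC K)} {a β : ℤ} {Qa Qb Pp Pp' : Finset ℕ}

theorem Ah8_beta_ne (hD : Dat8 K B QK E0 a β Qa Qb) : β ≠ 0 := hD.pos.ne'

theorem Ah8_neg (hD : Dat8 K B QK E0 a β Qa Qb) : a ^ 2 - 64 * β < 0 := by
  have h1 := hD.lt
  omega

theorem Ah8_ne_two (hD : Dat8 K B QK E0 a β Qa Qb) {q : ℕ} (hq : q.Prime)
    (h : (q : ℤ) ∣ β * (a ^ 2 - 64 * β)) : q ≠ 2 := by
  rintro rfl
  exact hD.co 2 hq h hD.two

theorem Ah8_cop (hc : IsCoprime a β) {q : ℕ} (hq : q.Prime) (h1 : (q : ℤ) ∣ β)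
    (h2 : (q : ℤ) ∣ a ^ 2 - 64 * β) : False := by
  have hqp := Nat.prime_iff_prime_int.1 hq
  have h3 : (q : ℤ) ∣ a ^ 2 := by
    have h4 := dvd_add h2 (Dvd.dvd.mul_left h1 64)
    have e : a ^ 2 - 64 * β + 64 * β = a ^ 2 := by ring
    rwa [e] at h4
  exact hqp.not_isUnit (hc.isUnit_of_dvd' (hqp.dvd_of_dvd_pow h3) h1)

theorem Ah8_sqb {q : ℕ} (hq : q.Prime) (h2 : q ≠ 2) (h : (q : ℤ) ∣ a ^ 2 - 64 * β) : SqMod q β := by
  have h4 : (q : ℤ) ∣ a ^ 2 - 4 * (16 * β) := by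
    have e : a ^ 2 - 4 * (16 * β) = a ^ 2 - 64 * β := by ring
    rw [e]
    exact h
  obtain ⟨t, ht⟩ := H38T1.Mb_sqb hq h2 h4
  have h5 : (q : ℤ) ∣ t ^ 2 - 4 * (4 * β) := by
    have e : t ^ 2 - 4 * (4 * β) = -(16 * β - t ^ 2) := by ring
    rw [e, dvd_neg]
    exact ht
  obtain ⟨u, hu⟩ := H38T1.Mb_sqb hq h2 h5
  refine H38T1.Mb_sqb hq h2 (a := u) ?_
  have e : u ^ 2 - 4 * β = -(4 * β - u ^ 2) := by ring
  rw [e, dvd_neg]
  exact hu

theorem Ah8_sqd {q : ℕ} (h : (q : ℤ) ∣ β) : SqMod q (a ^ 2 - 64 * β) := by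
  refine ⟨a, ?_⟩
  have e : a ^ 2 - 64 * β - a ^ 2 = (-64) * β := by ring
  rw [e]
  exact h.mul_left _

theorem Ah8_pr0 : ∀ q ∈ Q0 a β Qa Qb, q.Prime := fun _ h => h.1.1

theorem Ah8_pr (hD : Dat8 K B QK E0 a β Qa Qb) (hS : St8 K B a β Pp Pp') :
    ∀ q ∈ (Qa : Set ℕ) ∪ (Pp : Set ℕ), q.Prime := by
  intro q h
  rcases h with h | h
  · exact (hD.pa q (Finset.mem_coe.1 h)).1
  · exact (hS.tot q (Finset.mem_union_left _ (Finset.mem_coe.1 h))).1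

theorem Ah8_pr' (hD : Dat8 K B QK E0 a β Qa Qb) (hS : St8 K B a β Pp Pp') :
    ∀ q ∈ (Qb : Set ℕ) ∪ (Pp' : Set ℕ), q.Prime := by
  intro q h
  rcases h with h | h
  · exact (hD.pb q (Finset.mem_coe.1 h)).1
  · exact (hS.tot q (Finset.mem_union_right _ (Finset.mem_coe.1 h))).1

theorem Ah8_P (hD : Dat8 K B QK E0 a β Qa Qb) (hS : St8 K B a β Pp Pp')
    {v : HeightOneSpectrum (𝓞 K)} (hv : v ∈ ov K ((Qa : Set ℕ) ∪ (Pp : Set ℕ))) :
    rp v ≠ 2 ∧ ¬ (rp v : ℤ) ∣ β ∧ SqMod (rp v) β := by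
  have h := (H38T1.mem_ov (Ah8_pr hD hS)).1 hv
  have hq := H38T1.rp_prime v
  rcases h with h | h
  · have h1 := (hD.pa _ (Finset.mem_coe.1 h)).2
    have h2 := Ah8_ne_two hD hq (Dvd.dvd.mul_left h1 β)
    exact ⟨h2, fun h3 => Ah8_cop hD.cop hq h3 h1, Ah8_sqb hq h2 h1⟩
  · have hm := Finset.mem_union_left Pp' (Finset.mem_coe.1 h)
    refine ⟨(hS.tot _ hm).2.1, fun h3 => hS.ndvd _ hm ((h3.mul_right _).mul_left _), ?_⟩
    exact (hS.sq _ (Finset.mem_coe.1 h)).1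

theorem Ah8_P' (hD : Dat8 K B QK E0 a β Qa Qb) (hS : St8 K B a β Pp Pp')
    {v : HeightOneSpectrum (𝓞 K)} (hv : v ∈ ov K ((Qb : Set ℕ) ∪ (Pp' : Set ℕ))) :
    rp v ≠ 2 ∧ ¬ (rp v : ℤ) ∣ a ^ 2 - 64 * β ∧ SqMod (rp v) (a ^ 2 - 64 * β) := by
  have h := (H38T1.mem_ov (Ah8_pr' hD hS)).1 hv
  have hq := H38T1.rp_prime v
  rcases h with h | h
  · have h1 := (hD.pb _ (Finset.mem_coe.1 h)).2
    have h2 := Ah8_ne_two hD hq (Dvd.dvd.mul_right h1 _)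
    exact ⟨h2, fun h3 => Ah8_cop hD.cop hq h1 h3, Ah8_sqd h1⟩
  · have hm := Finset.mem_union_right Pp (Finset.mem_coe.1 h)
    refine ⟨(hS.tot _ hm).2.1, fun h3 => hS.ndvd _ hm ((h3.mul_left _).mul_left _), ?_⟩
    exact (hS.sq' _ (Finset.mem_coe.1 h)).2

theorem Ah8_S {v : HeightOneSpectrum (𝓞 K)} (hD : Dat8 K B QK E0 a β Qa Qb)
    (hv : v ∈ ov K (Q0 a β Qa Qb)) :
    rp v ≠ 2 ∧ rp v ∉ Qa ∧ rp v ∉ Qb ∧ v.asIdeal.ramificationIdx ℤ = 1 ∧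
      ((rp v : ℤ) ∣ β ∨ (rp v : ℤ) ∣ a ^ 2 - 64 * β) := by
  have h := (H38T1.mem_ov Ah8_pr0).1 hv
  obtain ⟨⟨hq, h1⟩, h2, h3⟩ := h
  exact ⟨Ah8_ne_two hD hq h1, h2, h3, hD.unr v (hD.co _ hq h1),
    (Nat.prime_iff_prime_int.1 hq).dvd_or_dvd h1⟩

theorem Ah8_SP (hD : Dat8 K B QK E0 a β Qa Qb) (hS : St8 K B a β Pp Pp')
    {v : HeightOneSpectrum (𝓞 K)} (hv : v ∈ ov K (Q0 a β Qa Qb)) :
    v ∉ ov K ((Qa : Set ℕ) ∪ (Pp : Set ℕ)) ∧ v ∉ ov K ((Qb : Set ℕ) ∪ (Pp' : Set ℕ)) := by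
  obtain ⟨-, h2, h3, -, h4⟩ := Ah8_S hD hv
  have h5 : (rp v : ℤ) ∣ 2 * (β * (a ^ 2 - 64 * β)) := by
    rcases h4 with h | h
    · exact (h.mul_right _).mul_left _
    · exact (h.mul_left _).mul_left _
  constructor
  · intro h
    rcases (H38T1.mem_ov (Ah8_pr hD hS)).1 h with h | h
    · exact h2 (Finset.mem_coe.1 h)
    · exact hS.ndvd _ (Finset.mem_union_left Pp' (Finset.mem_coe.1 h)) h5
  · intro h
    rcases (H38T1.mem_ov (Ah8_pr' hD hS)).1 h with h | h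
    · exact h3 (Finset.mem_coe.1 h)
    · exact hS.ndvd _ (Finset.mem_union_right Pp (Finset.mem_coe.1 h)) h5

theorem Ah8_eo {m : ℤ} (hm : m ≠ 0) {v : HeightOneSpectrum (𝓞 K)} (h : ¬ (rp v : ℤ) ∣ m) :
    eo v (sc (m : K)) = 0 := by
  refine eo_int0 hm ?_
  rw [padicValInt.eq_zero_of_not_dvd h]
  exact Even.zero

theorem Ah8_pv {q : ℕ} (hq : q.Prime) {m : ℤ} (hs : ∀ x : ℤ, x * x ∣ m → IsUnit x)
    (h : (q : ℤ) ∣ m) : padicValInt q m = 1 := by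
  obtain ⟨m', rfl⟩ := h
  refine H38T1.Mb_pv_one hq rfl fun h' => ?_
  exact (Nat.prime_iff_prime_int.1 hq).not_isUnit (hs _ (mul_dvd_mul_left _ h'))

theorem Ah8_sb (hD : Dat8 K B QK E0 a β Qa Qb) : Squarefree β :=
  hD.sqf.squarefree_of_dvd (dvd_mul_right _ _)

theorem Ah8_sd (hD : Dat8 K B QK E0 a β Qa Qb) : Squarefree (a ^ 2 - 64 * β) :=
  hD.sqf.squarefree_of_dvd (dvd_mul_left _ _)

theorem Ah8_gen (hD : Dat8 K B QK E0 a β Qa Qb) {v : HeightOneSpectrum (𝓞 K)}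
    (hv : v ∈ ov K (Q0 a β Qa Qb)) : eo v (g8 K a β v) = 1 := by
  have hq := H38T1.rp_prime v
  obtain ⟨-, -, -, he, h4⟩ := Ah8_S hD hv
  unfold g8
  split_ifs with h
  · rw [eo_int7 he (neg_ne_zero.2 (Ah8_beta_ne hD)), Ah8_pv hq (fun x hx => ?_) ((dvd_neg).2 h),
      Nat.cast_one]
    exact Ah8_sb hD x ((dvd_neg).1 hx)
  · rw [eo_int7 he (Ah8_neg hD).ne, Ah8_pv hq (fun x hx => Ah8_sd hD x hx)
      (h4.resolve_left h), Nat.cast_one]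

theorem Ah8_out (hD : Dat8 K B QK E0 a β Qa Qb) (hS : St8 K B a β Pp Pp')
    {v : HeightOneSpectrum (𝓞 K)} (h0 : v ∉ ov K (Q0 a β Qa Qb)) :
    (v ∉ ov K ((Qb : Set ℕ) ∪ (Pp' : Set ℕ)) → ¬ (rp v : ℤ) ∣ β) ∧
    (v ∉ ov K ((Qa : Set ℕ) ∪ (Pp : Set ℕ)) → ¬ (rp v : ℤ) ∣ a ^ 2 - 64 * β) := by
  have hq := H38T1.rp_prime v
  constructor
  · intro h1 h2
    refine h0 ((H38T1.mem_ov Ah8_pr0).2 ⟨⟨hq, h2.mul_right _⟩, fun h3 => ?_, fun h3 => ?_⟩)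
    · exact Ah8_cop hD.cop hq h2 (hD.pa _ h3).2
    · exact h1 ((H38T1.mem_ov (Ah8_pr' hD hS)).2 (Or.inl (Finset.mem_coe.2 h3)))
  · intro h1 h2
    refine h0 ((H38T1.mem_ov Ah8_pr0).2 ⟨⟨hq, h2.mul_left _⟩, fun h3 => ?_, fun h3 => ?_⟩)
    · exact h1 ((H38T1.mem_ov (Ah8_pr hD hS)).2 (Or.inl (Finset.mem_coe.2 h3)))
    · exact Ah8_cop hD.cop hq (hD.pb _ h3).2 h2

theorem good8 (hD : Dat8 K B QK E0 a β Qa Qb) (hS : St8 K B a β Pp Pp') :
    (L8 K a β Qa Qb Pp Pp').Good := by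
  have hβ := Ah8_beta_ne hD
  have hd : a ^ 2 - 64 * β ≠ 0 := (Ah8_neg hD).ne
  refine ⟨?_, ?_, ?_, ?_, ?_, ?_, ?_, ?_, ?_, ?_⟩
  · exact H38T1.fin_ov ((Ah_pd_fin (mul_ne_zero hβ hd)).subset fun q hq => hq.1) Ah8_pr0
  · exact H38T1.fin_ov ((Finset.finite_toSet _).union (Finset.finite_toSet _)) (Ah8_pr hD hS)
  · exact H38T1.fin_ov ((Finset.finite_toSet _).union (Finset.finite_toSet _)) (Ah8_pr' hD hS)
  · intro v hv
    exact H38T1.oddP_iff.2 (Ah8_S hD hv).1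
  · intro v hv
    exact H38T1.oddP_iff.2 (Ah8_P hD hS hv).1
  · intro v hv
    exact H38T1.oddP_iff.2 (Ah8_P' hD hS hv).1
  · rw [Set.disjoint_left]
    intro v hv hv'
    exact (Ah8_SP hD hS hv).1 hv'
  · rw [Set.disjoint_left]
    intro v hv hv'
    exact (Ah8_SP hD hS hv).2 hv'
  · rw [Set.disjoint_left]
    intro v hv hv'
    have h1 := Ah8_P hD hS hv
    have h2 := Ah8_P' hD hS hv'
    have h3 := (H38T1.mem_ov (Ah8_pr hD hS)).1 hv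
    have h4 := (H38T1.mem_ov (Ah8_pr' hD hS)).1 hv'
    rcases h3 with h3 | h3
    · exact h2.2.1 (hD.pa _ (Finset.mem_coe.1 h3)).2
    · rcases h4 with h4 | h4
      · exact h1.2.1 (hD.pb _ (Finset.mem_coe.1 h4)).2
      · exact Finset.disjoint_left.1 hS.dj (Finset.mem_coe.1 h3) (Finset.mem_coe.1 h4)
  · intro v hv h
    have h1 : eo v (g8 K a β v) = 1 := Ah8_gen hD hv
    have h2 : eo v (g8 K a β v) = 0 := h.1
    rw [h1] at h2
    exact one_ne_zero h2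

theorem sub8 (hD : Dat8 K B QK E0 a β Qa Qb) (hS : St8 K B a β Pp Pp') :
    ∃ H : AddSubgroup (SC K), (H : Set (SC K)) = XX (L8 K a β Qa Qb Pp Pp') := by
  exact H38T1.XX_add (good8 hD hS)

theorem sub8' (hD : Dat8 K B QK E0 a β Qa Qb) (hS : St8 K B a β Pp Pp') :
    ∃ H : AddSubgroup (SC K), (H : Set (SC K)) = XX' (L8 K a β Qa Qb Pp Pp') := by
  have hG := good8 hD hS
  refine ⟨{ carrier := XX' (L8 K a β Qa Qb Pp Pp')
            add_mem' := ?_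
            zero_mem' := ?_
            neg_mem' := ?_ }, rfl⟩
  · rintro c c' ⟨h1, h2, h3, h4, h5⟩ ⟨h1', h2', h3', h4', h5'⟩
    refine ⟨fun v x y => ?_, fun v x => ?_, fun v x => ?_, fun v x => ?_, fun x w => ?_⟩
    · rw [H38T1.eo_add, h1 v x y, h1' v x y, add_zero]
    · exact (H38T1.pri_add x (h2 v x) (h2' v x)).1
    · rw [H38T1.eo_add, H38T1.la_add (hG.oddSg v x)]
      rcases h3 v x with ⟨a1, a2⟩ | ⟨a1, a2⟩ <;> rcases h3' v x with ⟨b1, b2⟩ | ⟨b1, b2⟩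
      · left
        rw [a1, a2, b1, b2]
        exact ⟨add_zero 0, add_zero 0⟩
      · right
        rw [a1, a2, b1, b2]
        exact ⟨zero_add _, zero_add _⟩
      · right
        rw [a1, a2, b1, b2]
        exact ⟨add_zero _, add_zero _⟩
      · left
        rw [a1, a2, b1, b2]
        exact ⟨CharTwo.add_self_eq_zero _, CharTwo.add_self_eq_zero _⟩
    · rw [H38T1.la_add (hG.oddP' v x), h4 v x, h4' v x, add_zero]
    · exact absurd x Bool.false_ne_true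
  · refine ⟨fun v x y => H38T1.eo_zero v, fun v x => H38T1.pri_zero x,
      fun v x => Or.inl ⟨H38T1.eo_zero v, H38T1.la_zero (hG.oddSg v x)⟩,
      fun v x => H38T1.la_zero (hG.oddP' v x), fun x w => ?_⟩
    exact absurd x Bool.false_ne_true
  · intro c hc
    rw [H38T1.Md_neg]
    exact hc

theorem fin8 (hD : Dat8 K B QK E0 a β Qa Qb) (hS : St8 K B a β Pp Pp') :
    (XX (L8 K a β Qa Qb Pp Pp')).Finite := by
  refine (H24TD.fin_US ((good8 hD hS).finSg.union (good8 hD hS).finP')).subset fun c hc v hv => ?_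
  exact hc.1 v (fun h => hv (Or.inl h)) (fun h => hv (Or.inr h))

theorem fin8' (hD : Dat8 K B QK E0 a β Qa Qb) (hS : St8 K B a β Pp Pp') :
    (XX' (L8 K a β Qa Qb Pp Pp')).Finite := by
  refine (H24TD.fin_US ((good8 hD hS).finSg.union (good8 hD hS).finP)).subset fun c hc v hv => ?_
  exact hc.1 v (fun h => hv (Or.inl h)) (fun h => hv (Or.inr h))

theorem beta_mem8 (hD : Dat8 K B QK E0 a β Qa Qb) (hS : St8 K B a β Pp Pp') :
    sc (β : K) ∈ XX (L8 K a β Qa Qb Pp Pp') := by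
  have hβ := Ah8_beta_ne hD
  have hβK : (β : K) ≠ 0 := by exact_mod_cast hβ
  refine ⟨fun v hv hv' => ?_, fun v hv => ?_, fun v hv => ?_, fun _ w => ?_⟩
  · exact Ah8_eo hβ ((Ah8_out hD hS hv).1 hv')
  · obtain ⟨h1, -, -, -, h4⟩ := Ah8_S hD hv
    change tp v (sc (β : K)) (g8 K a β v) = 0
    by_cases h : (rp v : ℤ) ∣ β
    · exact ((sg_iff hD hv (sc (β : K))).1 h).2 (Or.inr ⟨rfl, rfl⟩)
    · refine ((sg_iff hD hv (sc (β : K))).2 h).2 (Or.inl ⟨Ah8_eo hβ h, ?_⟩)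
      exact la_int0 h1 h (Ah8_sqb (H38T1.rp_prime v) h1 (h4.resolve_left h))
  · obtain ⟨h1, h2, h3⟩ := Ah8_P hD hS hv
    exact la_int0 h1 h2 h3
  · rw [H38T1.si_sc w hβK]
    unfold sw
    rw [if_neg]
    rw [map_intCast, not_lt]
    exact_mod_cast hD.pos.le

theorem disc_mem8 (hD : Dat8 K B QK E0 a β Qa Qb) (hS : St8 K B a β Pp Pp') :
    sc ((a ^ 2 - 64 * β : ℤ) : K) ∈ XX' (L8 K a β Qa Qb Pp Pp') := by
  have hd : a ^ 2 - 64 * β ≠ 0 := (Ah8_neg hD).ne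
  have hdK : ((a ^ 2 - 64 * β : ℤ) : K) ≠ 0 := by exact_mod_cast hd
  refine ⟨fun v hv hv' => ?_, fun v hv => ?_, fun v hv => ?_, fun v hv => ?_,
    fun h => absurd h Bool.false_ne_true⟩
  · exact Ah8_eo hd ((Ah8_out hD hS hv).2 hv')
  · rw [H38T1.pri_sc hv hdK]
    have h2 : rp v = 2 := by
      by_contra h
      exact hv (H38T1.oddP_iff.2 h)
    refine ⟨1, (a : K), ((16 * β : ℤ) : K), one_ne_zero, H38T1.Mb_val_one ?_,
      H38T1.Mb_val_le (16 * β), ?_⟩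
    · rw [h2, Nat.cast_ofNat]
      have := hD.a4
      omega
    · push_cast
      ring
  · obtain ⟨h1, -, -, -, h4⟩ := Ah8_S hD hv
    change (eo v (sc ((a ^ 2 - 64 * β : ℤ) : K)) = 0 ∧ la v (sc ((a ^ 2 - 64 * β : ℤ) : K)) = 0) ∨
      (eo v (sc ((a ^ 2 - 64 * β : ℤ) : K)) = eo v (g8 K a β v) ∧
        la v (sc ((a ^ 2 - 64 * β : ℤ) : K)) = la v (g8 K a β v))
    by_cases h : (rp v : ℤ) ∣ β
    · have h5 : ¬ (rp v : ℤ) ∣ a ^ 2 - 64 * β := fun h' => Ah8_cop hD.cop (H38T1.rp_prime v) h h'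
      exact Or.inl ⟨Ah8_eo hd h5, la_int0 h1 h5 (Ah8_sqd h)⟩
    · right
      unfold g8
      rw [if_neg h]
      exact ⟨rfl, rfl⟩
  · obtain ⟨h1, h2, h3⟩ := Ah8_P' hD hS hv
    exact la_int0 h1 h2 h3

theorem Ah8_sq (hD : Dat8 K B QK E0 a β Qa Qb) : ¬ IsSquare β := by
  rintro ⟨t, ht⟩
  obtain ⟨q, hq⟩ := hD.nb
  obtain ⟨hq1, hq2⟩ := hD.pb q hq
  have h2 := Ah8_sb hD t ⟨1, by rw [mul_one]; exact ht⟩
  have h3 : IsUnit β := by
    rw [ht]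
    exact h2.mul h2
  exact (Nat.prime_iff_prime_int.1 hq1).not_isUnit (isUnit_of_dvd_unit hq2 h3)

theorem ne8 (hD : Dat8 K B QK E0 a β Qa Qb) : sc (β : K) ≠ 0 ∧ sc ((a ^ 2 - 64 * β : ℤ) : K) ≠ 0 ∧
    sc (β : K) ≠ sc ((a ^ 2 - 64 * β : ℤ) : K) := by
  have hβ := Ah8_beta_ne hD
  have hdn := Ah8_neg hD
  have hd : a ^ 2 - 64 * β ≠ 0 := hdn.ne
  have hβK : (β : K) ≠ 0 := by exact_mod_cast hβ
  have hdK : ((a ^ 2 - 64 * β : ℤ) : K) ≠ 0 := by exact_mod_cast hd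
  refine ⟨H38T1.sq_int hD.odd hβ (Ah8_sq hD), H38T1.sq_int hD.odd hd (Ah_neg hdn), fun h => ?_⟩
  refine H38T1.sq_int (K := K) hD.odd (m := β * (a ^ 2 - 64 * β)) (mul_ne_zero hβ hd)
    (Ah_neg (mul_neg_of_pos_of_neg hD.pos hdn)) ?_
  rw [Int.cast_mul, H38T1.sc_mul hβK hdK, h]
  exact (two_nsmul _).symm.trans (SC.two_smul _)

theorem Ah8_rat {Q : Finset ℕ} (hQ : ∀ q ∈ Q, q.Prime) : (ov ℚ (Q : Set ℕ)).ncard = Q.card := by
  have h1 : rp '' (ov ℚ (Q : Set ℕ)) = (Q : Set ℕ) := by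
    ext p
    constructor
    · rintro ⟨v, hv, rfl⟩
      exact (H38T1.mem_ov (fun q hq => hQ q (Finset.mem_coe.1 hq))).1 hv
    · intro hp
      obtain ⟨v, hv, -⟩ := ov_rat (hQ p (Finset.mem_coe.1 hp))
      exact ⟨v, (H38T1.mem_ov (fun q hq => hQ q (Finset.mem_coe.1 hq))).2 (by rwa [hv]), hv⟩
  rw [← Set.InjOn.ncard_image (f := rp) (fun v _ w _ h => rat_inj h), h1,
    Set.ncard_coe_finset]

theorem dat8_rat (hD : Dat8 K B QK E0 a β Qa Qb) : Dat8 ℚ B QK ∅ a β Qa Qb where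
  odd := Ab_odd
  two := hD.two
  unr := fun v _ => (rat_ef v).1
  quad := hD.quad
  exo := fun u hu => absurd hu (Set.notMem_empty u)
  a4 := hD.a4
  bo := hD.bo
  pos := hD.pos
  lt := hD.lt
  cop := hD.cop
  sqf := hD.sqf
  co := hD.co
  pa := hD.pa
  pb := hD.pb
  na := hD.na
  nb := hD.nb
  card := hD.card
  bal := by
    rw [Ah8_rat (fun q hq => (hD.pa q hq).1), Ah8_rat (fun q hq => (hD.pb q hq).1), hD.card,
      InfinitePlace.nrComplexPlaces_eq_zero_of_finrank_eq_one (Module.finrank_self ℚ), add_zero]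

theorem st8_rat (hS : St8 K B a β Pp Pp') : St8 ℚ B a β Pp Pp' where
  dj := hS.dj
  tot := fun p hp => tot_rat (hS.tot p hp).1 (hS.tot p hp).2.1
  ndvd := hS.ndvd
  nB := hS.nB
  sq := hS.sq
  sq' := hS.sq'

end H88D8
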