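import Pool.Agent.H88.D8.Aa
import Pool.Agent.H88.T8.Ac
import Pool.Agent.H88.D8.Ah

/-!
ROW Ag (project MP_78d38b_T8, about 230 lines): restriction and norm respect the Selmer groups. Modification of the proved
file `Pool/Agent/H88/T7/Ag.lean` (there `Sg` is empty).
-/

set_option autoImplicit false
set_option linter.unusedSectionVars false
open scoped Classical

open WithZero NumberField IsDedekindDomain H38RT H88T7 H88T8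
open H38T1 (SC sc rep eo la si Pri tp OddP LD XX XX' NS ov rp SqMod)

namespace H88D8

variable {K : Type} [Field K] [NumberField K] {B : Finset ℕ} {QK : AddSubgroup (SC ℚ)}
  {E0 : Set (SC K)} {a β : ℤ} {Qa Qb Pp Pp' : Finset ℕ}

/-- the generator of the condition of the first group -/
private def Ag_b (a β : ℤ) (q : ℕ) : ℤ := if (q : ℤ) ∣ β then β else -(a ^ 2 - 64 * β)

/-- the generator of the condition of the second group -/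
private def Ag_b' (a β : ℤ) (q : ℕ) : ℤ := if (q : ℤ) ∣ β then -β else a ^ 2 - 64 * β

private lemma Ag_neg (a β : ℤ) (q : ℕ) : Ag_b a β q = -Ag_b' a β q := by
  unfold Ag_b Ag_b'
  split_ifs
  · rw [neg_neg]
  · rfl

private lemma Ag_dvd (hD : Dat8 K B QK E0 a β Qa Qb) {q : ℕ} (hq : q ∈ Q0 a β Qa Qb) :
    Ag_b' a β q ≠ 0 ∧ (q : ℤ) ∣ Ag_b' a β q ∧ ¬ (q : ℤ) ^ 2 ∣ Ag_b' a β q := by
  have hqp : Prime (q : ℤ) := Nat.prime_iff_prime_int.1 hq.1.1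
  have hkey : ∀ m : ℤ, Squarefree m → ¬ (q : ℤ) ^ 2 ∣ m := by
    intro m hm h
    rw [sq] at h
    exact hqp.not_isUnit (hm _ h)
  unfold Ag_b'
  split_ifs with h
  · refine ⟨neg_ne_zero.2 (Ah8_beta_ne hD), (dvd_neg).2 h, ?_⟩
    rw [dvd_neg]
    exact hkey _ (Ah8_sb hD)
  · exact ⟨(Ah8_neg hD).ne, (hqp.dvd_or_dvd hq.1.2).resolve_left h, hkey _ (Ah8_sd hD)⟩

private lemma Ag_dvd2 (hD : Dat8 K B QK E0 a β Qa Qb) {q : ℕ} (hq : q ∈ Q0 a β Qa Qb) :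
    Ag_b a β q ≠ 0 ∧ (q : ℤ) ∣ Ag_b a β q ∧ ¬ (q : ℤ) ^ 2 ∣ Ag_b a β q := by
  obtain ⟨h1, h2, h3⟩ := Ag_dvd hD hq
  rw [Ag_neg]
  exact ⟨neg_ne_zero.2 h1, (dvd_neg).2 h2, by rwa [dvd_neg]⟩

private lemma Ag_sg {v : HeightOneSpectrum (𝓞 K)} (hD : Dat8 K B QK E0 a β Qa Qb)
    (hv : v ∈ ov K (Q0 a β Qa Qb)) (c : SC K) :
    tp v c (g8 K a β v) = 0 ↔ (eo v c = 0 ∧ la v c = 0) ∨
      (eo v c = eo v (sc ((Ag_b a β (rp v) : ℤ) : K)) ∧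
        la v c = la v (sc ((Ag_b a β (rp v) : ℤ) : K))) := by
  obtain ⟨h1, h2⟩ := sg_iff hD hv c
  unfold Ag_b
  split_ifs with h
  · exact h1 h
  · exact h2 h

private lemma Ag_g8 (v : HeightOneSpectrum (𝓞 K)) :
    g8 K a β v = sc ((Ag_b' a β (rp v) : ℤ) : K) := by
  unfold g8 Ag_b'
  split_ifs <;> rfl

private lemma Ag_mS {v : HeightOneSpectrum (𝓞 K)} {w : HeightOneSpectrum (𝓞 ℚ)} (h : rp v = rp w) :
    v ∈ ov K (Q0 a β Qa Qb) ↔ w ∈ ov ℚ (Q0 a β Qa Qb) := by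
  rw [H38T1.mem_ov Ah8_pr0, H38T1.mem_ov Ah8_pr0, h]

private lemma Ag_mP (hD : Dat8 K B QK E0 a β Qa Qb) (hS : St8 K B a β Pp Pp')
    {v : HeightOneSpectrum (𝓞 K)} {w : HeightOneSpectrum (𝓞 ℚ)} (h : rp v = rp w) :
    v ∈ ov K ((Qa : Set ℕ) ∪ (Pp : Set ℕ)) ↔ w ∈ ov ℚ ((Qa : Set ℕ) ∪ (Pp : Set ℕ)) := by
  rw [H38T1.mem_ov (Ah8_pr hD hS), H38T1.mem_ov (Ah8_pr hD hS), h]

private lemma Ag_mP' (hD : Dat8 K B QK E0 a β Qa Qb) (hS : St8 K B a β Pp Pp')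
    {v : HeightOneSpectrum (𝓞 K)} {w : HeightOneSpectrum (𝓞 ℚ)} (h : rp v = rp w) :
    v ∈ ov K ((Qb : Set ℕ) ∪ (Pp' : Set ℕ)) ↔ w ∈ ov ℚ ((Qb : Set ℕ) ∪ (Pp' : Set ℕ)) := by
  rw [H38T1.mem_ov (Ah8_pr' hD hS), H38T1.mem_ov (Ah8_pr' hD hS), h]

private lemma Ag_two {F : Type} [Field F] [NumberField F] {v : HeightOneSpectrum (𝓞 F)}
    (h : ¬ OddP v) : rp v = 2 := by
  rw [H38T1.oddP_iff, not_not] at h
  exact h

private lemma Ag_ntwo {F : Type} [Field F] [NumberField F] {v : HeightOneSpectrum (𝓞 F)}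
    (h : rp v = 2) : ¬ OddP v := by
  rw [H38T1.oddP_iff, not_not]
  exact h

private lemma Ag_w (v : HeightOneSpectrum (𝓞 K)) : ∃ w : HeightOneSpectrum (𝓞 ℚ), rp v = rp w := by
  obtain ⟨w, hw, _⟩ := ov_rat (H38T1.rp_prime v)
  exact ⟨w, hw.symm⟩

private lemma Ag_nB {v : HeightOneSpectrum (𝓞 K)} (hD : Dat8 K B QK E0 a β Qa Qb)
    (hS : St8 K B a β Pp Pp') {w : HeightOneSpectrum (𝓞 ℚ)}
    (hw : w ∈ ov ℚ ((Qa : Set ℕ) ∪ (Pp : Set ℕ)) ∨ w ∈ ov ℚ ((Qb : Set ℕ) ∪ (Pp' : Set ℕ)))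
    (h : rp v = rp w) : v.asIdeal.ramificationIdx ℤ = 1 := by
  refine hD.unr v ?_
  rw [h]
  rcases hw with hw | hw
  · rcases (H38T1.mem_ov (Ah8_pr hD hS)).1 hw with h1 | h1
    · exact hD.co _ (hD.pa _ (Finset.mem_coe.1 h1)).1
        (Dvd.dvd.mul_left (hD.pa _ (Finset.mem_coe.1 h1)).2 _)
    · exact hS.nB _ (Finset.mem_union_left _ (Finset.mem_coe.1 h1))
  · rcases (H38T1.mem_ov (Ah8_pr' hD hS)).1 hw with h1 | h1
    · exact hD.co _ (hD.pb _ (Finset.mem_coe.1 h1)).1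
        (Dvd.dvd.mul_right (hD.pb _ (Finset.mem_coe.1 h1)).2 _)
    · exact hS.nB _ (Finset.mem_union_right _ (Finset.mem_coe.1 h1))

theorem res_X8 (hD : Dat8 K B QK E0 a β Qa Qb) (hS : St8 K B a β Pp Pp') {r : SC ℚ}
    (hr : r ∈ XX (L8 ℚ a β Qa Qb Pp Pp')) : res K r ∈ XX (L8 K a β Qa Qb Pp Pp') := by
  have hDQ := dat8_rat hD
  have hG := good8 hDQ (st8_rat hS)
  obtain ⟨h1, h2, h3, h4⟩ := hr
  refine ⟨?_, ?_, ?_, ?_⟩
  · intro v hv hv'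
    obtain ⟨w, hw⟩ := Ag_w v
    exact eo_res0 hw (h1 w (fun h => hv ((Ag_mS hw).2 h)) (fun h => hv' ((Ag_mP' hD hS hw).2 h)))
  · intro v hv
    obtain ⟨w, hw⟩ := Ag_w v
    have hwS := (Ag_mS hw).1 hv
    have h5 := (Ag_sg hDQ hwS r).1 (h2 w hwS)
    have hq := (H38T1.mem_ov Ah8_pr0).1 hwS
    refine (Ag_sg hD hv _).2 ?_
    rw [hw]
    exact res_gen (Ah8_S hDQ hwS).1 hw (Ag_dvd2 hDQ hq).1 h5
  · intro v hv
    obtain ⟨w, hw⟩ := Ag_w v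
    have hwP := (Ag_mP hD hS hw).1 hv
    refine la_res0 (Ah8_P hD hS hv).1 hw (h1 w ?_ ?_) (h3 w hwP)
    · exact fun h => Set.disjoint_left.1 hG.d1 h hwP
    · exact fun h => Set.disjoint_left.1 hG.d3 hwP h
  · intro ht u
    exact si_res (h4 ht) u

theorem res_X8' (hD : Dat8 K B QK E0 a β Qa Qb) (hS : St8 K B a β Pp Pp') {r : SC ℚ}
    (hr : r ∈ XX' (L8 ℚ a β Qa Qb Pp Pp')) : res K r ∈ XX' (L8 K a β Qa Qb Pp Pp') := by
  have hDQ := dat8_rat hD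
  have hG := good8 hDQ (st8_rat hS)
  obtain ⟨h1, h2, h3, h4, _⟩ := hr
  refine ⟨?_, ?_, ?_, ?_, ?_⟩
  · intro v hv hv'
    obtain ⟨w, hw⟩ := Ag_w v
    exact eo_res0 hw (h1 w (fun h => hv ((Ag_mS hw).2 h)) (fun h => hv' ((Ag_mP hD hS hw).2 h)))
  · intro v hv
    obtain ⟨w, hw⟩ := Ag_w v
    have hv2 := Ag_two hv
    exact pri_res hv2 hw (h2 w (Ag_ntwo (by rw [← hw]; exact hv2)))
  · intro v hv
    obtain ⟨w, hw⟩ := Ag_w v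
    have hwS := (Ag_mS hw).1 hv
    have h5 := h3 w hwS
    have hq := (H38T1.mem_ov Ah8_pr0).1 hwS
    change (eo w r = 0 ∧ la w r = 0) ∨ (eo w r = eo w (g8 ℚ a β w) ∧ la w r = la w (g8 ℚ a β w)) at h5
    change (eo v (res K r) = 0 ∧ la v (res K r) = 0) ∨ (eo v (res K r) = eo v (g8 K a β v) ∧
      la v (res K r) = la v (g8 K a β v))
    rw [Ag_g8] at h5 ⊢
    rw [hw]
    exact res_gen (Ah8_S hDQ hwS).1 hw (Ag_dvd hDQ hq).1 h5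
  · intro v hv
    obtain ⟨w, hw⟩ := Ag_w v
    have hwP := (Ag_mP' hD hS hw).1 hv
    refine la_res0 (Ah8_P' hD hS hv).1 hw (h1 w ?_ ?_) (h4 w hwP)
    · exact fun h => Set.disjoint_left.1 hG.d2 h hwP
    · exact fun h => Set.disjoint_left.1 hG.d3 h hwP
  · intro ht
    exact absurd ht Bool.false_ne_true

theorem nm_X8 (hD : Dat8 K B QK E0 a β Qa Qb) (hS : St8 K B a β Pp Pp') {c : SC K}
    (hc : c ∈ XX (L8 K a β Qa Qb Pp Pp')) : nm K c ∈ XX (L8 ℚ a β Qa Qb Pp Pp') := by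
  have hDQ := dat8_rat hD
  have hG := good8 hDQ (st8_rat hS)
  obtain ⟨h1, h2, h3, h4⟩ := hc
  refine ⟨?_, ?_, ?_, ?_⟩
  · intro w hw hw'
    exact nm_eo fun v hv => h1 v (fun h => hw ((Ag_mS hv).1 h)) (fun h => hw' ((Ag_mP' hD hS hv).1 h))
  · intro w hw
    have hq := (H38T1.mem_ov Ah8_pr0).1 hw
    refine (Ag_sg hDQ hw _).2 ?_
    refine nm_gen (Ah8_S hDQ hw).1 ?_ (Ag_dvd2 hDQ hq).2.1 (Ag_dvd2 hDQ hq).2.2 ?_
    · intro v hv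
      exact (Ah8_S hD ((Ag_mS hv).2 hw)).2.2.2.1
    · intro v hv
      have h5 := (Ag_sg hD ((Ag_mS hv).2 hw) c).1 (h2 v ((Ag_mS hv).2 hw))
      rwa [hv] at h5
  · intro w hw
    refine nm_la (Ah8_P hDQ (st8_rat hS) hw).1 (fun v hv => Ag_nB hD hS (Or.inl hw) hv) ?_
    intro v hv
    refine ⟨h1 v ?_ ?_, h3 v ((Ag_mP hD hS hv).2 hw)⟩
    · exact fun h => Set.disjoint_left.1 hG.d1 ((Ag_mS hv).1 h) hw
    · exact fun h => Set.disjoint_left.1 hG.d3 hw ((Ag_mP' hD hS hv).1 h)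
  · intro ht u
    exact nm_si (h4 ht) u

theorem nm_X8' (hD : Dat8 K B QK E0 a β Qa Qb) (hS : St8 K B a β Pp Pp') {c : SC K}
    (hc : c ∈ XX' (L8 K a β Qa Qb Pp Pp')) : nm K c ∈ XX' (L8 ℚ a β Qa Qb Pp Pp') := by
  have hDQ := dat8_rat hD
  have hG := good8 hDQ (st8_rat hS)
  obtain ⟨h1, h2, h3, h4, _⟩ := hc
  refine ⟨?_, ?_, ?_, ?_, ?_⟩
  · intro w hw hw'
    exact nm_eo fun v hv => h1 v (fun h => hw ((Ag_mS hv).1 h)) (fun h => hw' ((Ag_mP hD hS hv).1 h))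
  · intro w hw
    exact nm_pri (Ag_two hw) fun v hv => h2 v (Ag_ntwo hv)
  · intro w hw
    have hq := (H38T1.mem_ov Ah8_pr0).1 hw
    change (eo w (nm K c) = 0 ∧ la w (nm K c) = 0) ∨ (eo w (nm K c) = eo w (g8 ℚ a β w) ∧
      la w (nm K c) = la w (g8 ℚ a β w))
    rw [Ag_g8]
    refine nm_gen (Ah8_S hDQ hw).1 ?_ (Ag_dvd hDQ hq).2.1 (Ag_dvd hDQ hq).2.2 ?_
    · intro v hv
      exact (Ah8_S hD ((Ag_mS hv).2 hw)).2.2.2.1
    · intro v hv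
      have h5 := h3 v ((Ag_mS hv).2 hw)
      change (eo v c = 0 ∧ la v c = 0) ∨ (eo v c = eo v (g8 K a β v) ∧ la v c = la v (g8 K a β v)) at h5
      rw [Ag_g8] at h5
      rwa [hv] at h5
  · intro w hw
    refine nm_la (Ah8_P' hDQ (st8_rat hS) hw).1 (fun v hv => Ag_nB hD hS (Or.inr hw) hv) ?_
    intro v hv
    refine ⟨h1 v ?_ ?_, h4 v ((Ag_mP' hD hS hv).2 hw)⟩
    · exact fun h => Set.disjoint_left.1 hG.d2 ((Ag_mS hv).1 h) hw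
    · exact fun h => Set.disjoint_left.1 hG.d3 ((Ag_mP hD hS hv).1 h) hw
  · intro ht
    exact absurd ht Bool.false_ne_true

/-- The exotic classes are not in the groups. -/
theorem exo_X8 (hD : Dat8 K B QK E0 a β Qa Qb) {c : SC K} (hc : c ∈ XX (L8 K a β Qa Qb Pp Pp'))
    (hE : c ∈ E0) : c = 0 := by
  by_contra hne
  obtain ⟨⟨v, ⟨q, hq, hqv⟩, hla⟩, _⟩ := hD.exo c hE hne
  have h := hc.2.2.1 v ⟨q, Or.inl hq, hqv⟩
  rw [hla] at h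
  exact one_ne_zero h

theorem exo_X8' (hD : Dat8 K B QK E0 a β Qa Qb) {c : SC K} (hc : c ∈ XX' (L8 K a β Qa Qb Pp Pp'))
    (hE : c ∈ E0) : c = 0 := by
  by_contra hne
  obtain ⟨_, v, ⟨q, hq, hqv⟩, hla⟩ := hD.exo c hE hne
  have h := hc.2.2.2.1 v ⟨q, Or.inl hq, hqv⟩
  rw [hla] at h
  exact one_ne_zero h

theorem exo_NS (hD : Dat8 K B QK E0 a β Qa Qb) {S : Set (HeightOneSpectrum (𝓞 K))}
    (hS : ov K (Qa : Set ℕ) ⊆ S) {c : SC K} (hc : c ∈ NS S) (hE : c ∈ E0) : c = 0 := by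
  by_contra hne
  obtain ⟨⟨v, hv, hla⟩, _⟩ := hD.exo c hE hne
  have h := hc.2.1 v (hS hv)
  rw [hla] at h
  exact one_ne_zero h

end H88D8
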