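import Pool.Agent.H88.T8.Ca
import Pool.Agent.H88.D8.Ah
import Pool.Agent.H88.T7.Cd

/-!
ROW Cd (project MP_78d38b_T8, about 230 lines): the Selmer group of the curve `y^2 = x (x^2 + n x + 16 β n^2)` is contained in `XX`. Modification
of the proved file `Pool/Agent/H88/T7/Cd.lean` (with `a = 1`; there is no `Sg` and all primes dividing `β D` are prime to `n`); the conditions at `Sg` are as
in `H86TL.loc_X` (`Pool/Agent/H86/TL/Lz.lean`).

PROOF. `b = 16 β`, `D = 1 - 64 β = 1 - 4 b`. For a place `v`: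
 * `rp v = 2`: `even_two` (`n ≡ 1 mod 4`), as in T7.
 * `rp v ∈ Qb` : `v ∈ P'`, no condition. `rp v ∈ Qa`: `rp v ∤ n` (`hn.pre`), `sq_node` with `c = -n/2`, `e = D n^2/4`: `eo = la = 0` (as in T7 for `rp v ∣ D`).
 * `rp v ∈ Q0`, dividing `β`: `hn.zb`: `n = q u`, `β = q b'`: `Mo_X8` with `A = 1`, `B = 16 β`, `B' = 16 b'` (`SqMod q (-(u * 16 b'))` from `SqMod q (-(u b'))`): `d` is trivial or
   agrees with `sc (16 β) = sc β` (`sc_mul`, `sc 16 = 0`): `tp v (sc d) (g8) = 0` by `sg_iff`.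
 * `rp v ∈ Q0`, dividing `D`: `hn.zd`: `n = q u`, `D = q d'`, `SqMod q (2 u d')`: `Mo_X8'` with `A = -2`, `B = D`, `B' = d'` (`-(A u B') = 2 u d'`): `-2 A = 4`, `A^2 - 4 B = 4 - 4 D =
   256 β`: this is the curve `QPt (4 n) (256 β n^2) d`, which is `QPt n (16 β n^2) d` after scaling (`E_dual` in `Lz.lean` is this change of form, with `a = 1`): `d` is
   trivial or agrees with `sc (-D)`: `sg_iff`.
 * `rp v ∤ 2 β D n`: `unit_X`. * `rp v ∣ n`, `rp v ∤ β D`: `hn.neu`: `Nice`; if `rp v ∈ Pp'`: `v ∈ P'`, no condition; `rp v ∈ Pp` or neutral: `D` is not a square: `P_X7`.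
 * signs as in T7.
-/

set_option autoImplicit false
set_option linter.unusedSectionVars false
open scoped Classical

open WithZero NumberField IsDedekindDomain H38RT H88T7 H88T8
open H38T1 (SC sc rep eo la si Pri tp OddP LD XX XX' NS ov rp SqMod)

namespace H88D8

open H73IS

variable {K : Type} [Field K] [NumberField K] {B : Finset ℕ} {QK : AddSubgroup (SC ℚ)}
  {E0 : Set (SC K)} {a β : ℤ} {Qa Qb Pp Pp' : Finset ℕ} {n : ℤ}

theorem Cd8_q (hD : Dat8 K B QK E0 a β Qa Qb) {q : ℕ} (hq : q.Prime)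
    (h : (q : ℤ) ∣ β * (a ^ 2 - 64 * β)) : q ∉ B ∧ q ≠ 2 := by
  have h1 := hD.co q hq h
  refine ⟨h1, ?_⟩
  intro h2
  rw [h2] at h1
  exact h1 hD.two

theorem Cd8_disc (hc : IsCoprime a β) {q : ℕ} (hq : q.Prime) (h2 : q ≠ 2)
    (h : (q : ℤ) ∣ a ^ 2 - 64 * β) : ¬ (q : ℤ) ∣ a ∧ ¬ (q : ℤ) ∣ β := by
  have hqZ : Prime ((q : ℕ) : ℤ) := Nat.prime_iff_prime_int.1 hq
  have h1 : ¬ ((q : ℤ) ∣ a ∧ (q : ℤ) ∣ β) := by
    rintro ⟨h3, h4⟩
    exact hqZ.not_isUnit (hc.isUnit_of_dvd' h3 h4)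
  have h3 : (q : ℤ) ∣ β → (q : ℤ) ∣ a := by
    intro h4
    have h5 : (q : ℤ) ∣ a ^ 2 := by
      have h6 := dvd_add h (h4.mul_left 64)
      rwa [sub_add_cancel] at h6
    exact hqZ.dvd_of_dvd_pow h5
  have h4 : (q : ℤ) ∣ a → (q : ℤ) ∣ β := by
    intro h5
    have h6 : (q : ℤ) ∣ 64 * β := by
      have h7 := dvd_sub (h5.mul_right a) h
      rwa [show a * a - (a ^ 2 - 64 * β) = 64 * β by ring] at h7
    rcases hqZ.dvd_or_dvd h6 with h7 | h7
    · exact absurd h7 (by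
        have h8 := Cd_pow2 hq h2 6
        norm_num at h8
        exact h8)
    · exact h7
  exact ⟨fun h5 => h1 ⟨h5, h4 h5⟩, fun h5 => h1 ⟨h3 h5, h5⟩⟩

theorem Cd8_na (hc : IsCoprime a β) {q : ℕ} (hq : q.Prime) (h : (q : ℤ) ∣ β) :
    ¬ (q : ℤ) ∣ a := fun h' =>
  (Nat.prime_iff_prime_int.1 hq).not_isUnit (hc.isUnit_of_dvd' h' h)

theorem Cd8_P (hn : Tw8 K B a β Qa Qb Pp Pp' n) {v : HeightOneSpectrum (𝓞 K)}
    (hqn : (rp v : ℤ) ∣ n) (hbD : ¬ (rp v : ℤ) ∣ β * (a ^ 2 - 64 * β))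
    (hr : ¬ SqMod (rp v) (a ^ 2 - 64 * β)) {d : K} (hd : d ≠ 0)
    (hf : FinQ K ((a * n : ℤ) : K) ((16 * β * n ^ 2 : ℤ) : K) d) :
    eo v (sc d) = 0 ∧ (SqMod (rp v) β → la v (sc d) = 0) := by
  have hq := H38T1.rp_prime v
  obtain ⟨⟨-, h2, hnice⟩, -⟩ := hn.neu (rp v) hq hqn hbD
  obtain ⟨he, hfd⟩ := hnice v (H38T1.rp_mem v)
  have hb : ¬ (rp v : ℤ) ∣ β := fun h => hbD (h.mul_right _)
  have hDD : ¬ (rp v : ℤ) ∣ a ^ 2 - 64 * β := fun h => hbD (h.mul_left _)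
  have hb16 : ¬ (rp v : ℤ) ∣ 16 * β := Cd_16 hq h2 hb
  have e : a ^ 2 - 4 * (16 * β) = a ^ 2 - 64 * β := by ring
  have key := P_X7 (A := a) (B := 16 * β) (n := n) he hfd h2 hb16 (by rw [e]; exact hDD)
    (by rw [e]; exact hr) hn.sqf hqn hd (H86TL.E_form hf v)
  refine ⟨key.1, fun hs => key.2 ?_⟩
  obtain ⟨t, ht⟩ := hs
  refine ⟨4 * t, ?_⟩
  rw [show 16 * β - (4 * t) ^ 2 = 16 * (β - t ^ 2) by ring]
  exact ht.mul_left _

theorem Cd8_node (hD : Dat8 K B QK E0 a β Qa Qb) (hn : Tw8 K B a β Qa Qb Pp Pp' n)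
    {v : HeightOneSpectrum (𝓞 K)} (hqa : rp v ∈ Qa) {d : K} (hd : d ≠ 0)
    (hf : FinQ K ((a * n : ℤ) : K) ((16 * β * n ^ 2 : ℤ) : K) d) :
    eo v (sc d) = 0 ∧ la v (sc d) = 0 := by
  have hq := H38T1.rp_prime v
  have hv : (rp v : ℤ) ∣ a ^ 2 - 64 * β := (hD.pa _ hqa).2
  obtain ⟨hqB, h2⟩ := Cd8_q hD hq (hv.mul_left β)
  obtain ⟨hqa', hqb⟩ := Cd8_disc hD.cop hq h2 hv
  have hqn : ¬ (rp v : ℤ) ∣ n := hn.pre _ (Finset.mem_union_left _ hqa)
  have he : v.asIdeal.ramificationIdx ℤ = 1 := hD.unr v hqB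
  apply H86TL.triv_of_sq v (H86TL.oddP_of h2) hd
  have hdF : algebraMap K (v.adicCompletion K) d ≠ 0 := (map_ne_zero _).2 hd
  have hnV := H86TL.val_int_one v hqn
  have haV := H86TL.val_int_one v hqa'
  have h2V := H86TL.v2F h2
  have hch : CharZero (v.adicCompletion K) := Pool.Agent.H10.charZero_of_alg (K := K)
  have hDV := (H86TL.val_int_lt v _).2 hv
  have hDne : a ^ 2 - 64 * β ≠ 0 := (Ah8_neg hD).ne
  have hDsq : Squarefree (a ^ 2 - 64 * β) := hD.sqf.of_mul_right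
  have hlog : log (Valued.v (((a ^ 2 - 64 * β : ℤ)) : v.adicCompletion K)) = -1 := by
    rw [H86TL.log_int v hDne, he, H86TL.padic_sqf hq hDsq hv]
    norm_num
  have h4V : Valued.v (4 : v.adicCompletion K) = 1 := by
    rw [show (4 : v.adicCompletion K) = 2 * 2 by norm_num, map_mul, h2V, one_mul]
  have hE : Valued.v ((((a ^ 2 - 64 * β : ℤ)) : v.adicCompletion K) * ((n : ℤ) : v.adicCompletion K) ^ 2 / 4) =
      Valued.v (((a ^ 2 - 64 * β : ℤ)) : v.adicCompletion K) := by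
    rw [map_div₀, map_mul, map_pow, hnV, h4V, one_pow, mul_one, div_one]
  have H := H86TL.E_form hf v
  have e1 : -2 * (-(((a : ℤ) : v.adicCompletion K) * ((n : ℤ) : v.adicCompletion K)) / 2) =
      ((a : ℤ) : v.adicCompletion K) * ((n : ℤ) : v.adicCompletion K) := by ring
  have e2 : (-(((a : ℤ) : v.adicCompletion K) * ((n : ℤ) : v.adicCompletion K)) / 2) ^ 2 -
      (((a ^ 2 - 64 * β : ℤ)) : v.adicCompletion K) * ((n : ℤ) : v.adicCompletion K) ^ 2 / 4 =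
      ((16 * β : ℤ) : v.adicCompletion K) * ((n : ℤ) : v.adicCompletion K) ^ 2 := by
    push_cast
    ring
  rw [← e1, ← e2] at H
  refine sq_node (Pool.Agent.H10.hS_odd v (H86TL.two_notMem h2)) ?_ ?_ ?_ hdF H
  · rw [map_div₀, Valuation.map_neg, map_mul, haV, hnV, h2V, mul_one, div_one]
  · rw [hE]
    exact hDV
  · rw [hE, hlog]
    exact ⟨-1, by norm_num⟩

theorem Cd8_two (hD : Dat8 K B QK E0 a β Qa Qb) (hn : Tw8 K B a β Qa Qb Pp Pp' n)
    {v : HeightOneSpectrum (𝓞 K)} (h2 : rp v = 2) {d : K} (hd : d ≠ 0)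
    (hf : FinQ K ((a * n : ℤ) : K) ((16 * β * n ^ 2 : ℤ) : K) d) : eo v (sc d) = 0 := by
  have hdF : algebraMap K (v.adicCompletion K) d ≠ 0 := (map_ne_zero _).2 hd
  have hV2 : Valued.v (2 : v.adicCompletion K) = exp (-(v.asIdeal.ramificationIdx ℤ : ℤ)) := by
    have h3 := H86TL.val_rp v
    rw [h2] at h3
    have h4 : Valued.v (2 : v.adicCompletion K) = v.valuation K 2 := Pool.Agent.H10.valued_ofNat v 2
    rw [h4]
    exact_mod_cast h3
  have hlt : Valued.v (2 : v.adicCompletion K) < 1 := by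
    have h3 := (H86TL.val_int_lt v 2).2 (by rw [h2]; exact dvd_rfl)
    exact_mod_cast h3
  have he : (0 : ℤ) < v.asIdeal.ramificationIdx ℤ := by
    rw [hV2, ← exp_zero, exp_lt_exp] at hlt
    omega
  have hn2 : ¬ (rp v : ℤ) ∣ n := by
    rw [h2]
    intro h3
    have := hn.n4
    push_cast at h3
    omega
  have hb2 : ¬ (rp v : ℤ) ∣ β := by
    rw [h2]
    intro h3
    have := hD.bo
    push_cast at h3
    omega
  have hnV := H86TL.val_int_one v hn2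
  have hbV := H86TL.val_int_one v hb2
  apply H86TL.eo_of_even v hd
  refine even_two he hV2 ?_ ?_ hdF (H86TL.qF hf v)
  · obtain ⟨m, hm⟩ : ∃ m : ℤ, a * n = 1 + 4 * m := by
      have h5 : a * n % 4 = 1 := by
        rw [Int.mul_emod, hD.a4, hn.n4]
        norm_num
      exact ⟨a * n / 4, by omega⟩
    rw [hm]
    push_cast
    rw [show (1 : v.adicCompletion K) + 4 * (m : v.adicCompletion K) - 1 =
      4 * (m : v.adicCompletion K) by ring, map_mul]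
    exact mul_le_of_le_one_right' (H86TL.val_int_le v m)
  · push_cast
    rw [map_mul, map_mul, map_pow, hnV, hbV, one_pow, mul_one, mul_one]

/-- The conditions at the primes dividing `β` and the twisting integer. -/
theorem Cd8_zb (hD : Dat8 K B QK E0 a β Qa Qb) (hn : Tw8 K B a β Qa Qb Pp Pp' n)
    {v : HeightOneSpectrum (𝓞 K)} (hv : rp v ∈ Q0 a β Qa Qb) (hb : (rp v : ℤ) ∣ β) {d : K}
    (hd : d ≠ 0) (hf : FinQ K ((a * n : ℤ) : K) ((16 * β * n ^ 2 : ℤ) : K) d) :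
    tp v (sc d) (sc ((-β : ℤ) : K)) = 0 := by
  have hq := H38T1.rp_prime v
  have hqZ : Prime ((rp v : ℕ) : ℤ) := Nat.prime_iff_prime_int.1 hq
  obtain ⟨hqB, h2⟩ := Cd8_q hD hq hv.1.2
  have he : v.asIdeal.ramificationIdx ℤ = 1 := hD.unr v hqB
  have hb0 : β ≠ 0 := by
    have := hD.pos
    omega
  obtain ⟨u, b', h3, h4, h5, t, ht⟩ := hn.zb _ hv hb
  have h16 : sc ((16 * β : ℤ) : K) = sc ((β : ℤ) : K) := by
    have hbK : ((β : ℤ) : K) ≠ 0 := Int.cast_ne_zero.2 hb0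
    have h16K : (16 : K) ≠ 0 := by norm_num
    push_cast
    rw [H38T1.sc_mul h16K hbK, (H38T1.sc_eq_zero h16K).2 ⟨4, by norm_num⟩, zero_add]
  have h6 : ¬ (rp v : ℤ) ∣ u * (16 * b') := by
    rw [show u * (16 * b') = 16 * (u * b') by ring]
    exact Cd_16 hq h2 h5
  have h7 : SqMod (rp v) (-(a * u * (16 * b'))) := by
    refine ⟨4 * t, ?_⟩
    rw [show -(a * u * (16 * b')) - (4 * t) ^ 2 = 16 * (-(a * u * b') - t ^ 2) by ring]
    exact ht.mul_left _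
  have h8 : 16 * β = (rp v : ℤ) * (16 * b') := by linear_combination 16 * h4
  rcases Mo_X8 (A := a) (B := 16 * β) (B' := 16 * b') he h2 (mul_ne_zero (by norm_num) hb0)
    (Cd8_na hD.cop hq hb) h3 h8 h6 h7 hd (H86TL.E_form hf v) with ⟨h9, h10⟩ | ⟨h9, h10⟩
  · exact H86TL.tp_zero_left v h9 h10
  · rw [h16] at h9 h10
    rw [Int.cast_neg]
    exact H86TL.tp_same v h9 h10 (H86TL.tp_neg v (H86TL.oddP_of h2) (by exact_mod_cast hb0))

/-- The conditions at the primes dividing `1 - 64 β` and the twisting integer. -/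
theorem Cd8_zd (hD : Dat8 K B QK E0 a β Qa Qb) (hn : Tw8 K B a β Qa Qb Pp Pp' n)
    {v : HeightOneSpectrum (𝓞 K)} (hv : rp v ∈ Q0 a β Qa Qb) (hb : (rp v : ℤ) ∣ a ^ 2 - 64 * β) {d : K}
    (hd : d ≠ 0) (hf : FinQ K ((a * n : ℤ) : K) ((16 * β * n ^ 2 : ℤ) : K) d) :
    tp v (sc d) (sc ((a ^ 2 - 64 * β : ℤ) : K)) = 0 := by
  have hq := H38T1.rp_prime v
  have hqZ : Prime ((rp v : ℕ) : ℤ) := Nat.prime_iff_prime_int.1 hq
  obtain ⟨hqB, h2⟩ := Cd8_q hD hq hv.1.2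
  have he : v.asIdeal.ramificationIdx ℤ = 1 := hD.unr v hqB
  have hD0 : a ^ 2 - 64 * β ≠ 0 := (Ah8_neg hD).ne
  obtain ⟨u, d', h3, h4, h5, hs⟩ := hn.zd _ hv hb
  have e : a ^ 2 - 4 * (16 * β) = a ^ 2 - 64 * β := by ring
  obtain ⟨hqa', -⟩ := Cd8_disc hD.cop hq h2 hb
  have ha : ¬ (rp v : ℤ) ∣ -2 * a := by
    intro h6
    rw [neg_mul, Int.dvd_neg] at h6
    rcases hqZ.dvd_or_dvd h6 with h7 | h7
    · have h7 : rp v ∣ 2 := by exact_mod_cast h7
      exact h2 ((Nat.prime_dvd_prime_iff_eq hq Nat.prime_two).1 h7)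
    · exact hqa' h7
  have h8 : SqMod (rp v) (-(-2 * a * u * d')) := by
    rw [show -(-2 * a * u * d') = 2 * a * u * d' by ring]
    exact hs
  have key := Mo_X8' (A := -2 * a) (B := a ^ 2 - 4 * (16 * β)) (B' := d') he h2
    (by rw [e]; exact hD0) ha h3 (by rw [e]; exact h4) h5 h8 hd (H86TL.E_dual hf v)
  rw [e] at key
  rcases key with ⟨h9, h10⟩ | ⟨h9, h10⟩
  · exact H86TL.tp_zero_left v h9 h10
  · refine H86TL.tp_same v h9 h10 ?_
    have h11 := H86TL.tp_neg (K := K) v (H86TL.oddP_of h2) (x := ((-(a ^ 2 - 64 * β) : ℤ) : K)) (by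
      exact_mod_cast neg_ne_zero.2 hD0)
    rw [← Int.cast_neg, neg_neg] at h11
    exact h11

theorem loc_X8 (hD : Dat8 K B QK E0 a β Qa Qb) (hS : St8 K B a β Pp Pp')
    (hn : Tw8 K B a β Qa Qb Pp Pp' n) {d : K} (hd : d ≠ 0)
    (hf : FinQ K ((a * n : ℤ) : K) ((16 * β * n ^ 2 : ℤ) : K) d)
    (hi : InfQ K ((a * n : ℤ) : K) ((16 * β * n ^ 2 : ℤ) : K) d) :
    sc d ∈ XX (L8 K a β Qa Qb Pp Pp') := by
  refine ⟨?_, ?_, ?_, ?_⟩
  · intro v hv hv'
    have hq := H38T1.rp_prime v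
    have hqZ : Prime ((rp v : ℕ) : ℤ) := Nat.prime_iff_prime_int.1 hq
    have hv0 : rp v ∉ Q0 a β Qa Qb := fun h => hv (H86TL.ov_of_rp h)
    have hv1 : rp v ∉ (Qb : Set ℕ) ∪ (Pp' : Set ℕ) := fun h => hv' (H86TL.ov_of_rp h)
    have hvb : rp v ∉ Qb := fun h => hv1 (Or.inl (Finset.mem_coe.2 h))
    by_cases h2 : rp v = 2
    · exact Cd8_two hD hn h2 hd hf
    · by_cases hva : rp v ∈ Qa
      · exact (Cd8_node hD hn hva hd hf).1
      · have hbD : ¬ (rp v : ℤ) ∣ β * (a ^ 2 - 64 * β) := fun h => hv0 ⟨⟨hq, h⟩, hva, hvb⟩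
        have hb : ¬ (rp v : ℤ) ∣ β := fun h => hbD (h.mul_right _)
        by_cases hqn : (rp v : ℤ) ∣ n
        · have hP' : rp v ∉ Pp' := fun h => hv1 (Or.inr (Finset.mem_coe.2 h))
          have hr : ¬ SqMod (rp v) (a ^ 2 - 64 * β) := by
            by_cases hP : rp v ∈ Pp
            · exact (hS.sq _ hP).2
            · exact ((hn.neu _ hq hqn hbD).2 hP hP').2
          exact (Cd8_P hn hqn hbD hr hd hf).1
        · exact H86TL.unit_X (Cd_16 hq h2 hb) hqn hd (H86TL.E_form hf v)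
  · intro v hv
    have hq := H38T1.rp_prime v
    have hqZ : Prime ((rp v : ℕ) : ℤ) := Nat.prime_iff_prime_int.1 hq
    have hS0 : rp v ∈ Q0 a β Qa Qb := H86TL.rp_of_ov (fun q hq => hq.1.1) hv
    change tp v (sc d) (g8 K a β v) = 0
    unfold g8
    by_cases hb : (rp v : ℤ) ∣ β
    · rw [if_pos hb]
      exact Cd8_zb hD hn hS0 hb hd hf
    · rw [if_neg hb]
      exact Cd8_zd hD hn hS0 ((hqZ.dvd_or_dvd hS0.1.2).resolve_left hb) hd hf
  · intro v hv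
    have hq := H38T1.rp_prime v
    have hP : rp v ∈ (Qa : Set ℕ) ∪ (Pp : Set ℕ) := by
      refine H86TL.rp_of_ov (fun q hq' => ?_) hv
      rcases hq' with h | h
      · exact (hD.pa q (Finset.mem_coe.1 h)).1
      · exact (hS.tot q (Finset.mem_union_left _ (Finset.mem_coe.1 h))).1
    rcases hP with h | h
    · exact (Cd8_node hD hn (Finset.mem_coe.1 h) hd hf).2
    · have h' : rp v ∈ Pp := Finset.mem_coe.1 h
      have hqn : (rp v : ℤ) ∣ n := hn.mem _ (Finset.mem_union_left _ h')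
      have hbD : ¬ (rp v : ℤ) ∣ β * (a ^ 2 - 64 * β) := fun h3 =>
        hS.ndvd _ (Finset.mem_union_left _ h') (h3.mul_left 2)
      exact (Cd8_P hn hqn hbD (hS.sq _ h').2 hd hf).2 (hS.sq _ h').1
  · intro _ w
    apply H86TL.si_of_inf ?_ hd hi
    left
    have hn0 : n ≠ 0 := hn.sqf.ne_zero
    have hn2 : 0 < n ^ 2 := by positivity
    have h3 := mul_lt_mul_of_pos_right hD.lt hn2
    calc (a * n) ^ 2 = a ^ 2 * n ^ 2 := by ring
      _ < 64 * β * n ^ 2 := h3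
      _ = 4 * (16 * β * n ^ 2) := by ring

end H88D8
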