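import Pool.Agent.H88.T8.Df

/-!
Definitions for the project MP_78d38b_D8 (the project T8 for the curves `y^2 = x (x^2 + a x + 16 β)`,
`D = a^2 - 64 β`); no row.
-/

set_option autoImplicit false
set_option linter.unusedSectionVars false
open scoped Classical

open WithZero NumberField IsDedekindDomain H38RT H88T7 H88T8
open H38T1 (SC sc scu scu_surj sc_mul sc_of_ne sc_surj rep rep_ne sc_rep sc_eq_zero eo la si Pri OddP LD
  XX XX' NS ov rp SqMod)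

namespace H88D8

/-- The primes dividing `β (a^2 - 64 β)` outside the prescribed sets. -/
def Q0 (a β : ℤ) (Qa Qb : Finset ℕ) : Set ℕ :=
  {q | q ∈ pd (β * (a ^ 2 - 64 * β)) ∧ q ∉ Qa ∧ q ∉ Qb}

/-- The generators of the local conditions of the second group at the primes of `Q0`. -/
noncomputable def g8 (K : Type) [Field K] [NumberField K] (a β : ℤ) (v : HeightOneSpectrum (𝓞 K)) :
    SC K :=
  if (rp v : ℤ) ∣ β then sc ((-β : ℤ) : K) else sc ((a ^ 2 - 64 * β : ℤ) : K)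

/-- The local data: `Qa`, `Qb` prescribed primes dividing `a^2 - 64 β`, `β`. -/
noncomputable def L8 (K : Type) [Field K] [NumberField K] (a β : ℤ) (Qa Qb Pp Pp' : Finset ℕ) :
    LD K where
  Sg := ov K (Q0 a β Qa Qb)
  g := g8 K a β
  P := ov K ((Qa : Set ℕ) ∪ (Pp : Set ℕ))
  P' := ov K ((Qb : Set ℕ) ∪ (Pp' : Set ℕ))
  τ := false

/-- The curve, the bad primes `B`, the quadratic classes `QK`, the exotic classes `E0` and the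
prescribed primes. -/
structure Dat8 (K : Type) [Field K] [NumberField K] (B : Finset ℕ) (QK : AddSubgroup (SC ℚ))
    (E0 : Set (SC K)) (a β : ℤ) (Qa Qb : Finset ℕ) : Prop where
  odd : Odd (Module.finrank ℚ K)
  two : 2 ∈ B
  unr : ∀ v : HeightOneSpectrum (𝓞 K), rp v ∉ B → v.asIdeal.ramificationIdx ℤ = 1
  quad : ∀ d ∈ QK, ∀ v : HeightOneSpectrum (𝓞 ℚ), rp v ∉ B → eo v d = 0
  exo : ∀ u ∈ E0, u ≠ 0 → (∃ v ∈ ov K (Qa : Set ℕ), la v u = 1) ∧ ∃ v ∈ ov K (Qb : Set ℕ), la v u = 1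
  a4 : a % 4 = 1
  bo : β % 2 = 1
  pos : 0 < β
  lt : a ^ 2 < 64 * β
  cop : IsCoprime a β
  sqf : Squarefree (β * (a ^ 2 - 64 * β))
  co : ∀ q : ℕ, q.Prime → (q : ℤ) ∣ β * (a ^ 2 - 64 * β) → q ∉ B
  pa : ∀ q ∈ Qa, q.Prime ∧ (q : ℤ) ∣ a ^ 2 - 64 * β
  pb : ∀ q ∈ Qb, q.Prime ∧ (q : ℤ) ∣ β
  na : Qa.Nonempty
  nb : Qb.Nonempty
  card : Qa.card = Qb.card
  bal : (ov K (Qb : Set ℕ)).ncard + InfinitePlace.nrComplexPlaces K = (ov K (Qa : Set ℕ)).ncard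

/-- A state of the algorithm: totally split primes outside `B` not dividing `2 β (a^2 - 64 β)`. -/
structure St8 (K : Type) [Field K] [NumberField K] (B : Finset ℕ) (a β : ℤ) (Pp Pp' : Finset ℕ) :
    Prop where
  dj : Disjoint Pp Pp'
  tot : ∀ p ∈ Pp ∪ Pp', Tot K p
  ndvd : ∀ p ∈ Pp ∪ Pp', ¬ (p : ℤ) ∣ 2 * (β * (a ^ 2 - 64 * β))
  nB : ∀ p ∈ Pp ∪ Pp', p ∉ B
  sq : ∀ p ∈ Pp, SqMod p β ∧ ¬ SqMod p (a ^ 2 - 64 * β)
  sq' : ∀ p ∈ Pp', ¬ SqMod p β ∧ SqMod p (a ^ 2 - 64 * β)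

/-- The conditions on the twisting integer. -/
structure Tw8 (K : Type) [Field K] [NumberField K] (B : Finset ℕ) (a β : ℤ)
    (Qa Qb Pp Pp' : Finset ℕ) (n : ℤ) : Prop where
  sqf : Squarefree n
  n4 : n % 4 = 1
  pre : ∀ q ∈ Qa ∪ Qb, ¬ (q : ℤ) ∣ n
  mem : ∀ p ∈ Pp ∪ Pp', (p : ℤ) ∣ n
  zb : ∀ q ∈ Q0 a β Qa Qb, (q : ℤ) ∣ β → ∃ u b' : ℤ, n = q * u ∧ β = q * b' ∧
    ¬ (q : ℤ) ∣ u * b' ∧ SqMod q (-(a * u * b'))
  zd : ∀ q ∈ Q0 a β Qa Qb, (q : ℤ) ∣ a ^ 2 - 64 * β → ∃ u d' : ℤ, n = q * u ∧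
    a ^ 2 - 64 * β = q * d' ∧ ¬ (q : ℤ) ∣ u * d' ∧ SqMod q (2 * a * u * d')
  neu : ∀ p : ℕ, p.Prime → (p : ℤ) ∣ n → ¬ (p : ℤ) ∣ β * (a ^ 2 - 64 * β) → Nice K p ∧
    (p ∉ Pp → p ∉ Pp' → ¬ SqMod p β ∧ ¬ SqMod p (a ^ 2 - 64 * β))

/-- The norm-zero parts of both groups. -/
def XW8 (K : Type) [Field K] [NumberField K] (a β : ℤ) (Qa Qb Pp Pp' : Finset ℕ) : Set (SC K) :=
  {c | c ∈ XX (L8 K a β Qa Qb Pp Pp') ∧ nm K c = 0}

/-- All places of the local conditions. -/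
noncomputable def PP8 (K : Type) [Field K] [NumberField K] (a β : ℤ) (Qa Qb Pp Pp' : Finset ℕ) :
    Set (HeightOneSpectrum (𝓞 K)) :=
  (L8 K a β Qa Qb Pp Pp').Sg ∪ (L8 K a β Qa Qb Pp Pp').P ∪ (L8 K a β Qa Qb Pp Pp').P'

theorem cop_of_sqf {a β : ℤ} (hs : Squarefree (β * (a ^ 2 - 64 * β))) : IsCoprime a β := by
  rw [Int.isCoprime_iff_gcd_eq_one]
  by_contra hne
  obtain ⟨q, hq, hqd⟩ := Nat.exists_prime_and_dvd hne
  have h1 : (q : ℤ) ∣ a := (Int.natCast_dvd_natCast.2 hqd).trans (Int.gcd_dvd_left ..)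
  have h2 : (q : ℤ) ∣ β := (Int.natCast_dvd_natCast.2 hqd).trans (Int.gcd_dvd_right ..)
  have h3 : (q : ℤ) ∣ a ^ 2 - 64 * β := dvd_sub (h1.trans (dvd_pow_self a two_ne_zero)) (h2.mul_left 64)
  exact (Nat.prime_iff_prime_int.1 hq).not_isUnit (hs _ (mul_dvd_mul h2 h3))

end H88D8
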