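import Pool.Agent.H88.D8.Ta

/-!
ROW Tc (project MP_78d38b_T8, about 170 lines): neutral integers. Modification of the proved file `Pool/Agent/H88/T7/Fi.lean`.

PROOF. ds8_one: no primes; `1 = 1^2`. ds8_mul: as `ds_mul`: `g = Nat.gcd d d'`, `d = g x`, `d' = g y`, `d'' = x y`, `s = g`; for `q ∈ Q0`: `d d' = d'' g^2` is a square modulo `q` and
`q ∤ g` (a prime dividing `g` divides `d`, so it does not divide `β (1 - 64 β)`, but `q` does): `sq_mul8'` (`Tq.lean`) with `y = g^2`, and the product of two squares is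
a square. ds8_inf: `exists_l8 hD hA 0` (`ε = 0`): infinitely many `l`; remove the divisors of `n`; `l` is in `Ds8` (`tot_nice`, `Aa.lean`; the only prime
dividing `l` is `l`). tw8_mul: the integer `n d`: squarefree (`n`, `d` coprime: the primes dividing `d` do not divide `n`); `n d % 4 = 1`; pre: a prime `q ∈ Qa ∪ Qb` divides
`β (1 - 64 β)` (`hD.pa`, `hD.pb`) so it does not divide `d`; zb, zd: `n d = q (u d)`, `SqMod q (-(u d b'))` from `SqMod q (-(u b'))` and `SqMod q d` (product of squares),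
`q ∤ d`. neu: a prime dividing `n d` divides `n` (`hn.neu`) or `d` (definition of `Ds8`).
-/

set_option autoImplicit false
set_option linter.unusedSectionVars false
open scoped Classical

open WithZero NumberField IsDedekindDomain H38RT H88T7 H88T8
open H38T1 (SC sc rep eo la si Pri tp OddP LD XX XX' NS ov rp SqMod)

namespace H88D8

variable {K : Type} [Field K] [NumberField K] {B : Finset ℕ} {QK : AddSubgroup (SC ℚ)}
  {E0 : Set (SC K)} {a β : ℤ} {Qa Qb Pp Pp' : Finset ℕ}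

/-- The squarefree positive integers congruent to one modulo four, prime to `n`, composed of neutral
primes, which are squares modulo the primes of `Q0`. -/
def Ds8 (K : Type) [Field K] [NumberField K] (a β : ℤ) (Qa Qb : Finset ℕ) (n : ℤ) : Set ℕ :=
  {d | Squarefree d ∧ d % 4 = 1 ∧ (∀ l : ℕ, l.Prime → l ∣ d → Nice K l ∧ ¬ (l : ℤ) ∣ n ∧
    ¬ (l : ℤ) ∣ β * (a ^ 2 - 64 * β) ∧ ¬ SqMod l β ∧ ¬ SqMod l (a ^ 2 - 64 * β)) ∧
    ∀ q ∈ Q0 a β Qa Qb, SqMod q (d : ℤ)}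

private theorem Tc_sq {q : ℕ} {x y : ℤ} (hx : SqMod q x) (hy : SqMod q y) : SqMod q (x * y) := by
  obtain ⟨t, ht⟩ := hx
  obtain ⟨u, hu⟩ := hy
  refine ⟨t * u, ?_⟩
  have h1 : x * y - (t * u) ^ 2 = x * (y - u ^ 2) + u ^ 2 * (x - t ^ 2) := by ring
  rw [h1]
  exact dvd_add (dvd_mul_of_dvd_right hu _) (dvd_mul_of_dvd_right ht _)

theorem ds8_one {n : ℤ} : 1 ∈ Ds8 K a β Qa Qb n := by
  refine ⟨squarefree_one, rfl, ?_, ?_⟩
  · intro l hl h
    exact absurd (Nat.dvd_one.1 h) hl.one_lt.ne'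
  · intro q _
    exact ⟨1, by simp⟩

theorem ds8_mul {n : ℤ} {d d' : ℕ} (hd : d ∈ Ds8 K a β Qa Qb n) (hd' : d' ∈ Ds8 K a β Qa Qb n) :
    ∃ d'' ∈ Ds8 K a β Qa Qb n, ∃ s : ℕ, s ≠ 0 ∧ d * d' = d'' * s ^ 2 := by
  obtain ⟨hs, h4, hp, hq⟩ := hd
  obtain ⟨hs', h4', hp', hq'⟩ := hd'
  obtain ⟨g, hg⟩ : ∃ g, g = Nat.gcd d d' := ⟨_, rfl⟩
  have hd0 : d ≠ 0 := hs.ne_zero
  have hg0 : 0 < g := by
    rw [hg]
    exact Nat.gcd_pos_of_pos_left _ (Nat.pos_of_ne_zero hd0)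
  obtain ⟨x, y, hxy, hx, hy⟩ := Nat.exists_coprime d d'
  rw [← hg] at hx hy
  have hxd : x ∣ d := ⟨g, hx⟩
  have hyd : y ∣ d' := ⟨g, hy⟩
  have hgd : g ∣ d := ⟨x, by rw [mul_comm]; exact hx⟩
  have hmul : d * d' = x * y * g ^ 2 := by
    rw [hx, hy]
    ring
  refine ⟨x * y, ⟨?_, ?_, ?_, ?_⟩, g, hg0.ne', hmul⟩
  · rw [Nat.squarefree_mul hxy]
    exact ⟨hs.squarefree_of_dvd hxd, hs'.squarefree_of_dvd hyd⟩
  · have h1 : (x * y * g ^ 2) % 4 = 1 := by
      rw [← hmul, Nat.mul_mod, h4, h4']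
    have h2 : g % 4 = 1 ∨ g % 4 = 3 := by
      have h3 : g % 2 = 1 := by
        rcases Nat.mod_two_eq_zero_or_one g with h | h
        · exfalso
          have h5 : 2 ∣ d := (Nat.dvd_of_mod_eq_zero h).trans hgd
          omega
        · exact h
      omega
    have h3 : g ^ 2 % 4 = 1 := by
      rcases h2 with h | h
      · rw [Nat.pow_mod, h]
      · rw [Nat.pow_mod, h]
    rw [Nat.mul_mod, h3, mul_one, Nat.mod_mod] at h1
    exact h1
  · intro l hl h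
    rcases (Nat.Prime.dvd_mul hl).1 h with h | h
    · exact hp l hl (h.trans hxd)
    · exact hp' l hl (h.trans hyd)
  · intro q hqQ
    have hqp : q.Prime := hqQ.1.1
    have hqg : ¬ (q : ℤ) ∣ ((g : ℕ) : ℤ) ^ 2 := by
      intro h
      have h1 : (q : ℤ) ∣ (g : ℤ) := (Nat.prime_iff_prime_int.1 hqp).dvd_of_dvd_pow h
      have h2 : q ∣ d := (Int.natCast_dvd_natCast.1 h1).trans hgd
      exact (hp q hqp h2).2.2.1 hqQ.1.2
    have h1 : SqMod q ((d : ℤ) * (d' : ℤ)) := Tc_sq (hq q hqQ) (hq' q hqQ)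
    have h2 : ((d : ℤ) * (d' : ℤ)) = ((x * y : ℕ) : ℤ) * ((g : ℕ) : ℤ) ^ 2 := by
      exact_mod_cast hmul
    rw [h2] at h1
    exact sq_mul8' hqp hqg h1 ⟨g, by simp⟩

theorem ds8_inf (hD : Dat8 K B QK E0 a β Qa Qb) (hA : Adm8 K QK E0) {n : ℤ} (hn : n ≠ 0) :
    (Ds8 K a β Qa Qb n).Infinite := by
  have hfin : {l : ℕ | l ∣ n.natAbs}.Finite :=
    (Finset.finite_toSet n.natAbs.divisors).subset (by
      intro l hl
      simp only [Finset.mem_coe, Nat.mem_divisors]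
      exact ⟨hl, Int.natAbs_ne_zero.2 hn⟩)
  refine ((exists_l8 hD hA 0).diff hfin).mono ?_
  rintro l ⟨⟨ht, h4, hnd, hb, hb', hq⟩, hln⟩
  have hlp : l.Prime := ht.1
  refine ⟨hlp.prime.squarefree, h4, ?_, ?_⟩
  · intro l' hl' h
    have h1 : l' = l := (Nat.prime_dvd_prime_iff_eq hl' hlp).1 h
    rw [h1]
    refine ⟨tot_nice ht, ?_, ?_, hb, hb'⟩
    · intro h2
      exact hln (Int.natCast_dvd.1 h2)
    · intro h2
      exact hnd (dvd_mul_of_dvd_right h2 _)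
  · intro q hqQ
    exact (hq q hqQ).2 rfl

theorem tw8_mul (hD : Dat8 K B QK E0 a β Qa Qb) {n : ℤ} (hn : Tw8 K B a β Qa Qb Pp Pp' n) {d : ℕ}
    (hd : d ∈ Ds8 K a β Qa Qb n) : Tw8 K B a β Qa Qb Pp Pp' (n * d) := by
  obtain ⟨hs, h4, hp, hq⟩ := hd
  have hQd : ∀ q ∈ Q0 a β Qa Qb, ¬ (q : ℤ) ∣ (d : ℤ) := by
    intro q hqQ h
    exact (hp q hqQ.1.1 (Int.natCast_dvd_natCast.1 h)).2.2.1 hqQ.1.2
  refine ⟨?_, ?_, ?_, ?_, ?_, ?_, ?_⟩
  · rw [← Int.squarefree_natAbs, Int.natAbs_mul, Int.natAbs_natCast, Nat.squarefree_mul]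
    · exact ⟨Int.squarefree_natAbs.2 hn.sqf, hs⟩
    · refine Nat.coprime_of_dvd ?_
      intro l hl h1 h2
      exact (hp l hl h2).2.1 (Int.natCast_dvd.2 h1)
  · have h1 : (d : ℤ) % 4 = 1 := by omega
    rw [Int.mul_emod, hn.n4, h1]
    rfl
  · intro q hqq h
    have hqp : q.Prime ∧ (q : ℤ) ∣ β * (a ^ 2 - 64 * β) := by
      rw [Finset.mem_union] at hqq
      rcases hqq with h1 | h1
      · exact ⟨(hD.pa q h1).1, dvd_mul_of_dvd_right (hD.pa q h1).2 _⟩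
      · exact ⟨(hD.pb q h1).1, dvd_mul_of_dvd_left (hD.pb q h1).2 _⟩
    rcases (Nat.prime_iff_prime_int.1 hqp.1).dvd_mul.1 h with h1 | h1
    · exact hn.pre q hqq h1
    · exact (hp q hqp.1 (Int.natCast_dvd_natCast.1 h1)).2.2.1 hqp.2
  · intro p hpp
    exact dvd_mul_of_dvd_left (hn.mem p hpp) _
  · intro q hqQ hqb
    obtain ⟨u, b', h1, h2, h3, h5⟩ := hn.zb q hqQ hqb
    have hqp := Nat.prime_iff_prime_int.1 hqQ.1.1
    refine ⟨u * d, b', by rw [h1]; ring, h2, ?_, ?_⟩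
    · intro h
      have h6 : u * (d : ℤ) * b' = (u * b') * d := by ring
      rw [h6] at h
      rcases hqp.dvd_mul.1 h with h7 | h7
      · exact h3 h7
      · exact hQd q hqQ h7
    · have h6 : -(a * (u * (d : ℤ)) * b') = -(a * u * b') * d := by ring
      rw [h6]
      exact Tc_sq h5 (hq q hqQ)
  · intro q hqQ hqb
    obtain ⟨u, b', h1, h2, h3, h5⟩ := hn.zd q hqQ hqb
    have hqp := Nat.prime_iff_prime_int.1 hqQ.1.1
    refine ⟨u * d, b', by rw [h1]; ring, h2, ?_, ?_⟩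
    · intro h
      have h6 : u * (d : ℤ) * b' = (u * b') * d := by ring
      rw [h6] at h
      rcases hqp.dvd_mul.1 h with h7 | h7
      · exact h3 h7
      · exact hQd q hqQ h7
    · have h6 : 2 * a * (u * (d : ℤ)) * b' = (2 * a * u * b') * d := by ring
      rw [h6]
      exact Tc_sq h5 (hq q hqQ)
  · intro p hpp h hnb
    rcases (Nat.prime_iff_prime_int.1 hpp).dvd_mul.1 h with h1 | h1
    · exact hn.neu p hpp h1 hnb
    · have h2 := hp p hpp (Int.natCast_dvd_natCast.1 h1)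
      exact ⟨h2.1, fun _ _ => h2.2.2.2⟩

end H88D8
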