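import Pool.Agent.H88.D8.Tb
import Pool.Agent.H88.D8.Tc
import Pool.Agent.H88.D8.Cf
import Pool.Agent.H88.T7.Fn

/-!
Assembly of the project MP_78d38b_T8 (helper88).
-/

set_option autoImplicit false
set_option linter.unusedSectionVars false
open scoped Classical

open WithZero NumberField IsDedekindDomain H38RT H88T7 H88T8
open H38T1 (SC sc rep eo la si Pri tp OddP LD XX XX' NS ov rp SqMod)

namespace H88D8

variable {K : Type} [Field K] [NumberField K] {B : Finset ℕ} {QK : AddSubgroup (SC ℚ)}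
  {E0 : Set (SC K)} {a β : ℤ} {Qa Qb Pp Pp' : Finset ℕ}

theorem good_of8 (hD : Dat8 K B QK E0 a β Qa Qb) (hA : Adm8 K QK E0) (hS : St8 K B a β Pp Pp')
    (hX : XX (L8 K a β Qa Qb Pp Pp') ⊆ {0, sc (β : K)})
    (hX' : XX' (L8 K a β Qa Qb Pp Pp') ⊆ {0, sc ((a ^ 2 - 64 * β : ℤ) : K)}) :
    ∃ (n : ℤ) (D : Set ℕ), GoodT K a (16 * β) n D := by
  obtain ⟨n, hn⟩ := exists_n8 hD hA hS
  exact ⟨n, Ds8 K a β Qa Qb n, hn.sqf, ds8_one, fun d hd => hd.1, fun d hd d' hd' => ds8_mul hd hd',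
    ds8_inf hD hA hn.sqf.ne_zero, fun d hd => both8 hD hS (tw8_mul hD hn hd) hX hX'⟩

end H88D8
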