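import Pool.Agent.H88.D8.Ah
import Pool.Agent.H88.T7.Ma

/-!
ROW Ma (project MP_78d38b_T8, about 200 lines): adding a totally split prime to a state. Modification of the proved file
`Pool/Agent/H88/T7/Ma.lean`.

PROOF. `L8 K a β Qa Qb Pp Pp'` has `P = ov K (Qa ∪ Pp)`, `P' = ov K (Qb ∪ Pp')`, `Sg` and `g` independent of `Pp`, `Pp'`. Everything as in `H88/T7/Ma.lean`;
`(ov K {p}).ncard = finrank` by `tot_card`. exists_new8: remove the finitely many primes in `B`, `Pp`, `Pp'`, dividing `2 β (1 - 64 β)`, `≤ N₀`.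
-/

set_option autoImplicit false
set_option linter.unusedSectionVars false
open scoped Classical

open WithZero NumberField IsDedekindDomain H38RT H88T7 H88T8
open H38T1 (SC sc rep eo la si Pri tp OddP LD XX XX' NS ov rp SqMod)

namespace H88D8

variable {K : Type} [Field K] [NumberField K] {B : Finset ℕ} {QK : AddSubgroup (SC ℚ)}
  {E0 : Set (SC K)} {a β : ℤ} {Qa Qb Pp Pp' : Finset ℕ} {p : ℕ}

/-- The prime `p` may be added to the state. -/
structure New8 (K : Type) [Field K] [NumberField K] (B : Finset ℕ) (a β : ℤ) (Pp Pp' : Finset ℕ)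
    (p : ℕ) : Prop where
  tot : Tot K p
  nB : p ∉ B
  nd : ¬ (p : ℤ) ∣ 2 * (β * (a ^ 2 - 64 * β))
  new : p ∉ Pp ∪ Pp'

private lemma Ma8_ov (S : Set ℕ) (T : Finset ℕ) (p : ℕ) :
    ov K (S ∪ ((insert p T : Finset ℕ) : Set ℕ)) = ov K (S ∪ (T : Set ℕ)) ∪ ov K {p} := by
  ext v
  simp only [ov, Set.mem_setOf_eq, Set.mem_union, Finset.coe_insert, Set.mem_insert_iff,
    Set.mem_singleton_iff]
  constructor
  · rintro ⟨q, hq, hv⟩
    rcases hq with h | h | h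
    · exact Or.inl ⟨q, Or.inl h, hv⟩
    · exact Or.inr ⟨q, h, hv⟩
    · exact Or.inl ⟨q, Or.inr h, hv⟩
  · rintro (⟨q, hq, hv⟩ | ⟨q, hq, hv⟩)
    · rcases hq with h | h
      · exact ⟨q, Or.inl h, hv⟩
      · exact ⟨q, Or.inr (Or.inr h), hv⟩
    · exact ⟨q, Or.inr (Or.inl hq), hv⟩

private lemma Ma8_mem1 (hpp : p.Prime) (v : HeightOneSpectrum (𝓞 K)) :
    v ∈ ov K {p} ↔ rp v = p := by
  rw [H38T1.mem_ov (by
    intro q hq
    rw [Set.mem_singleton_iff.1 hq]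
    exact hpp), Set.mem_singleton_iff]

/-- the class of an integer prime to `p` at the places above the totally split prime `p` -/
private lemma Ma8_sq (hn : Tot K p) {m : ℤ} (hm : ¬ (p : ℤ) ∣ m) :
    ∃ v ∈ ov K {p}, (la v (res K (sc (m : ℚ))) = 0 ↔ SqMod p m) := by
  obtain ⟨v, hv⟩ := H38T1.exists_above (K := K) hn.1
  have h1 : rp v = p := (H38T1.mem_iff_eq hn.1).1 hv
  have hm0 : m ≠ 0 := by
    rintro rfl
    exact hm (dvd_zero _)
  refine ⟨v, (Ma8_mem1 hn.1 v).2 h1, ?_⟩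
  have hodd : Odd (v.asIdeal.inertiaDeg ℤ) := by
    rw [(hn.2.2 v hv).2]
    exact odd_one
  have h2 := la_int7 (v := v) hodd (by rw [h1]; exact hn.2.1) (m := m) (by rw [h1]; exact hm)
  rw [res_int hm0, h2, h1]

theorem P_ins8 : (L8 K a β Qa Qb (insert p Pp) Pp').P = (L8 K a β Qa Qb Pp Pp').P ∪ ov K {p} ∧
    (L8 K a β Qa Qb (insert p Pp) Pp').P' = (L8 K a β Qa Qb Pp Pp').P' :=
  ⟨Ma8_ov _ _ _, rfl⟩

theorem P'_ins8 : (L8 K a β Qa Qb Pp (insert p Pp')).P' = (L8 K a β Qa Qb Pp Pp').P' ∪ ov K {p} ∧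
    (L8 K a β Qa Qb Pp (insert p Pp')).P = (L8 K a β Qa Qb Pp Pp').P :=
  ⟨Ma8_ov _ _ _, rfl⟩

theorem XX_insP8 : XX (L8 K a β Qa Qb (insert p Pp) Pp') =
    {c | c ∈ XX (L8 K a β Qa Qb Pp Pp') ∧ ∀ v ∈ ov K {p}, la v c = 0} := by
  ext c
  constructor
  · rintro ⟨h1, h2, h3, h4⟩
    rw [P_ins8.1] at h3
    exact ⟨⟨h1, h2, fun v hv => h3 v (Or.inl hv), h4⟩, fun v hv => h3 v (Or.inr hv)⟩
  · rintro ⟨⟨h1, h2, h3, h4⟩, h5⟩
    refine ⟨h1, h2, ?_, h4⟩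
    rw [P_ins8.1]
    rintro v (hv | hv)
    · exact h3 v hv
    · exact h5 v hv

theorem XX'_insP8' : XX' (L8 K a β Qa Qb Pp (insert p Pp')) =
    {c | c ∈ XX' (L8 K a β Qa Qb Pp Pp') ∧ ∀ v ∈ ov K {p}, la v c = 0} := by
  ext c
  constructor
  · rintro ⟨h1, h2, h3, h4, h5⟩
    rw [P'_ins8.1] at h4
    exact ⟨⟨h1, h2, h3, fun v hv => h4 v (Or.inl hv), h5⟩, fun v hv => h4 v (Or.inr hv)⟩
  · rintro ⟨⟨h1, h2, h3, h4, h5⟩, h6⟩
    refine ⟨h1, h2, h3, ?_, h5⟩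
    rw [P'_ins8.1]
    rintro v (hv | hv)
    · exact h4 v hv
    · exact h6 v hv

theorem PP_insP8 : PP8 K a β Qa Qb Pp Pp' ⊆ PP8 K a β Qa Qb (insert p Pp) Pp' := by
  rintro v ((h | h) | h)
  · exact Or.inl (Or.inl h)
  · refine Or.inl (Or.inr ?_)
    rw [P_ins8.1]
    exact Or.inl h
  · exact Or.inr h

theorem PP_insP8' : PP8 K a β Qa Qb Pp Pp' ⊆ PP8 K a β Qa Qb Pp (insert p Pp') := by
  rintro v ((h | h) | h)
  · exact Or.inl (Or.inl h)
  · exact Or.inl (Or.inr h)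
  · refine Or.inr ?_
    rw [P'_ins8.1]
    exact Or.inl h

theorem st_insP8 (hS : St8 K B a β Pp Pp') (hp : New8 K B a β Pp Pp' p)
    (hb : ∀ v ∈ ov K {p}, la v (res K (sc (β : ℚ))) = 0)
    (hd : ∀ v ∈ ov K {p}, la v (res K (sc ((a ^ 2 - 64 * β : ℤ) : ℚ))) = 1) (hβ : β ≠ 0) :
    St8 K B a β (insert p Pp) Pp' := by
  have hb' : ¬ (p : ℤ) ∣ β := fun h => hp.nd (dvd_mul_of_dvd_right (dvd_mul_of_dvd_left h _) _)
  have hd' : ¬ (p : ℤ) ∣ (a ^ 2 - 64 * β) :=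
    fun h => hp.nd (dvd_mul_of_dvd_right (dvd_mul_of_dvd_right h _) _)
  have hn := hp.new
  rw [Finset.mem_union, not_or] at hn
  refine ⟨?_, ?_, ?_, ?_, ?_, hS.sq'⟩
  · rw [Finset.disjoint_insert_left]
    exact ⟨hn.2, hS.dj⟩
  · intro q hq
    rw [Finset.insert_union, Finset.mem_insert] at hq
    rcases hq with rfl | hq
    · exact hp.tot
    · exact hS.tot q hq
  · intro q hq
    rw [Finset.insert_union, Finset.mem_insert] at hq
    rcases hq with rfl | hq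
    · exact hp.nd
    · exact hS.ndvd q hq
  · intro q hq
    rw [Finset.insert_union, Finset.mem_insert] at hq
    rcases hq with rfl | hq
    · exact hp.nB
    · exact hS.nB q hq
  · intro q hq
    rw [Finset.mem_insert] at hq
    rcases hq with rfl | hq
    · obtain ⟨v, hv, h1⟩ := Ma8_sq hp.tot hb'
      obtain ⟨w, hw, h2⟩ := Ma8_sq hp.tot hd'
      refine ⟨h1.1 (hb v hv), fun h => ?_⟩
      have h3 := h2.2 h
      rw [hd w hw] at h3
      exact one_ne_zero h3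
    · exact hS.sq q hq

theorem st_insP8' (hS : St8 K B a β Pp Pp') (hp : New8 K B a β Pp Pp' p)
    (hb : ∀ v ∈ ov K {p}, la v (res K (sc (β : ℚ))) = 1)
    (hd : ∀ v ∈ ov K {p}, la v (res K (sc ((a ^ 2 - 64 * β : ℤ) : ℚ))) = 0) (hβ : β ≠ 0) :
    St8 K B a β Pp (insert p Pp') := by
  have hb' : ¬ (p : ℤ) ∣ β := fun h => hp.nd (dvd_mul_of_dvd_right (dvd_mul_of_dvd_left h _) _)
  have hd' : ¬ (p : ℤ) ∣ (a ^ 2 - 64 * β) :=
    fun h => hp.nd (dvd_mul_of_dvd_right (dvd_mul_of_dvd_right h _) _)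
  have hn := hp.new
  rw [Finset.mem_union, not_or] at hn
  refine ⟨?_, ?_, ?_, ?_, hS.sq, ?_⟩
  · rw [Finset.disjoint_insert_right]
    exact ⟨hn.1, hS.dj⟩
  · intro q hq
    rw [Finset.union_insert, Finset.mem_insert] at hq
    rcases hq with rfl | hq
    · exact hp.tot
    · exact hS.tot q hq
  · intro q hq
    rw [Finset.union_insert, Finset.mem_insert] at hq
    rcases hq with rfl | hq
    · exact hp.nd
    · exact hS.ndvd q hq
  · intro q hq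
    rw [Finset.union_insert, Finset.mem_insert] at hq
    rcases hq with rfl | hq
    · exact hp.nB
    · exact hS.nB q hq
  · intro q hq
    rw [Finset.mem_insert] at hq
    rcases hq with rfl | hq
    · obtain ⟨v, hv, h1⟩ := Ma8_sq hp.tot hb'
      obtain ⟨w, hw, h2⟩ := Ma8_sq hp.tot hd'
      refine ⟨fun h => ?_, h2.1 (hd w hw)⟩
      have h3 := h1.2 h
      rw [hb v hv] at h3
      exact one_ne_zero h3
    · exact hS.sq' q hq

theorem exists_new8 (hβ : β ≠ 0) (hd : a ^ 2 - 64 * β ≠ 0) {T : Set ℕ} (hT : T.Infinite) (hn : ∀ p ∈ T, Tot K p)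
    (N₀ : ℕ) : ∃ p ∈ T, New8 K B a β Pp Pp' p ∧ N₀ < p := by
  have hne : (2 * (β * (a ^ 2 - 64 * β)) : ℤ) ≠ 0 := by
    exact mul_ne_zero two_ne_zero (mul_ne_zero hβ hd)
  obtain ⟨p, hpT, hp⟩ := hT.exists_notMem_finset (Finset.range (N₀ + 1) ∪ B ∪ (Pp ∪ Pp') ∪
    Finset.range ((2 * (β * (a ^ 2 - 64 * β)) : ℤ).natAbs + 1))
  simp only [Finset.mem_union, Finset.mem_range, not_or, not_lt] at hp
  obtain ⟨⟨⟨h1, h2⟩, h3⟩, h4⟩ := hp
  refine ⟨p, hpT, ⟨hn p hpT, h2, ?_, ?_⟩, by omega⟩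
  · intro h
    have h5 : p ∣ (2 * (β * (a ^ 2 - 64 * β)) : ℤ).natAbs := Int.natCast_dvd.1 h
    have h6 := Nat.le_of_dvd (Int.natAbs_pos.2 hne) h5
    omega
  · rw [Finset.mem_union, not_or]
    exact h3

end H88D8
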