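import Pool.Agent.H90.T8.Da
import Pool.Agent.H88.D8.Ma
import Pool.Agent.H88.D8.Ai
import Pool.Agent.H88.D8.Ag
import Pool.Agent.H88.D8.Ah
import Pool.Agent.H88.D8.Aa

/-!
ROW P1 (project MP_78d38b_T8, about 120 lines): phase 1 of the algorithm. Modification of the proved file `Pool/Agent/H88/T7/Md.lean`.

PROOF. `D = 1 - 64 β`. Strong induction on the cardinality of `XX' (L8 K a β Qa Qb ∅ Pp')` (finite: `fin8'`, row Ah). If `XX' ⊆ {0, sc D}` we are done. Otherwise let `c ∈ XX'`, `c ≠ 0`, `c ≠ sc D`;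
`r = nm K c ∈ XX' (L8 ℚ ..)` (`nm_X8'`), `res K r ∈ XX'` (`res_X8'`), `w = c - res K r ∈ XX'` (`sub8'`), `nm K w = 0` (`nm_res hD.odd`). We find a new prime `p` with `la v c = 1` for a place
`v ∈ ov K {p}` and `la v (res β) = 1`, `la v (res D) = 0` for all `v ∈ ov K {p}`:
* `w ≠ 0`: `w ∉ E0` (`exo_X8'`). `Ψ` as in `sepP8'_0` (`Ψ = 0` on `QK`, `Ψ β = 1`, `Ψ D = 0`), `hA.cE w` with `e = 1 + Ψ r`, `R = {sc β, sc D, r}`: for some `v ∈ ov K {p}`
 `la v c = la v w + la v (res r) = (1 + Ψ r) + Ψ r = 1` (`H38T1.la_add`; `v` is odd as `p ≠ 2`: `H38T1.oddP_iff`).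
* `w = 0`: `c = res K r`, `r ≠ 0`, `r ≠ sc D` (`res_int`): `Ψ` from `sepP8'` with `Ψ r = 1`; `hA.cR {sc β, sc D, r} Ψ`: `la v c = Ψ r = 1` for all places `v` above `p` (there is one).
Add `p` to `Pp'` (`exists_new8`, `st_insP8'`): `XX'` becomes smaller (`XX'_insP8'`), without `c`. `Set.ncard_lt_ncard`.
-/

set_option autoImplicit false
set_option linter.unusedSectionVars false
open scoped Classical

open WithZero NumberField IsDedekindDomain H38RT H88T7 H88T8 H90T8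
open H38T1 (SC sc scu scu_surj sc_mul sc_of_ne sc_surj rep rep_ne sc_rep sc_eq_zero eo la si Pri OddP
  LD XX XX' NS ov rp SqMod)

namespace H88D8

variable {K : Type} [Field K] [NumberField K] {B : Finset ℕ} {QK : AddSubgroup (SC ℚ)}
  {E0 : Set (SC K)} {a β : ℤ} {Qa Qb : Finset ℕ}

lemma P1_prime (hD : Dat8 K B QK E0 a β Qa Qb) (hA : AdmE K QK E0) {Pp' : Finset ℕ}
    (hS : St8 K B a β ∅ Pp') {c : SC K} (hc : c ∈ XX' (L8 K a β Qa Qb ∅ Pp')) (hc0 : c ≠ 0)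
    (hcd : c ≠ sc ((a ^ 2 - 64 * β : ℤ) : K)) :
    ∃ p, New8 K B a β ∅ Pp' p ∧ (∀ v ∈ ov K {p}, la v (res K (sc (β : ℚ))) = 1) ∧
      (∀ v ∈ ov K {p}, la v (res K (sc ((a ^ 2 - 64 * β : ℤ) : ℚ))) = 0) ∧
      ∃ v ∈ ov K {p}, la v c = 1 := by
  have hβ : β ≠ 0 := hD.pos.ne'
  have hD0 : (a ^ 2 - 64 * β : ℤ) ≠ 0 := by
    exact (Ah8_neg hD).ne
  have hr := nm_X8' hD hS hc
  by_cases hw : c - res K (nm K c) = 0
  · have hcr : c = res K (nm K c) := sub_eq_zero.1 hw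
    have hr0 : nm K c ≠ 0 := by
      intro h
      rw [h, map_zero] at hcr
      exact hc0 hcr
    have hrd : nm K c ≠ sc ((a ^ 2 - 64 * β : ℤ) : ℚ) := by
      intro h
      rw [h, res_int hD0] at hcr
      exact hcd hcr
    obtain ⟨Ψ, h1, h2, h3, h4⟩ := sepP8' hD hS hr hr0 hrd
    obtain ⟨p, hp, hnew, _⟩ := exists_new8 (B := B) (β := β) (Pp := ∅) (Pp' := Pp') hβ hD0
      (hA.cR {sc (β : ℚ), sc ((a ^ 2 - 64 * β : ℤ) : ℚ), nm K c} Ψ h1) (fun p hp => hp.1) 0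
    obtain ⟨hT, hR⟩ := hp
    obtain ⟨v, hv⟩ : (ov K {p}).Nonempty := by
      apply Set.nonempty_of_ncard_ne_zero
      rw [tot_card hT]
      intro h
      have h5 := hD.odd
      rw [h] at h5
      exact absurd h5 (by decide)
    refine ⟨p, hnew, ?_, ?_, v, hv, ?_⟩
    · intro u hu
      rw [hR _ (by simp) u hu, h2]
    · intro u hu
      rw [hR _ (by simp) u hu, h3]
    · rw [hcr, hR _ (by simp) v hv, h4]
  · obtain ⟨Ψ, h1, h2, h3⟩ := sepP8'_0 hD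
    have hnw : nm K (c - res K (nm K c)) = 0 := by
      rw [map_sub, nm_res hD.odd, sub_self]
    have hmem : c - res K (nm K c) ∈ XX' (L8 K a β Qa Qb ∅ Pp') := by
      obtain ⟨H, hH⟩ := sub8' hD hS
      have h5 : c ∈ (H : Set (SC K)) := by rw [hH]; exact hc
      have h6 : res K (nm K c) ∈ (H : Set (SC K)) := by rw [hH]; exact res_X8' hD hS hr
      rw [← hH]
      exact H.sub_mem h5 h6
    have hE : c - res K (nm K c) ∉ E0 := fun h => hw (exo_X8' hD hmem h)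
    obtain ⟨p, hp, hnew, _⟩ := exists_new8 (B := B) (β := β) (Pp := ∅) (Pp' := Pp') hβ hD0
      (hA.cE (c - res K (nm K c)) hnw hE (1 + Ψ (nm K c))
        {sc (β : ℚ), sc ((a ^ 2 - 64 * β : ℤ) : ℚ), nm K c} Ψ h1) (fun p hp => hp.1) 0
    obtain ⟨hT, hR, v₁, hv₁, hZ⟩ := hp
    have hodd : OddP v₁ := by
      rw [H38T1.oddP_iff]
      have h5 : rp v₁ ∈ ({p} : Set ℕ) := by
        rw [← H38T1.mem_ov (K := K)]
        · exact hv₁
        · intro q hq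
          rw [Set.mem_singleton_iff] at hq
          rw [hq]
          exact hT.1
      rw [Set.mem_singleton_iff] at h5
      rw [h5]
      exact hT.2.1
    refine ⟨p, hnew, fun u hu => ?_, fun u hu => ?_, v₁, hv₁, ?_⟩
    · rw [hR _ (by simp) u hu, h2]
    · rw [hR _ (by simp) u hu, h3]
    · have h7 : la v₁ c = la v₁ (c - res K (nm K c)) + la v₁ (res K (nm K c)) := by
        rw [← H38T1.la_add hodd, sub_add_cancel]
      rw [h7, hZ, hR _ (by simp) v₁ hv₁, add_assoc, CharTwo.add_self_eq_zero, add_zero]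

theorem phase1 (hD : Dat8 K B QK E0 a β Qa Qb) (hA : AdmE K QK E0) {Pp' : Finset ℕ}
    (hS : St8 K B a β ∅ Pp') : ∃ Qp' : Finset ℕ, Pp' ⊆ Qp' ∧ St8 K B a β ∅ Qp' ∧
      XX' (L8 K a β Qa Qb ∅ Qp') ⊆ {0, sc ((a ^ 2 - 64 * β : ℤ) : K)} := by
  suffices H : ∀ n : ℕ, ∀ Pp' : Finset ℕ, St8 K B a β ∅ Pp' →
      (XX' (L8 K a β Qa Qb ∅ Pp')).ncard = n → ∃ Qp' : Finset ℕ, Pp' ⊆ Qp' ∧ St8 K B a β ∅ Qp' ∧
      XX' (L8 K a β Qa Qb ∅ Qp') ⊆ {0, sc ((a ^ 2 - 64 * β : ℤ) : K)} from H _ Pp' hS rfl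
  intro n
  induction n using Nat.strong_induction_on with
  | _ n ih =>
    intro Pp' hS hn
    by_cases hsub : XX' (L8 K a β Qa Qb ∅ Pp') ⊆ {0, sc ((a ^ 2 - 64 * β : ℤ) : K)}
    · exact ⟨Pp', Finset.Subset.refl _, hS, hsub⟩
    · obtain ⟨c, hc, hc2⟩ := Set.not_subset.1 hsub
      rw [Set.mem_insert_iff, Set.mem_singleton_iff, not_or] at hc2
      obtain ⟨p, hnew, hb, hd, v, hv, hvc⟩ := P1_prime hD hA hS hc hc2.1 hc2.2
      have hSt := st_insP8' hS hnew hb hd hD.pos.ne'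
      have hlt : (XX' (L8 K a β Qa Qb ∅ (insert p Pp'))).ncard < n := by
        rw [← hn]
        refine Set.ncard_lt_ncard ?_ (fin8' hD hS)
        rw [XX'_insP8']
        refine ⟨fun x hx => hx.1, fun h => ?_⟩
        have h1 := (h hc).2 v hv
        rw [hvc] at h1
        exact one_ne_zero h1
      obtain ⟨Q, hQ1, hQ2, hQ3⟩ := ih _ hlt (insert p Pp') hSt rfl
      exact ⟨Q, (Finset.subset_insert _ _).trans hQ1, hQ2, hQ3⟩

end H88D8
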