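import Pool.Agent.H90.T8.Da
import Pool.Agent.H88.D8.Ma
import Pool.Agent.H88.D8.Mb
import Pool.Agent.H88.D8.Ag
import Pool.Agent.H88.D8.Ah
import Pool.Agent.H88.D8.Aa

/-!
ROW P2 (project MP_78d38b_T8, about 130 lines): numbers and the index in phase 2.

PROOF. num2: `N = finrank ℚ K`, `P = Pp.card`, `P' = Pp'.card`. `card_X8'`: `XX'(K)` has two elements; `numK`: `2 * 2^(N P') = |XX(K)| 2^(N P)`. Over `ℚ` (`rat_X8'`, `dat8_rat`, `st8_rat`; `finrank ℚ ℚ = 1`):
`XX'(ℚ)` has two elements (`card_X8'` for `K := ℚ`; the cast of `1 - 64 β`), `numQ`: `2 * 2^P' = |XX(ℚ)| 2^P`. `pow8`: `|XX(ℚ)| = 2^x`, `|XW8| = 2^w`, `split8`: `|XX(K)| = 2^(x + w)`. Comparing exponents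
(`Nat.pow_right_injective`): `1 + N P' = x + w + N P`, `1 + P' = x + P`, `1 ≤ x` (`two_le8`). So `P ≤ P'`, `x = 1 + m`, `w = (N - 1) m` with `m = P' - P`. If `m = 0`: `|XX(K)| = 2`; but `0, sc β ∈ XX(K)`
(`sub8`, `beta_mem8`) are different (`ne8`, row Ah), so `XX(K) = {0, sc β}` (`Set.eq_of_subset_of_ncard_le`), contradicting `hX`. So `m ≥ 1`.
idx2: `XX(K)` is a finite subgroup `H` (`sub8`, `fin8`). `φ : H → (ov K {p} → ZMod 2)`, `x ↦ (v ↦ la v x)`, is additive (`H38T1.la_add`; `v` is odd as `p ≠ 2`: `H38T1.oddP_iff`, `H38T1.mem_iff_eq`). It is onto: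
given `f` (extended by zero), if `∑ f = 0` use `h1` (`XW8 ⊆ XX`); if `∑ f = 1`, then `f + 1` has sum `1 + N = 0` (`tot_card`; `N` odd: `hD.odd`), so there is `x` with `la v x = f v + 1`, and `φ (x + c) = f`.
(`∑ᶠ v ∈ ov K {p}` is a finite sum: `ov K {p}` is finite, `H38T1.fin_ov`; `finsum_mem_eq_finite_toFinset_sum`.) So `|H| = |ker φ| * |ov K {p} → ZMod 2| = |ker φ| * 2^N`
(`AddSubgroup.card_eq_card_quotient_mul_card_addSubgroup`, `QuotientAddGroup.quotientKerEquivOfSurjective`), and the set in the statement is the image of `ker φ`.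
-/

set_option autoImplicit false
set_option linter.unusedSectionVars false
open scoped Classical

open WithZero NumberField IsDedekindDomain H38RT H88T7 H88T8 H90T8
open H38T1 (SC sc scu scu_surj sc_mul sc_of_ne sc_surj rep rep_ne sc_rep sc_eq_zero eo la si Pri OddP
  LD XX XX' NS ov rp SqMod)

namespace H88D8

variable {K : Type} [Field K] [NumberField K] {B : Finset ℕ} {QK : AddSubgroup (SC ℚ)}
  {E0 : Set (SC K)} {a β : ℤ} {Qa Qb Pp Pp' : Finset ℕ}

private lemma P2_num {N P P' x w : ℕ} (hN : 1 ≤ N) (hx : 1 ≤ x)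
    (e1 : 1 + N * P' = x + w + N * P) (e2 : 1 + P' = x + P) (h : ¬ (x = 1 ∧ w = 0)) :
    2 ≤ x ∧ N - 1 ≤ w := by
  obtain ⟨m, rfl⟩ : ∃ m, x = 1 + m := ⟨x - 1, by omega⟩
  obtain ⟨n, rfl⟩ : ∃ n, N = n + 1 := ⟨N - 1, by omega⟩
  have e3 : P' = m + P := by omega
  subst e3
  have e4 : n * m = w := by
    have e5 : 1 + (n + 1) * (m + P) = 1 + m + n * m + (n + 1) * P := by ring
    rw [e5] at e1
    omega
  rcases Nat.eq_zero_or_pos m with h0 | h0
  · exfalso
    apply h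
    subst h0
    exact ⟨rfl, by rw [← e4, mul_zero]⟩
  · refine ⟨by omega, ?_⟩
    rw [← e4, Nat.add_sub_cancel]
    exact Nat.le_mul_of_pos_right n h0

theorem num2 (hD : Dat8 K B QK E0 a β Qa Qb) (hS : St8 K B a β Pp Pp')
    (hN : NS (PP8 K a β Qa Qb Pp Pp') ⊆ {(0 : SC K)})
    (h : XX' (L8 K a β Qa Qb Pp Pp') ⊆ {0, sc ((a ^ 2 - 64 * β : ℤ) : K)})
    (hX : ¬ XX (L8 K a β Qa Qb Pp Pp') ⊆ {0, sc (β : K)}) :
    4 ≤ (XX (L8 ℚ a β Qa Qb Pp Pp')).ncard ∧
      2 ^ (Module.finrank ℚ K - 1) ≤ (XW8 K a β Qa Qb Pp Pp').ncard := by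
  obtain ⟨⟨x, hx⟩, w, hw⟩ := pow8 hD hS
  have hNpos : 1 ≤ Module.finrank ℚ K := Module.finrank_pos
  have e1 := numK hD hS hN
  rw [card_X8' hD hS h, split8 hD hS, hx, hw] at e1
  have e2 := numQ hD hS
  rw [card_X8' (dat8_rat hD) (st8_rat hS) (rat_X8' hD hS h), hx] at e2
  have e3 := two_le8 hD hS
  rw [hx] at e3
  have hx1 : 1 ≤ x := by
    rcases Nat.eq_zero_or_pos x with h0 | h0
    · rw [h0, pow_zero] at e3
      omega
    · exact h0
  have e1' : 1 + Module.finrank ℚ K * Pp'.card = x + w + Module.finrank ℚ K * Pp.card := by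
    apply Nat.pow_right_injective (le_refl 2)
    show 2 ^ (1 + Module.finrank ℚ K * Pp'.card) = 2 ^ (x + w + Module.finrank ℚ K * Pp.card)
    rw [pow_add, pow_add, pow_add, pow_one]
    exact e1
  have e2' : 1 + Pp'.card = x + Pp.card := by
    apply Nat.pow_right_injective (le_refl 2)
    show 2 ^ (1 + Pp'.card) = 2 ^ (x + Pp.card)
    rw [pow_add, pow_add, pow_one]
    exact e2
  have hne : ¬ (x = 1 ∧ w = 0) := by
    rintro ⟨hx0, hw0⟩
    apply hX
    have hc : (XX (L8 K a β Qa Qb Pp Pp')).ncard = 2 := by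
      rw [split8 hD hS, hx, hw, hx0, hw0]
      rfl
    obtain ⟨H, hH⟩ := sub8 hD hS
    have h0 : (0 : SC K) ∈ XX (L8 K a β Qa Qb Pp Pp') := by
      rw [← hH]
      exact H.zero_mem
    have hs : ({(0 : SC K), sc (β : K)} : Set (SC K)) ⊆ XX (L8 K a β Qa Qb Pp Pp') := by
      rintro y (rfl | hy)
      · exact h0
      · rw [Set.mem_singleton_iff] at hy
        rw [hy]
        exact beta_mem8 hD hS
    have h1 := Set.eq_of_subset_of_ncard_le hs
      (by rw [hc, Set.ncard_pair (ne8 hD).1.symm]) (fin8 hD hS)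
    rw [← h1]
  obtain ⟨h2, h3⟩ := P2_num hNpos hx1 e1' e2' hne
  refine ⟨?_, ?_⟩
  · rw [hx]
    calc 4 = 2 ^ 2 := by norm_num
      _ ≤ 2 ^ x := Nat.pow_le_pow_right (by norm_num) h2
  · rw [hw]
    exact Nat.pow_le_pow_right (by norm_num) h3

theorem idx2 (hD : Dat8 K B QK E0 a β Qa Qb) (hS : St8 K B a β Pp Pp') {p : ℕ} (hp : Tot K p)
    (h1 : ∀ f : HeightOneSpectrum (𝓞 K) → ZMod 2, ∑ᶠ v ∈ ov K {p}, f v = 0 →
      ∃ x ∈ XW8 K a β Qa Qb Pp Pp', ∀ v ∈ ov K {p}, la v x = f v)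
    {c : SC K} (hc : c ∈ XX (L8 K a β Qa Qb Pp Pp')) (hc1 : ∀ v ∈ ov K {p}, la v c = 1) :
    {c | c ∈ XX (L8 K a β Qa Qb Pp Pp') ∧ ∀ v ∈ ov K {p}, la v c = 0}.ncard *
      2 ^ Module.finrank ℚ K = (XX (L8 K a β Qa Qb Pp Pp')).ncard := by
  obtain ⟨H, hH⟩ := sub8 hD hS
  have hfp : (ov K {p}).Finite := H38T1.fin_ov (Set.finite_singleton p) (by
    intro q hq
    rw [Set.mem_singleton_iff.1 hq]
    exact hp.1)
  have hodd : ∀ v ∈ ov K {p}, OddP v := by
    rintro v ⟨q, hq, hv⟩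
    rw [Set.mem_singleton_iff] at hq
    subst hq
    rw [H38T1.oddP_iff, (H38T1.mem_iff_eq hp.1).1 hv]
    exact hp.2.1
  have hfi : Finite (ov K {p}) := hfp.to_subtype
  have : Fintype (ov K {p}) := Fintype.ofFinite _
  let φ : H →+ (ov K {p} → ZMod 2) :=
    AddMonoidHom.mk' (fun x v => la v.1 (x : SC K)) (by
      intro x y
      funext v
      exact H38T1.la_add (hodd v.1 v.2) _ _)
  have hφ : ∀ (x : H) (v : ov K {p}), φ x v = la v.1 (x : SC K) := fun _ _ => rfl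
  have hsurj : Function.Surjective φ := by
    intro f
    obtain ⟨F, hF⟩ : ∃ F : HeightOneSpectrum (𝓞 K) → ZMod 2, ∀ v : ov K {p}, F v.1 = f v := by
      refine ⟨fun v => if h : v ∈ ov K {p} then f ⟨v, h⟩ else 0, ?_⟩
      rintro ⟨v, hv⟩
      show (if h : v ∈ ov K {p} then f ⟨v, h⟩ else 0) = f ⟨v, hv⟩
      rw [dif_pos hv]
    have h01 : ∀ z : ZMod 2, z = 0 ∨ z = 1 := by decide
    rcases h01 (∑ᶠ v ∈ ov K {p}, F v) with h0 | h0
    · obtain ⟨x, hx, hx'⟩ := h1 F h0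
      have hxH : x ∈ H := by
        rw [← SetLike.mem_coe, hH]
        exact hx.1
      refine ⟨⟨x, hxH⟩, ?_⟩
      funext v
      rw [hφ]
      show la v.1 x = f v
      rw [hx' v.1 v.2, hF]
    · have h2 : ∑ᶠ v ∈ ov K {p}, (F v + 1) = 0 := by
        rw [finsum_mem_add_distrib hfp, h0, finsum_mem_eq_finite_toFinset_sum _ hfp,
          Finset.sum_const, nsmul_one, ← Set.ncard_eq_toFinset_card _ hfp, tot_card hp]
        obtain ⟨r, hr⟩ := hD.odd
        rw [hr]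
        have e : ((2 * r + 1 : ℕ) : ZMod 2) = 1 := by
          push_cast
          have : (2 : ZMod 2) = 0 := by decide
          rw [this, zero_mul, zero_add]
        rw [e]
        decide
      obtain ⟨x, hx, hx'⟩ := h1 (fun v => F v + 1) h2
      have hxH : x ∈ H := by
        rw [← SetLike.mem_coe, hH]
        exact hx.1
      have hcH : c ∈ H := by
        rw [← SetLike.mem_coe, hH]
        exact hc
      refine ⟨⟨x, hxH⟩ + ⟨c, hcH⟩, ?_⟩
      funext v
      rw [map_add, Pi.add_apply, hφ, hφ]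
      show la v.1 x + la v.1 c = f v
      rw [hx' v.1 v.2, hc1 v.1 v.2, hF]
      have : ∀ z : ZMod 2, z + 1 + 1 = z := by decide
      exact this _
  have hcard : Nat.card φ.ker * 2 ^ Module.finrank ℚ K = Nat.card H := by
    rw [← AddSubgroup.card_mul_index φ.ker, AddSubgroup.index_ker,
      AddMonoidHom.range_eq_top.2 hsurj]
    congr 1
    rw [Nat.card_congr (AddSubgroup.topEquiv (G := ov K {p} → ZMod 2)).toEquiv, Nat.card_fun,
      Nat.card_zmod, ← tot_card hp, Nat.card_coe_set_eq]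
  have hset : {c | c ∈ XX (L8 K a β Qa Qb Pp Pp') ∧ ∀ v ∈ ov K {p}, la v c = 0} =
      (fun x : H => (x : SC K)) '' (φ.ker : Set H) := by
    ext y
    constructor
    · rintro ⟨hy, hy'⟩
      have hyH : y ∈ H := by
        rw [← SetLike.mem_coe, hH]
        exact hy
      refine ⟨⟨y, hyH⟩, ?_, rfl⟩
      rw [SetLike.mem_coe, AddMonoidHom.mem_ker]
      funext v
      exact hy' v.1 v.2
    · rintro ⟨x, hx, rfl⟩
      rw [SetLike.mem_coe, AddMonoidHom.mem_ker] at hx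
      refine ⟨?_, ?_⟩
      · rw [← hH]
        exact x.2
      · intro v hv
        have h3 := congrFun hx ⟨v, hv⟩
        exact h3
  rw [hset, Set.ncard_image_of_injective _ Subtype.val_injective, ← Nat.card_coe_set_eq, ← hH,
    ← Nat.card_coe_set_eq]
  exact hcard

end H88D8
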