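import Pool.Agent.H88.D8.Sv

/-!
A set of pairs containing the good members of a progression contains a positive proportion of all
pairs (project MP_78d38b_D8, helper88).
-/

set_option autoImplicit false
open scoped Classical

namespace H88D8

theorem sw_bd {b m N s t : ℕ} (hb : 0 < b) (hm : 0 < m) (hs : s < N) (ht1 : m * N ^ 2 ≤ t)
    (ht2 : t < m * N ^ 2 + m * N ^ 2) : 0 < (b : ℤ) + m * t ∧
    (b : ℤ) + m * t ≤ ((b + 2 * m) * N) ^ 2 ∧ 0 < 1 + 4 * (m : ℤ) * s ∧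
    1 + 4 * (m : ℤ) * s ≤ 4 * m * N ∧ (1 + 4 * (m : ℤ) * s) ^ 2 < 64 * (b + m * t) := by
  have hm1 : (1 : ℤ) ≤ m := by exact_mod_cast hm
  have hb1 : (1 : ℤ) ≤ b := by exact_mod_cast hb
  have hN1 : 1 ≤ N := by omega
  have hN1' : (1 : ℤ) ≤ N := by exact_mod_cast hN1
  have hs' : (s : ℤ) + 1 ≤ N := by exact_mod_cast hs
  have hs0 : (0 : ℤ) ≤ s := Int.natCast_nonneg s
  have ht1' : (m : ℤ) * N ^ 2 ≤ t := by exact_mod_cast ht1
  have ht2' : (t : ℤ) ≤ 2 * (m * N ^ 2) := by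
    have : t ≤ 2 * (m * N ^ 2) := by omega
    exact_mod_cast this
  have hN2 : (1 : ℤ) ≤ (N : ℤ) ^ 2 := by nlinarith
  have hβ1 : 0 < (b : ℤ) + m * t := by positivity
  have hβ2 : (b : ℤ) + m * t ≤ ((b + 2 * m) * N) ^ 2 := by
    have h6 : (m : ℤ) * t ≤ m * (2 * (m * N ^ 2)) := mul_le_mul_of_nonneg_left ht2' (by omega)
    have h7 : (b : ℤ) ≤ b * N ^ 2 := by nlinarith
    have h8 : (b : ℤ) * N ^ 2 ≤ b ^ 2 * N ^ 2 := by nlinarith
    have h9 : (0 : ℤ) ≤ b * m * N ^ 2 := by positivity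
    have h10 : (0 : ℤ) ≤ m ^ 2 * N ^ 2 := by positivity
    have h11 : ((((b : ℤ) + 2 * m) * N) ^ 2) = b ^ 2 * N ^ 2 + 4 * (b * m * N ^ 2) + 4 * (m ^ 2 * N ^ 2) := by
      ring
    rw [h11]
    nlinarith
  have ha1 : 0 < 1 + 4 * (m : ℤ) * s := by positivity
  have ha2 : 1 + 4 * (m : ℤ) * s ≤ 4 * m * N := by nlinarith
  refine ⟨hβ1, hβ2, ha1, ha2, ?_⟩
  have h6 : (1 + 4 * (m : ℤ) * s) ^ 2 ≤ (4 * m * N) ^ 2 := by
    exact pow_le_pow_left₀ ha1.le ha2 2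
  have h7 : (m : ℤ) * (m * N ^ 2) ≤ m * t := mul_le_mul_of_nonneg_left ht1' (by omega)
  have h8 : (0 : ℤ) ≤ m * (m * N ^ 2) := by positivity
  nlinarith

theorem dens2 {b m : ℕ} (hb : 0 < b) (hm : 0 < m) (h2 : 2 ∣ m) (h3 : 3 ∣ m) (h5 : 5 ∣ m)
    (hM : ∀ q : ℕ, q.Prime → q ∣ m → ∀ s t : ℕ,
      ¬ (q : ℤ) * q ∣ ((b : ℤ) + m * t) * ((1 + 4 * (m : ℤ) * s) ^ 2 - 64 * (b + m * t)))
    {S : Set (ℤ × ℤ)}
    (hS : ∀ s t : ℕ, (1 + 4 * (m : ℤ) * s) ^ 2 < 64 * (b + m * t) →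
      Squarefree (((b : ℤ) + m * t) * ((1 + 4 * (m : ℤ) * s) ^ 2 - 64 * (b + m * t))) →
      (1 + 4 * (m : ℤ) * s, 16 * ((b : ℤ) + m * t)) ∈ S) :
    ∃ c : ℝ, 0 < c ∧ ∃ X₀ : ℝ, ∀ X : ℝ, X₀ ≤ X → c * X ^ 3 ≤
      ({p : ℤ × ℤ | |(p.1 : ℝ)| ≤ X ∧ |(p.2 : ℝ)| ≤ X ^ 2 ∧ p ∈ S}.ncard : ℝ) := by
  obtain ⟨N₀, hN₀⟩ := sieve2 hb hm h2 h3 h5 hM
  obtain ⟨k, hk⟩ : ∃ k : ℕ, k = 4 * (b + 3 * m) := ⟨_, rfl⟩
  have hk0 : 0 < k := by omega
  have hkr : (0 : ℝ) < k := by exact_mod_cast hk0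
  have hmr : (0 : ℝ) < m := by exact_mod_cast hm
  refine ⟨m / (32 * (k : ℝ) ^ 3), by positivity, k * (N₀ + 2), fun X hX => ?_⟩
  obtain ⟨N, hN⟩ : ∃ N : ℕ, N = ⌊X / k⌋₊ := ⟨_, rfl⟩
  have hXk : (N₀ : ℝ) + 2 ≤ X / k := by
    rw [le_div_iff₀ hkr]
    linarith
  have hN₀r : (0 : ℝ) ≤ N₀ := Nat.cast_nonneg _
  have hX0 : 0 ≤ X / k := by linarith
  have hXp : 0 < X := by
    have := (div_pos_iff_of_pos_right hkr).1 (by linarith : 0 < X / k)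
    exact this
  have hN1 : (N : ℝ) ≤ X / k := by
    rw [hN]
    exact Nat.floor_le hX0
  have hN2 : X / k - 1 < N := by
    rw [hN]
    have := Nat.lt_floor_add_one (X / k)
    linarith
  have hN3 : N₀ ≤ N := by
    have : (N₀ : ℝ) ≤ N := by linarith
    exact_mod_cast this
  have hkN : (k : ℝ) * N ≤ X := by
    rw [le_div_iff₀ hkr] at hN1
    linarith
  have h7 := hN₀ N hN3
  have h8 : m / (32 * (k : ℝ) ^ 3) * X ^ 3 ≤ (m : ℝ) * N ^ 3 / 4 := by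
    have e1 : X / k / 2 ≤ N := by linarith
    have e2 : (X / k / 2) ^ 3 ≤ (N : ℝ) ^ 3 := pow_le_pow_left₀ (by positivity) e1 3
    have e3 : m / (32 * (k : ℝ) ^ 3) * X ^ 3 = m * (X / k / 2) ^ 3 / 4 := by
      field_simp
      ring
    rw [e3]
    have := mul_le_mul_of_nonneg_left e2 hmr.le
    linarith
  refine (h8.trans h7).trans ?_
  rw [Nat.cast_le, ← Set.ncard_coe_finset]
  refine Set.ncard_le_ncard_of_injOn (fun p : ℕ × ℕ =>
    (1 + 4 * (m : ℤ) * p.1, 16 * ((b : ℤ) + m * p.2))) ?_ ?_ ?_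
  · rintro ⟨s, t⟩ hp
    rw [Finset.mem_coe, Finset.mem_filter, Finset.mem_product, Finset.mem_range, Finset.mem_Ico] at hp
    obtain ⟨⟨hs, ht1, ht2⟩, hsq⟩ := hp
    obtain ⟨b1, b2, b3, b4, b5⟩ := sw_bd hb hm hs ht1 ht2
    refine ⟨?_, ?_, hS s t b5 hsq⟩
    · have h9 : |1 + 4 * (m : ℤ) * s| ≤ k * N := by
        rw [abs_of_pos b3]
        refine b4.trans (mul_le_mul_of_nonneg_right ?_ (Int.natCast_nonneg N))
        rw [hk]
        push_cast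
        have := Int.natCast_nonneg b
        have := Int.natCast_nonneg m
        omega
      have h10 : |((1 + 4 * (m : ℤ) * s : ℤ) : ℝ)| ≤ (k : ℝ) * N := by exact_mod_cast h9
      exact h10.trans hkN
    · have h9 : |16 * ((b : ℤ) + m * t)| ≤ (k * N) ^ 2 := by
        rw [abs_of_pos (by linarith)]
        have h10 : (16 : ℤ) * ((b : ℤ) + m * t) ≤ (4 * ((b + 2 * m) * N)) ^ 2 := by
          have e : (4 * (((b : ℤ) + 2 * m) * N)) ^ 2 = 16 * ((b + 2 * m) * N) ^ 2 := by ring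
          rw [e]
          linarith
        refine h10.trans (pow_le_pow_left₀ (by positivity) ?_ 2)
        rw [hk]
        push_cast
        have h11 : (0 : ℤ) ≤ m * N := by positivity
        nlinarith
      have h10 : |((16 * ((b : ℤ) + m * t) : ℤ) : ℝ)| ≤ ((k : ℝ) * N) ^ 2 := by exact_mod_cast h9
      exact h10.trans (pow_le_pow_left₀ (by positivity) hkN 2)
  · rintro ⟨s, t⟩ _ ⟨s', t'⟩ _ h
    simp only [Prod.mk.injEq] at h
    obtain ⟨h9, h10⟩ := h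
    have hm' : (m : ℤ) ≠ 0 := by exact_mod_cast hm.ne'
    have e1 : (s : ℤ) = s' := by
      have := add_left_cancel h9
      exact mul_left_cancel₀ (mul_ne_zero (by norm_num) hm') this
    have e2 : (t : ℤ) = t' := by
      have := mul_left_cancel₀ (by norm_num : (16 : ℤ) ≠ 0) h10
      exact mul_left_cancel₀ hm' (add_left_cancel this)
    rw [Prod.mk.injEq]
    exact ⟨by exact_mod_cast e1, by exact_mod_cast e2⟩
  · refine ((Set.finite_Icc (-⌈X⌉) ⌈X⌉).prod (Set.finite_Icc (-⌈X ^ 2⌉) ⌈X ^ 2⌉)).subset ?_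
    rintro ⟨x, y⟩ ⟨hx, hy, -⟩
    rw [abs_le] at hx hy
    have h9 := Int.le_ceil X
    have h10 := Int.le_ceil (X ^ 2)
    simp only at hx hy
    refine ⟨⟨?_, ?_⟩, ?_, ?_⟩
    · have : ((-⌈X⌉ : ℤ) : ℝ) ≤ x := by push_cast; linarith
      exact_mod_cast this
    · have : (x : ℝ) ≤ ⌈X⌉ := by linarith
      exact_mod_cast this
    · have : ((-⌈X ^ 2⌉ : ℤ) : ℝ) ≤ y := by push_cast; linarith
      exact_mod_cast this
    · have : (y : ℝ) ≤ ⌈X ^ 2⌉ := by linarith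
      exact_mod_cast this

end H88D8
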