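import Pool.Agent.H88.D8.Fo
import Pool.Agent.H88.D8.P3
import Pool.Agent.H88.D8.Gc
import Pool.Agent.H88.D8.Sw
import Pool.Agent.H90.T8.Ad
import Pool.Agent.H88.T7.Gb

/-!
Assembly of the project MP_78d38b_D8 (helper88).
-/

set_option autoImplicit false
set_option linter.unusedSectionVars false
open scoped Classical

open WithZero NumberField IsDedekindDomain H38RT H88T7 H88T8 H90T8
open H38T1 (SC sc rep eo la si Pri tp OddP LD XX XX' NS ov rp SqMod)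

namespace H88D8

variable {K : Type} [Field K] [NumberField K]

theorem main8 (hodd : Odd (Module.finrank ℚ K)) (hS : SimpleK K) {S : Set (ℤ × ℤ)}
    (hS' : ∀ a β : ℤ, a % 4 = 1 → β % 2 = 1 → 0 < β → a ^ 2 < 64 * β → Squarefree β →
      (∃ (n : ℤ) (D : Set ℕ), GoodT K a (16 * β) n D) → (a, 16 * β) ∈ S) :
    ∃ c : ℝ, 0 < c ∧ ∃ X₀ : ℝ, ∀ X : ℝ, X₀ ≤ X → c * X ^ 3 ≤
      ({p : ℤ × ℤ | |(p.1 : ℝ)| ≤ X ∧ |(p.2 : ℝ)| ≤ X ^ 2 ∧ p ∈ S}.ncard : ℝ) := by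
  obtain ⟨M, _, _, hL, -⟩ := exists_bigL K ∅ ∅
  obtain ⟨B, b, m, h0, hm, h2, h3, h5, hq, hD⟩ := exists_dat8p hodd hL
  have hA := adm8 hodd hL hS
  refine dens2 h0 hm h2 h3 h5 hq fun s t hlt ht => ?_
  obtain ⟨Qa, Qb, hD'⟩ := hD s t hlt ht
  obtain ⟨Pp, Pp', hSt, -, hX, hX'⟩ := algo8 hD' hA 0
  exact hS' _ _ hD'.a4 hD'.bo hD'.pos hlt (ht.of_mul_left) (good_of8 hD' hA.toAdm8 hSt hX hX')

end H88D8
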