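import Pool.Agent.H88.D8.Sw
import Pool.Agent.H88.T7.Fn
import Pool.Agent.H38.T1.Fy

/-!
Assembly of the project MP_78d38b_D8, fields inside Galois extensions of odd degree (helper88).
-/

set_option autoImplicit false
set_option linter.unusedSectionVars false
open scoped Classical

open NumberField

namespace H88D8

theorem good_galois {a β : ℤ} (ha : a % 2 = 1) (hlt : a ^ 2 < 64 * β) (h1 : 1 < β)
    (ho : β % 2 = 1) (hs : Squarefree β)
    {K K₀ : Type} [Field K] [NumberField K] [Field K₀] [NumberField K₀] [IsGalois ℚ K₀]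
    (h₀ : Odd (Module.finrank ℚ K₀)) (φ : K →+* K₀) :
    ∃ (n : ℤ) (D : Set ℕ), H88T7.GoodT K a (16 * β) n D := by
  have nb : ¬ IsSquare (16 * β) := by
    rintro ⟨r, hr⟩
    have h2 : ((4 : ℤ)) ^ 2 ∣ r ^ 2 := ⟨β, by rw [pow_two r, ← hr]; norm_num⟩
    obtain ⟨t, rfl⟩ := (Int.pow_dvd_pow_iff two_ne_zero).1 h2
    have h3 : β = t * t := by
      have : (16 : ℤ) * β = 16 * (t * t) := by rw [hr]; ring
      exact mul_left_cancel₀ (by norm_num) this
    have h4 := hs t ⟨1, by rw [h3]; ring⟩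
    rcases Int.isUnit_iff.1 h4 with rfl | rfl <;> omega
  have hD0 : a ^ 2 - 4 * (16 * β) < 0 := by linarith
  have nD : ¬ IsSquare (a ^ 2 - 4 * (16 * β)) := fun h => not_lt.2 h.nonneg hD0
  have nbD : ¬ IsSquare (16 * β * (a ^ 2 - 4 * (16 * β))) := fun h =>
    not_lt.2 h.nonneg (mul_neg_of_pos_of_neg (by omega) hD0)
  obtain ⟨a', b', j, J, hab', -, hJ, n, hn, H⟩ := H38T1.final_gen (a := a) (b := 16 * β) ha
    ⟨0, β, by norm_num, ho⟩ nb nD nbD ∅ (by simp) (by simp) K₀ h₀ 0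
  exact ⟨n, H38T1.Fs a' b' J, hn, H38T1.free_one a' b' J, fun d hd => hd.sqf,
    fun d hd d' hd' => by
      obtain ⟨d'', s, hs, he, hf⟩ := H38T1.free_mul hab' hd hd'
      exact ⟨d'', hf, s, hs, he⟩,
    H38T1.fs_inf hab' (S := ∅) (by simp) hJ, fun d hd => H d hd K (Or.inl ⟨φ⟩)⟩

/-- A positive proportion of the pairs is obtained from the fields in Galois extensions of odd
degree. -/
theorem prop_galois {K K₀ : Type} [Field K] [NumberField K] [Field K₀] [NumberField K₀]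
    [IsGalois ℚ K₀] (h₀ : Odd (Module.finrank ℚ K₀)) (φ : K →+* K₀) {S : Set (ℤ × ℤ)}
    (hS : ∀ a β : ℤ, a % 4 = 1 → β % 2 = 1 → 0 < β → a ^ 2 < 64 * β → Squarefree β →
      (∃ (n : ℤ) (D : Set ℕ), H88T7.GoodT K a (16 * β) n D) → (a, 16 * β) ∈ S) :
    ∃ c : ℝ, 0 < c ∧ ∃ X₀ : ℝ, ∀ X : ℝ, X₀ ≤ X → c * X ^ 3 ≤
      ({p : ℤ × ℤ | |(p.1 : ℝ)| ≤ X ∧ |(p.2 : ℝ)| ≤ X ^ 2 ∧ p ∈ S}.ncard : ℝ) := by
  refine dens2 (b := 11) (m := 30) (by norm_num) (by norm_num) (by norm_num) (by norm_num)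
    (by norm_num) ?_ ?_
  · intro q hq hqM s t h
    have h1 : (q : ℤ) ∣ (((11 : ℕ) : ℤ) + ((30 : ℕ) : ℤ) * t) * ((1 + 4 * ((30 : ℕ) : ℤ) * s) ^ 2 -
        64 * (((11 : ℕ) : ℤ) + ((30 : ℕ) : ℤ) * t)) := (dvd_mul_right _ _).trans h
    have h3 : q ∈ Nat.primeFactors 30 := Nat.mem_primeFactors.2 ⟨hq, hqM, by norm_num⟩
    have h4 : Nat.primeFactors 30 = {2, 3, 5} := by
      decide +kernel
    rw [h4] at h3
    simp only [Finset.mem_insert, Finset.mem_singleton] at h3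
    have e : (1 + 4 * ((30 : ℕ) : ℤ) * s) ^ 2 - 64 * (((11 : ℕ) : ℤ) + ((30 : ℕ) : ℤ) * t) =
        30 * (8 * (s : ℤ) + 480 * s ^ 2 - 64 * t - 24) + 17 := by
      push_cast
      ring
    rw [e] at h1
    rcases h3 with rfl | rfl | rfl
    · rcases (Nat.prime_iff_prime_int.1 Nat.prime_two).dvd_or_dvd h1 with h5 | h5 <;>
        · push_cast at h5
          omega
    · rcases (Nat.prime_iff_prime_int.1 Nat.prime_three).dvd_or_dvd h1 with h5 | h5 <;>
        · push_cast at h5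
          omega
    · rcases (Nat.prime_iff_prime_int.1 Nat.prime_five).dvd_or_dvd h1 with h5 | h5 <;>
        · push_cast at h5
          omega
  · intro s t hlt ht
    refine hS _ _ ?_ ?_ (by positivity) hlt (ht.of_mul_left)
      (good_galois ?_ hlt ?_ ?_ (ht.of_mul_left) h₀ φ)
    all_goals
      push_cast
      have := Int.natCast_nonneg t
      omega

end H88D8
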