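import Pool.Agent.H30.T8.Fg

/-!
The progressions of the good pairs (project MP_78d38b_D8); after the proof of `H30T8.exists_beta` by
helper50.
-/

set_option autoImplicit false
open scoped Classical

namespace H88D8

open H30T8

theorem exists_prog0 (B Qa Qb : Finset ℕ) (hB : ∀ q ∈ B, q.Prime) (h2 : 2 ∈ B) (h3 : 3 ∈ B)
    (h5 : 5 ∈ B) (hd : Disjoint Qa Qb) (hQ : ∀ q ∈ Qa ∪ Qb, q.Prime ∧ q ∉ B) :
    ∃ β₀ M : ℤ, 0 < M ∧ (2 : ℤ) ∣ M ∧ (3 : ℤ) ∣ M ∧ (5 : ℤ) ∣ M ∧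
      ∀ a β : ℤ, M ∣ a - 1 → M ∣ β - β₀ →
      (∀ q : ℕ, q.Prime → (q : ℤ) ∣ M → ¬ (q : ℤ) ^ 2 ∣ β * (a ^ 2 - 64 * β)) ∧
        β % 2 = 1 ∧ (∀ q : ℕ, q.Prime → (q : ℤ) ∣ β * (a ^ 2 - 64 * β) → q ∉ B) ∧
        (∀ q ∈ Qa, (q : ℤ) ∣ a ^ 2 - 64 * β) ∧ ∀ q ∈ Qb, (q : ℤ) ∣ β := by
  set P : Finset ℕ := B ∪ (Qa ∪ Qb) with hP
  have hPp : ∀ q ∈ P, q.Prime := by
    intro q hq
    rcases Finset.mem_union.1 hq with h | h
    · exact hB q h
    · exact (hQ q h).1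
  set s : ℕ → ℤ := fun q => if q ∈ B then (q : ℤ) else (q : ℤ) ^ 2 with hs
  have hsB : ∀ q, q ∈ B → s q = q := fun q hq => by simp [hs, hq]
  have hsN : ∀ q, q ∉ B → s q = (q : ℤ) ^ 2 := fun q hq => by simp [hs, hq]
  -- the residues
  have hr : ∀ q : ℕ, ∃ r : ℤ, (q ∈ P → q = 2 → s q ∣ r - 1 ∧ s q = 2) ∧
      (q ∈ P → q ∈ B → q ≠ 2 → s q ∣ 64 * r + 1) ∧
      (q ∈ Qa → s q ∣ 64 * r - (1 + q)) ∧ (q ∈ Qb → s q ∣ r - q) := by
    intro q
    by_cases e2 : q = 2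
    · refine ⟨1, fun _ _ => ⟨by simp, by rw [e2, hsB 2 h2]; norm_num⟩, fun _ _ h => absurd e2 h,
        fun h => ?_, fun h => ?_⟩
      · exact absurd (e2 ▸ h2) (hQ q (Finset.mem_union_left _ h)).2
      · exact absurd (e2 ▸ h2) (hQ q (Finset.mem_union_right _ h)).2
    · by_cases hqB : q ∈ B
      · obtain ⟨r, hr⟩ := Ff_res (hB q hqB) e2 (-1) 1
        refine ⟨r, fun _ h => absurd h e2, fun _ _ _ => ?_, fun h => ?_, fun h => ?_⟩
        · rw [hsB q hqB]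
          simpa using hr
        · exact absurd hqB (hQ q (Finset.mem_union_left _ h)).2
        · exact absurd hqB (hQ q (Finset.mem_union_right _ h)).2
      · by_cases ha : q ∈ Qa
        · obtain ⟨r, hr⟩ := Ff_res (hQ q (Finset.mem_union_left _ ha)).1 e2 (1 + q) 2
          refine ⟨r, fun _ h => absurd h e2, fun _ h => absurd h hqB, fun _ => ?_, fun h => ?_⟩
          · rw [hsN q hqB]
            exact hr
          · exact absurd h (Finset.disjoint_left.1 hd ha)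
        · refine ⟨q, fun _ h => absurd h e2, fun _ h => absurd h hqB, fun h => absurd h ha,
            fun _ => by simp⟩
  choose r hr1 hr2 hr3 hr4 using hr
  obtain ⟨β₀, hβ₀⟩ := Ff_crt P s r (by
    intro i hi j hj hij
    have h1 : IsCoprime (i : ℤ) (j : ℤ) :=
      Nat.isCoprime_iff_coprime.2 ((Nat.coprime_primes (hPp i hi) (hPp j hj)).2 hij)
    simp only [hs]
    split_ifs
    · exact h1
    · exact h1.pow_right
    · exact h1.pow_left
    · exact h1.pow)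
  set M : ℤ := ∏ q ∈ P, s q with hM
  have hMd : ∀ q ∈ P, s q ∣ M := fun q hq => Finset.dvd_prod_of_mem s hq
  have hMpos : 0 < M := Finset.prod_pos (fun q hq => by
    have : (0 : ℤ) < q := by exact_mod_cast (hPp q hq).pos
    simp only [hs]
    split_ifs
    · exact this
    · exact pow_pos this 2)
  have hBP : ∀ q ∈ B, q ∈ P := fun q hq => Finset.mem_union_left _ hq
  have haP : ∀ q ∈ Qa, q ∈ P := fun q hq => Finset.mem_union_right _ (Finset.mem_union_left _ hq)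
  have hbP : ∀ q ∈ Qb, q ∈ P := fun q hq => Finset.mem_union_right _ (Finset.mem_union_right _ hq)
  have hd2 : (2 : ℤ) ∣ M := by
    have := hMd 2 (hBP 2 h2)
    rwa [hsB 2 h2] at this
  have hd3 : (3 : ℤ) ∣ M := by
    have := hMd 3 (hBP 3 h3)
    rwa [hsB 3 h3] at this
  have hd5 : (5 : ℤ) ∣ M := by
    have := hMd 5 (hBP 5 h5)
    rwa [hsB 5 h5] at this
  refine ⟨β₀, M, hMpos, hd2, hd3, hd5, fun a β ha hβ => ?_⟩
  have hb : ∀ (q : ℕ), q ∈ P → s q ∣ β - r q := by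
    intro q hq
    have : β - r q = (β₀ - r q) + (β - β₀) := by ring
    rw [this]
    exact dvd_add (hβ₀ q hq) ((hMd q hq).trans hβ)
  have ha2 : ∀ (q : ℕ), q ∈ P → s q ∣ a ^ 2 - 1 := by
    intro q hq
    have : a ^ 2 - 1 = (a - 1) * (a + 1) := by ring
    rw [this]
    exact ((hMd q hq).trans ha).mul_right _
  have hodd : (2 : ℤ) ∣ β - 1 := by
    obtain ⟨e1, e2⟩ := hr1 2 (hBP 2 h2) rfl
    have h1 := hb 2 (hBP 2 h2)
    rw [e2] at e1 h1
    have : β - 1 = (β - r 2) + (r 2 - 1) := by ring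
    rw [this]
    exact dvd_add h1 e1
  have hodda : (2 : ℤ) ∣ a - 1 := hd2.trans ha
  have hBn : ∀ (q : ℕ), q ∈ B → ¬ (q : ℤ) ∣ β * (a ^ 2 - 64 * β) := by
    intro q hq hdv
    have hp : Prime (q : ℤ) := Nat.prime_iff_prime_int.1 (hB q hq)
    by_cases e2 : q = 2
    · subst e2
      rcases hp.dvd_or_dvd hdv with h | h
      · push_cast at h
        omega
      · have h4 : (2 : ℤ) ∣ a ^ 2 := by
          have h5 : (2 : ℤ) ∣ 64 * β := Dvd.dvd.mul_right (by norm_num) β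
          have h6 := dvd_add h h5
          push_cast at h6
          rwa [sub_add_cancel] at h6
        have h5 : (2 : ℤ) ∣ a := Int.prime_two.dvd_of_dvd_pow h4
        omega
    · have h1 := hb q (hBP q hq)
      have h4 := hr2 q (hBP q hq) hq e2
      have h9 := ha2 q (hBP q hq)
      rw [hsB q hq] at h1 h4 h9
      have h6 : (q : ℤ) ∣ 64 * β + 1 := by
        have : 64 * β + 1 = 64 * (β - r q) + (64 * r q + 1) := by ring
        rw [this]
        exact dvd_add (h1.mul_left _) h4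
      rcases hp.dvd_or_dvd hdv with h | h
      · have h7 : (q : ℤ) ∣ 1 := by
          have : (1 : ℤ) = (64 * β + 1) - 64 * β := by ring
          rw [this]
          exact dvd_sub h6 (h.mul_left _)
        exact hp.not_isUnit (isUnit_of_dvd_one h7)
      · have h7 : (q : ℤ) ∣ 2 := by
          have : (2 : ℤ) = (64 * β + 1) + (a ^ 2 - 64 * β) - (a ^ 2 - 1) := by ring
          rw [this]
          exact dvd_sub (dvd_add h6 h) h9
        have h8 : q ∣ 2 := by exact_mod_cast h7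
        exact e2 ((Nat.prime_dvd_prime_iff_eq (hB q hq) Nat.prime_two).1 h8)
  have hQa' : ∀ (q : ℕ), q ∈ Qa → (q : ℤ) ^ 2 ∣ (a ^ 2 - 64 * β) + q := by
    intro q hq
    have hnB := (hQ q (Finset.mem_union_left _ hq)).2
    have h1 := hb q (haP q hq)
    have h4 := hr3 q hq
    have h9 := ha2 q (haP q hq)
    rw [hsN q hnB] at h1 h4 h9
    have : (a ^ 2 - 64 * β) + q = (a ^ 2 - 1) + ((-64) * (β - r q) - (64 * r q - (1 + q))) := by
      ring
    rw [this]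
    exact dvd_add h9 (dvd_sub (h1.mul_left _) h4)
  have hQb' : ∀ (q : ℕ), q ∈ Qb → (q : ℤ) ^ 2 ∣ β - q := by
    intro q hq
    have hnB := (hQ q (Finset.mem_union_right _ hq)).2
    have h1 := hb q (hbP q hq)
    have h4 := hr4 q hq
    rw [hsN q hnB] at h1 h4
    have : β - q = (β - r q) + (r q - q) := by ring
    rw [this]
    exact dvd_add h1 h4
  have hsq : ∀ q : ℕ, q.Prime → ¬ (q : ℤ) ^ 2 ∣ (q : ℤ) := by
    intro q hq h
    have h1 : q ^ 2 ∣ q := by exact_mod_cast h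
    have h4 := Nat.le_of_dvd hq.pos h1
    nlinarith [hq.two_le]
  have hQa : ∀ (q : ℕ), q ∈ Qa → (q : ℤ) ∣ a ^ 2 - 64 * β := by
    intro q hq
    have h1 := (dvd_pow_self (q : ℤ) two_ne_zero).trans (hQa' q hq)
    exact (dvd_add_left (dvd_refl (q : ℤ))).1 h1
  have hQb : ∀ (q : ℕ), q ∈ Qb → (q : ℤ) ∣ β := by
    intro q hq
    have h1 := (dvd_pow_self (q : ℤ) two_ne_zero).trans (hQb' q hq)
    exact (dvd_sub_left (dvd_refl (q : ℤ))).1 h1
  have hqa : ∀ q : ℕ, q ∈ P → q.Prime → (q : ℤ) ∣ a → False := by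
    intro q hq hqp h
    have h1 := ha2 q hq
    have h4 : (q : ℤ) ∣ s q := by
      simp only [hs]
      split_ifs
      · exact dvd_refl _
      · exact dvd_pow_self _ two_ne_zero
    have h6 : (q : ℤ) ∣ 1 := by
      have : (1 : ℤ) = a ^ 2 - (a ^ 2 - 1) := by ring
      rw [this]
      exact dvd_sub (h.trans (dvd_pow_self _ two_ne_zero)) (h4.trans h1)
    exact (Nat.prime_iff_prime_int.1 hqp).not_isUnit (isUnit_of_dvd_one h6)
  refine ⟨fun q hq hqM hdv => ?_, by omega, fun q _ hdv hqB => hBn q hqB hdv, hQa, hQb⟩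
  have hp : Prime (q : ℤ) := Nat.prime_iff_prime_int.1 hq
  obtain ⟨q', hq', hdq⟩ := (hp.dvd_finsetProd_iff s).1 hqM
  have hqq : q ∣ q' := by
    have h1 : (q : ℤ) ∣ (q' : ℤ) := by
      simp only [hs] at hdq
      split_ifs at hdq
      · exact hdq
      · exact hp.dvd_of_dvd_pow hdq
    exact_mod_cast h1
  have e : q = q' := (Nat.prime_dvd_prime_iff_eq hq (hPp q' hq')).1 hqq
  subst e
  have hcop : (q : ℤ) ∣ β → (q : ℤ) ∣ a ^ 2 - 64 * β → False := by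
    intro h4 h5
    refine hqa q hq' hq (hp.dvd_of_dvd_pow (n := 2) ?_)
    have := dvd_add h5 (h4.mul_left 64)
    rwa [sub_add_cancel] at this
  rcases Finset.mem_union.1 hq' with h | h
  · exact hBn q h ((dvd_pow_self (q : ℤ) two_ne_zero).trans hdv)
  · rcases Finset.mem_union.1 h with h | h
    · have h1 := hQa q h
      have h4 : ¬ (q : ℤ) ∣ β := fun h5 => hcop h5 h1
      have h7 : (q : ℤ) ^ 2 ∣ a ^ 2 - 64 * β := by
        refine IsCoprime.dvd_of_dvd_mul_left ?_ hdv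
        exact ((Prime.coprime_iff_not_dvd hp).2 h4).pow_left
      exact hsq q hq ((dvd_add_right h7).1 (hQa' q h))
    · have h1 := hQb q h
      have h4 : ¬ (q : ℤ) ∣ a ^ 2 - 64 * β := fun h5 => hcop h1 h5
      have h7 : (q : ℤ) ^ 2 ∣ β := by
        refine IsCoprime.dvd_of_dvd_mul_right ?_ hdv
        exact ((Prime.coprime_iff_not_dvd hp).2 h4).pow_left
      exact hsq q hq ((dvd_sub_right h7).1 (hQb' q h))

theorem exists_prog2 (B Qa Qb : Finset ℕ) (hB : ∀ q ∈ B, q.Prime) (h2 : 2 ∈ B) (h3 : 3 ∈ B)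
    (h5 : 5 ∈ B) (hd : Disjoint Qa Qb) (hQ : ∀ q ∈ Qa ∪ Qb, q.Prime ∧ q ∉ B) :
    ∃ b m : ℕ, 0 < b ∧ 0 < m ∧ 2 ∣ m ∧ 3 ∣ m ∧ 5 ∣ m ∧ ∀ s t : ℕ,
      (∀ q : ℕ, q.Prime → q ∣ m →
        ¬ (q : ℤ) * q ∣ ((b : ℤ) + m * t) * ((1 + 4 * (m : ℤ) * s) ^ 2 - 64 * (b + m * t))) ∧
        ((b : ℤ) + m * t) % 2 = 1 ∧
        (∀ q : ℕ, q.Prime → (q : ℤ) ∣ ((b : ℤ) + m * t) * ((1 + 4 * (m : ℤ) * s) ^ 2 -
          64 * (b + m * t)) → q ∉ B) ∧
        (∀ q ∈ Qa, (q : ℤ) ∣ (1 + 4 * (m : ℤ) * s) ^ 2 - 64 * (b + m * t)) ∧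
        ∀ q ∈ Qb, (q : ℤ) ∣ (b : ℤ) + m * t := by
  obtain ⟨β₀, M, hM0, hM2, hM3, hM5, H⟩ := exists_prog0 B Qa Qb hB h2 h3 h5 hd hQ
  obtain ⟨m, hm⟩ : ∃ m : ℕ, (m : ℤ) = M := ⟨M.toNat, Int.toNat_of_nonneg hM0.le⟩
  have hpos : 0 < β₀ + M * (|β₀| + 1) := by
    have h4 : -β₀ ≤ |β₀| := neg_le_abs β₀
    have h6 : |β₀| + 1 ≤ M * (|β₀| + 1) := by nlinarith [abs_nonneg β₀]
    linarith
  obtain ⟨b, hb⟩ : ∃ b : ℕ, (b : ℤ) = β₀ + M * (|β₀| + 1) := ⟨_, Int.toNat_of_nonneg hpos.le⟩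
  refine ⟨b, m, by exact_mod_cast hb ▸ hpos, by exact_mod_cast hm ▸ hM0, ?_, ?_, ?_, fun s t => ?_⟩
  · exact_mod_cast (hm ▸ hM2 : ((2 : ℤ)) ∣ (m : ℤ))
  · exact_mod_cast (hm ▸ hM3 : ((3 : ℤ)) ∣ (m : ℤ))
  · exact_mod_cast (hm ▸ hM5 : ((5 : ℤ)) ∣ (m : ℤ))
  · obtain ⟨k1, k2, k3, k4, k5⟩ := H (1 + 4 * (m : ℤ) * s) ((b : ℤ) + m * t)
      ⟨4 * s, by rw [hm]; ring⟩ ⟨|β₀| + 1 + t, by rw [hb, hm]; ring⟩
    refine ⟨fun q hq hqm => ?_, k2, k3, k4, k5⟩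
    rw [← pow_two]
    exact k1 q hq (by rw [← hm]; exact_mod_cast hqm)

end H88D8
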