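import Pool.Agent.H88.T7.Fc

/-!
A squarefree sieve in two variables (project MP_78d38b_D8, helper88).
-/

set_option autoImplicit false
open scoped Classical

namespace H88D8

open H88T7

theorem sv_bad {a β M : ℤ} (h2 : (2 : ℤ) ∣ M) (h3 : (3 : ℤ) ∣ M) (h5 : (5 : ℤ) ∣ M)
    (hM : ∀ q : ℕ, q.Prime → (q : ℤ) ∣ M → ¬ (q : ℤ) * q ∣ β * (a ^ 2 - 64 * β))
    (hns : ¬ Squarefree (β * (a ^ 2 - 64 * β))) :
    ∃ q : ℕ, q.Prime ∧ 7 ≤ q ∧ IsCoprime (q : ℤ) M ∧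
      (((q ^ 2 : ℕ) : ℤ) ∣ β ∨ ((q ^ 2 : ℕ) : ℤ) ∣ a ^ 2 - 64 * β ∨ ((q : ℤ) ∣ a ∧ (q : ℤ) ∣ β)) := by
  rw [← Int.squarefree_natAbs, Nat.squarefree_iff_prime_squarefree] at hns
  push Not at hns
  obtain ⟨q, hq, hqd⟩ := hns
  have hqd' : ((q : ℤ) * q) ∣ β * (a ^ 2 - 64 * β) := by
    have := Int.natCast_dvd.2 hqd
    push_cast at this
    exact this
  have hqZ : Prime (q : ℤ) := Nat.prime_iff_prime_int.1 hq
  have hqM : ¬ (q : ℤ) ∣ M := fun h => hM q hq h hqd'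
  have hcop : IsCoprime (q : ℤ) M := (Prime.coprime_iff_not_dvd hqZ).2 hqM
  refine ⟨q, hq, ?_, hcop, ?_⟩
  · by_contra hlt
    push Not at hlt
    have hq2 := hq.two_le
    interval_cases q
    · exact hqM h2
    · exact hqM h3
    · exact absurd hq (by norm_num)
    · exact hqM h5
    · exact absurd hq (by norm_num)
  · have hcast : ((q ^ 2 : ℕ) : ℤ) = (q : ℤ) * q := by push_cast; ring
    rw [hcast]
    by_cases h6 : (q : ℤ) ∣ β
    · by_cases h7 : (q : ℤ) ∣ a ^ 2 - 64 * β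
      · right; right
        have h8 : (q : ℤ) ∣ a ^ 2 := by
          have := dvd_add h7 (h6.mul_left 64)
          rwa [show a ^ 2 - 64 * β + 64 * β = a ^ 2 by ring] at this
        exact ⟨hqZ.dvd_of_dvd_pow h8, h6⟩
      · left
        have h8 : IsCoprime ((q : ℤ) * q) (a ^ 2 - 64 * β) :=
          IsCoprime.mul_left ((Prime.coprime_iff_not_dvd hqZ).2 h7) ((Prime.coprime_iff_not_dvd hqZ).2 h7)
        exact h8.dvd_of_dvd_mul_right hqd'
    · right; left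
      have h8 : IsCoprime ((q : ℤ) * q) β :=
        IsCoprime.mul_left ((Prime.coprime_iff_not_dvd hqZ).2 h6) ((Prime.coprime_iff_not_dvd hqZ).2 h6)
      exact h8.dvd_of_dvd_mul_left hqd'

/-- A residue class has few members in an interval. -/
theorem sv_cls {n : ℕ} (hn : 0 < n) {e c : ℤ} (hc : IsCoprime (n : ℤ) c) (A T : ℕ) :
    ((Finset.Ico A (A + T)).filter (fun t : ℕ => (n : ℤ) ∣ e + c * t)).card ≤ T / n + 1 := by
  refine le_trans ?_ (Fc_class hn (e := e + c * A) hc T)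
  refine Finset.card_le_card_of_injOn (fun t => t - A) ?_ ?_
  · intro t ht
    simp only [Finset.coe_filter, Finset.mem_Ico, Set.mem_setOf_eq] at ht
    simp only [Finset.coe_filter, Finset.mem_range, Set.mem_setOf_eq]
    refine ⟨by omega, ?_⟩
    have h1 : ((t - A : ℕ) : ℤ) = (t : ℤ) - A := by
      push_cast [Nat.cast_sub ht.1.1]
      rfl
    rw [h1, show e + c * (A : ℤ) + c * ((t : ℤ) - A) = e + c * t by ring]
    exact ht.2
  · intro t ht t' ht' h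
    simp only [Finset.coe_filter, Finset.mem_Ico, Set.mem_setOf_eq] at ht ht'
    simp only at h
    omega

theorem sv_prod (A B : Finset ℕ) (P : ℕ × ℕ → Prop) [DecidablePred P] (k : ℕ)
    (h : ∀ s ∈ A, (B.filter (fun t => P (s, t))).card ≤ k) :
    ((A ×ˢ B).filter P).card ≤ A.card * k := by
  rw [Finset.card_filter, Finset.sum_product]
  refine (Finset.sum_le_card_nsmul A _ k fun s hs => ?_).trans (le_of_eq (smul_eq_mul _ _))
  rw [← Finset.card_filter]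
  exact h s hs

theorem sv_prod2 (A B : Finset ℕ) (P Q : ℕ → Prop) [DecidablePred P] [DecidablePred Q] :
    ((A ×ˢ B).filter (fun p : ℕ × ℕ => P p.1 ∧ Q p.2)).card =
      (A.filter P).card * (B.filter Q).card := by
  rw [Finset.filter_product, Finset.card_product]

/-- The count of the bad pairs for one integer. -/
theorem sv_one {b m q N T : ℕ} (hq : 7 ≤ q) (h2 : 2 ∣ m) (hc : IsCoprime (q : ℤ) m) :
    ((Finset.range N ×ˢ Finset.Ico T (T + T)).filter (fun p : ℕ × ℕ =>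
      ((q ^ 2 : ℕ) : ℤ) ∣ (b : ℤ) + m * p.2 ∨
      ((q ^ 2 : ℕ) : ℤ) ∣ (1 + 4 * (m : ℤ) * p.1) ^ 2 - 64 * (b + m * p.2) ∨
      ((q : ℤ) ∣ 1 + 4 * (m : ℤ) * p.1 ∧ (q : ℤ) ∣ (b : ℤ) + m * p.2))).card ≤
      N * (T / q ^ 2 + 1) + N * (T / q ^ 2 + 1) + (N / q + 1) * (T / q + 1) := by
  have hq2 : 0 < q ^ 2 := pow_pos (by omega) 2
  have c1 : IsCoprime ((q ^ 2 : ℕ) : ℤ) m := by
    push_cast
    exact hc.pow_left
  have c2' : IsCoprime (q : ℤ) 2 := hc.of_isCoprime_of_dvd_right (by exact_mod_cast h2)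
  have c2 : IsCoprime ((q ^ 2 : ℕ) : ℤ) (-64 * m) := by
    have e1 : IsCoprime ((q ^ 2 : ℕ) : ℤ) 2 := by
      push_cast
      exact c2'.pow_left
    have e2 : IsCoprime ((q ^ 2 : ℕ) : ℤ) (64 : ℤ) := by
      have := e1.pow_right (n := 6)
      norm_num at this
      exact_mod_cast this
    exact e2.neg_right.mul_right c1
  have c3 : IsCoprime (q : ℤ) (4 * m) := by
    have e2 : IsCoprime (q : ℤ) (4 : ℤ) := by
      have := c2'.pow_right (n := 2)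
      norm_num at this
      exact this
    exact e2.mul_right hc
  rw [Finset.filter_or, Finset.filter_or]
  refine (Finset.card_union_le _ _).trans ?_
  have h1 : ((Finset.range N ×ˢ Finset.Ico T (T + T)).filter (fun p : ℕ × ℕ =>
      ((q ^ 2 : ℕ) : ℤ) ∣ (b : ℤ) + m * p.2)).card ≤ N * (T / q ^ 2 + 1) := by
    have := sv_prod (Finset.range N) (Finset.Ico T (T + T)) (fun p : ℕ × ℕ =>
      ((q ^ 2 : ℕ) : ℤ) ∣ (b : ℤ) + m * p.2) (T / q ^ 2 + 1)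
      (fun s _ => sv_cls hq2 (e := (b : ℤ)) c1 T T)
    rwa [Finset.card_range] at this
  have h3 : ((Finset.range N ×ˢ Finset.Ico T (T + T)).filter (fun p : ℕ × ℕ =>
      ((q ^ 2 : ℕ) : ℤ) ∣ (1 + 4 * (m : ℤ) * p.1) ^ 2 - 64 * (b + m * p.2))).card ≤
      N * (T / q ^ 2 + 1) := by
    have := sv_prod (Finset.range N) (Finset.Ico T (T + T)) (fun p : ℕ × ℕ =>
      ((q ^ 2 : ℕ) : ℤ) ∣ (1 + 4 * (m : ℤ) * p.1) ^ 2 - 64 * (b + m * p.2)) (T / q ^ 2 + 1)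
      (fun s _ => by
        refine le_trans (le_of_eq ?_) (sv_cls hq2 (e := (1 + 4 * (m : ℤ) * s) ^ 2 - 64 * b) c2 T T)
        congr 1
        refine Finset.filter_congr fun t _ => ?_
        simp only
        rw [show (1 + 4 * (m : ℤ) * s) ^ 2 - 64 * (b + m * t) =
          (1 + 4 * (m : ℤ) * s) ^ 2 - 64 * b + -64 * m * t by ring])
    rwa [Finset.card_range] at this
  have h4 : ((Finset.range N ×ˢ Finset.Ico T (T + T)).filter (fun p : ℕ × ℕ =>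
      ((q : ℤ) ∣ 1 + 4 * (m : ℤ) * p.1 ∧ (q : ℤ) ∣ (b : ℤ) + m * p.2))).card ≤
      (N / q + 1) * (T / q + 1) := by
    rw [sv_prod2 (Finset.range N) (Finset.Ico T (T + T)) (fun s => (q : ℤ) ∣ 1 + 4 * (m : ℤ) * s)
      (fun t => (q : ℤ) ∣ (b : ℤ) + m * t)]
    exact Nat.mul_le_mul (Fc_class (by omega) c3 N) (sv_cls (by omega) hc T T)
  calc _ ≤ N * (T / q ^ 2 + 1) + (N * (T / q ^ 2 + 1) + (N / q + 1) * (T / q + 1)) :=
        add_le_add h1 ((Finset.card_union_le _ _).trans (add_le_add h3 h4))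
    _ = _ := by ring

/-- The sum of the bounds. -/
theorem sv_sum {N T E : ℕ} (hE : 0 < E) :
    ((∑ q ∈ Finset.Ico 7 (E * N + 1), (N * (T / q ^ 2 + 1) + N * (T / q ^ 2 + 1) +
      (N / q + 1) * (T / q + 1)) : ℕ) : ℝ) ≤ (N : ℝ) * T / 2 + 2 * E * N ^ 2 + N * T / 8 + N ^ 2 / 8 +
      (N + T) * E / 3 + E * N := by
  have hE' : (0 : ℝ) < E := by exact_mod_cast hE
  have hN : (0 : ℝ) ≤ N := Nat.cast_nonneg _
  have hT : (0 : ℝ) ≤ T := Nat.cast_nonneg _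
  have hsum : ∑ q ∈ Finset.Ico 7 (E * N + 1), (1 : ℝ) / (q : ℝ) ^ 2 ≤ 1 / 6 := by
    by_cases h7 : 7 ≤ E * N + 1
    · have h8 := Fc_sum (E * N + 1) h7
      have h9 : (0 : ℝ) ≤ 1 / (((E * N + 1 : ℕ) : ℝ) - 1) := by
        push_cast
        rw [add_sub_cancel_right]
        positivity
      linarith
    · rw [Finset.Ico_eq_empty (by omega), Finset.sum_empty]
      norm_num
  push_cast
  have hterm : ∀ q ∈ Finset.Ico 7 (E * N + 1), ((N : ℝ) * (((T / q ^ 2 : ℕ) : ℝ) + 1) +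
      N * (((T / q ^ 2 : ℕ) : ℝ) + 1) + (((N / q : ℕ) : ℝ) + 1) * (((T / q : ℕ) : ℝ) + 1)) ≤
      (3 * (N : ℝ) * T + 2 * E * (N + T)) * (1 / (q : ℝ) ^ 2) +
        (2 * N + (N + T) * (1 / (8 * E)) + 1) := by
    intro q hq
    rw [Finset.mem_Ico] at hq
    have hq0 : (0 : ℝ) < q := by exact_mod_cast (by omega : 0 < q)
    have e1 : ((T / q ^ 2 : ℕ) : ℝ) ≤ (T : ℝ) * (1 / (q : ℝ) ^ 2) := by
      have h6 : ((T / q ^ 2 : ℕ) : ℝ) ≤ (T : ℝ) / ((q ^ 2 : ℕ) : ℝ) := Nat.cast_div_le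
      push_cast at h6
      rwa [div_eq_mul_one_div] at h6
    have e2 : ((T / q : ℕ) : ℝ) ≤ (T : ℝ) * (1 / (q : ℝ)) := by
      have h6 : ((T / q : ℕ) : ℝ) ≤ (T : ℝ) / ((q : ℕ) : ℝ) := Nat.cast_div_le
      rwa [div_eq_mul_one_div] at h6
    have e3 : ((N / q : ℕ) : ℝ) ≤ (N : ℝ) * (1 / (q : ℝ)) := by
      have h6 : ((N / q : ℕ) : ℝ) ≤ (N : ℝ) / ((q : ℕ) : ℝ) := Nat.cast_div_le
      rwa [div_eq_mul_one_div] at h6
    have e4 : (((N / q : ℕ) : ℝ) + 1) * (((T / q : ℕ) : ℝ) + 1) ≤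
        ((N : ℝ) * (1 / (q : ℝ)) + 1) * ((T : ℝ) * (1 / (q : ℝ)) + 1) :=
      mul_le_mul (by linarith) (by linarith) (by positivity) (by positivity)
    have e5 : (1 : ℝ) / q ≤ 1 / (8 * E) + 2 * E * (1 / (q : ℝ) ^ 2) := by
      rw [div_add' _ _ _ (by positivity), div_le_div_iff₀ hq0 (by positivity)]
      have h7 : (1 + 2 * (E : ℝ) * (1 / (q : ℝ) ^ 2) * (8 * E)) * q = q + 16 * E ^ 2 / q := by
        field_simp
        ring
      rw [h7, one_mul]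
      have h8 : (8 * (E : ℝ)) ≤ q + 16 * E ^ 2 / q := by
        rw [← sub_nonneg]
        have h9 : (q : ℝ) + 16 * E ^ 2 / q - 8 * E = (q - 4 * E) ^ 2 / q := by
          field_simp
          ring
        rw [h9]
        positivity
      exact h8
    have e6 : ((N : ℝ) * (1 / (q : ℝ)) + 1) * ((T : ℝ) * (1 / (q : ℝ)) + 1) =
        (N : ℝ) * T * (1 / (q : ℝ) ^ 2) + (N + T) * (1 / q) + 1 := by
      field_simp
      ring
    have e7 : ((N : ℝ) + T) * (1 / q) ≤ (N + T) * (1 / (8 * E) + 2 * E * (1 / (q : ℝ) ^ 2)) :=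
      mul_le_mul_of_nonneg_left e5 (by positivity)
    have e8 : (N : ℝ) * ((T / q ^ 2 : ℕ) : ℝ) ≤ N * ((T : ℝ) * (1 / (q : ℝ) ^ 2)) :=
      mul_le_mul_of_nonneg_left e1 hN
    rw [e6] at e4
    nlinarith
  refine (Finset.sum_le_sum hterm).trans ?_
  rw [Finset.sum_add_distrib, ← Finset.mul_sum, Finset.sum_const, Nat.card_Ico, nsmul_eq_mul]
  have hQc : ((E * N + 1 - 7 : ℕ) : ℝ) ≤ (E : ℝ) * N := by
    exact_mod_cast (by omega : E * N + 1 - 7 ≤ E * N)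
  have h1 : (3 * (N : ℝ) * T + 2 * E * (N + T)) * ∑ q ∈ Finset.Ico 7 (E * N + 1), (1 : ℝ) / (q : ℝ) ^ 2
      ≤ (3 * (N : ℝ) * T + 2 * E * (N + T)) * (1 / 6) :=
    mul_le_mul_of_nonneg_left hsum (by positivity)
  have h3 : ((E * N + 1 - 7 : ℕ) : ℝ) * (2 * N + (N + T) * (1 / (8 * E)) + 1) ≤
      ((E : ℝ) * N) * (2 * N + (N + T) * (1 / (8 * E)) + 1) :=
    mul_le_mul_of_nonneg_right hQc (by positivity)
  have h4 : ((E : ℝ) * N) * (2 * N + (N + T) * (1 / (8 * E)) + 1) =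
      2 * E * N ^ 2 + (N ^ 2 + N * T) / 8 + E * N := by
    have h5 : (E : ℝ) * (1 / (8 * E)) = 1 / 8 := by
      field_simp
    linear_combination (N : ℝ) * (N + T) * h5
  rw [h4] at h3
  nlinarith

theorem sieve2 {b m : ℕ} (hb : 0 < b) (hm : 0 < m) (h2 : 2 ∣ m) (h3 : 3 ∣ m) (h5 : 5 ∣ m)
    (hM : ∀ q : ℕ, q.Prime → q ∣ m → ∀ s t : ℕ,
      ¬ (q : ℤ) * q ∣ ((b : ℤ) + m * t) * ((1 + 4 * (m : ℤ) * s) ^ 2 - 64 * (b + m * t))) :
    ∃ N₀ : ℕ, ∀ N : ℕ, N₀ ≤ N → (m : ℝ) * N ^ 3 / 4 ≤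
      (((Finset.range N ×ˢ Finset.Ico (m * N ^ 2) (m * N ^ 2 + m * N ^ 2)).filter
      (fun p : ℕ × ℕ => Squarefree (((b : ℤ) + m * p.2) *
        ((1 + 4 * (m : ℤ) * p.1) ^ 2 - 64 * (b + m * p.2))))).card : ℝ) := by
  obtain ⟨E, hEdef⟩ : ∃ E : ℕ, E = 8 * (b + 2 * m) := ⟨_, rfl⟩
  have hE0 : 0 < E := by omega
  refine ⟨8 * (4 * E + 1 + m * E + 2 * E), fun N hN => ?_⟩
  have hN1 : 1 ≤ N := by omega
  obtain ⟨T, hT⟩ : ∃ T : ℕ, T = m * N ^ 2 := ⟨_, rfl⟩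
  rw [← hT]
  set S : Finset (ℕ × ℕ) := (Finset.range N ×ˢ Finset.Ico T (T + T)).filter
      (fun p : ℕ × ℕ => Squarefree (((b : ℤ) + m * p.2) *
        ((1 + 4 * (m : ℤ) * p.1) ^ 2 - 64 * (b + m * p.2)))) with hS
  set U : ℕ → Finset (ℕ × ℕ) := fun q => if IsCoprime (q : ℤ) m then
    (Finset.range N ×ˢ Finset.Ico T (T + T)).filter (fun p : ℕ × ℕ =>
      ((q ^ 2 : ℕ) : ℤ) ∣ (b : ℤ) + m * p.2 ∨
      ((q ^ 2 : ℕ) : ℤ) ∣ (1 + 4 * (m : ℤ) * p.1) ^ 2 - 64 * (b + m * p.2) ∨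
      ((q : ℤ) ∣ 1 + 4 * (m : ℤ) * p.1 ∧ (q : ℤ) ∣ (b : ℤ) + m * p.2)) else ∅ with hU
  have hUcard : ∀ q ∈ Finset.Ico 7 (E * N + 1), (U q).card ≤
      N * (T / q ^ 2 + 1) + N * (T / q ^ 2 + 1) + (N / q + 1) * (T / q + 1) := by
    intro q hq
    rw [Finset.mem_Ico] at hq
    simp only [hU]
    split_ifs with hc
    · exact sv_one hq.1 h2 hc
    · rw [Finset.card_empty]
      exact Nat.zero_le _
  have hcov : Finset.range N ×ˢ Finset.Ico T (T + T) ⊆ S ∪ (Finset.Ico 7 (E * N + 1)).biUnion U := by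
    rintro ⟨s, t⟩ hst
    have hst' := hst
    rw [Finset.mem_product, Finset.mem_range, Finset.mem_Ico] at hst'
    obtain ⟨hs, ht1, ht2⟩ := hst'
    simp only at hs ht1 ht2
    by_cases hsq : Squarefree (((b : ℤ) + m * t) * ((1 + 4 * (m : ℤ) * s) ^ 2 - 64 * (b + m * t)))
    · exact Finset.mem_union_left _ (Finset.mem_filter.2 ⟨hst, hsq⟩)
    refine Finset.mem_union_right _ ?_
    obtain ⟨q, hq, hq7, hc, hor⟩ := sv_bad (M := (m : ℤ)) (by exact_mod_cast h2) (by exact_mod_cast h3)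
      (by exact_mod_cast h5) (fun q hq hqm => hM q hq (by exact_mod_cast hqm) s t) hsq
    -- bounds
    have hm1 : (1 : ℤ) ≤ m := by exact_mod_cast hm
    have hb1 : (1 : ℤ) ≤ b := by exact_mod_cast hb
    have hN1' : (1 : ℤ) ≤ N := by exact_mod_cast hN1
    have hs' : (s : ℤ) + 1 ≤ N := by exact_mod_cast hs
    have hs0 : (0 : ℤ) ≤ s := Int.natCast_nonneg s
    have hTe : (T : ℤ) = m * N ^ 2 := by rw [hT]; push_cast; ring
    have ht1' : (m : ℤ) * N ^ 2 ≤ t := by rw [← hTe]; exact_mod_cast ht1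
    have ht2' : (t : ℤ) ≤ 2 * (m * N ^ 2) := by
      rw [← hTe]
      have : t ≤ 2 * T := by omega
      exact_mod_cast this
    have hEe : (E : ℤ) = 8 * (b + 2 * m) := by rw [hEdef]; push_cast; ring
    have hN2 : (1 : ℤ) ≤ (N : ℤ) ^ 2 := by nlinarith
    have hβ1 : 0 < (b : ℤ) + m * t := by positivity
    have hβ2 : (b : ℤ) + m * t ≤ ((b + 2 * m) * N) ^ 2 := by
      have h6 : (m : ℤ) * t ≤ m * (2 * (m * N ^ 2)) := mul_le_mul_of_nonneg_left ht2' (by omega)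
      have h7 : (b : ℤ) ≤ b * N ^ 2 := by nlinarith
      have h8 : (b : ℤ) * N ^ 2 ≤ b ^ 2 * N ^ 2 := by nlinarith
      have h9 : (0 : ℤ) ≤ b * m * N ^ 2 := by positivity
      have h10 : (0 : ℤ) ≤ m ^ 2 * N ^ 2 := by positivity
      have h11 : ((((b : ℤ) + 2 * m) * N) ^ 2) = b ^ 2 * N ^ 2 + 4 * (b * m * N ^ 2) + 4 * (m ^ 2 * N ^ 2) := by
        ring
      rw [h11]
      nlinarith
    have ha1 : 0 < 1 + 4 * (m : ℤ) * s := by positivity
    have ha2 : 1 + 4 * (m : ℤ) * s ≤ 4 * m * N := by nlinarith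
    have hD1 : (1 + 4 * (m : ℤ) * s) ^ 2 < 64 * (b + m * t) := by
      have h6 : (1 + 4 * (m : ℤ) * s) ^ 2 ≤ (4 * m * N) ^ 2 := by
        exact pow_le_pow_left₀ ha1.le ha2 2
      have h7 : (m : ℤ) * (m * N ^ 2) ≤ m * t := mul_le_mul_of_nonneg_left ht1' (by omega)
      have h8 : (0 : ℤ) ≤ m * (m * N ^ 2) := by positivity
      nlinarith
    have hqQ : q ≤ E * N := by
      have hEN : (E : ℤ) * N = 8 * ((b + 2 * m) * N) := by rw [hEe]; ring
      have hBN : (0 : ℤ) ≤ (b + 2 * m) * N := by positivity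
      have goal : (q : ℤ) ≤ (E : ℤ) * N := by
        rcases hor with h | h | ⟨h, -⟩
        · have h6 := (Int.le_of_dvd hβ1 h).trans hβ2
          push_cast at h6
          have h7 : (q : ℤ) ≤ (b + 2 * m) * N := (sq_le_sq₀ (by positivity) hBN).1 h6
          rw [hEN]
          linarith
        · have h5' : ((q ^ 2 : ℕ) : ℤ) ∣ 64 * (b + m * t) - (1 + 4 * (m : ℤ) * s) ^ 2 := by
            rw [← dvd_neg]
            rw [show -(64 * ((b : ℤ) + m * t) - (1 + 4 * (m : ℤ) * s) ^ 2) =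
              (1 + 4 * (m : ℤ) * s) ^ 2 - 64 * (b + m * t) by ring]
            exact h
          have h6 := Int.le_of_dvd (by linarith) h5'
          have h7 : ((q ^ 2 : ℕ) : ℤ) ≤ (8 * ((b + 2 * m) * N)) ^ 2 := by
            have h8 : (8 * (((b : ℤ) + 2 * m) * N)) ^ 2 = 64 * ((b + 2 * m) * N) ^ 2 := by ring
            rw [h8]
            have h9 := sq_nonneg (1 + 4 * (m : ℤ) * s)
            linarith
          push_cast at h7
          rw [hEN]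
          exact (sq_le_sq₀ (by positivity) (by positivity)).1 h7
        · have h6 := (Int.le_of_dvd ha1 h).trans ha2
          rw [hEN]
          have h7 : (0 : ℤ) ≤ b * N := by positivity
          have h8 : (0 : ℤ) ≤ m * N := by positivity
          nlinarith
      exact_mod_cast goal
    rw [Finset.mem_biUnion]
    refine ⟨q, Finset.mem_Ico.2 ⟨hq7, by omega⟩, ?_⟩
    simp only [hU]
    rw [if_pos hc]
    exact Finset.mem_filter.2 ⟨hst, hor⟩
  have hcard : N * T ≤ S.card + ∑ q ∈ Finset.Ico 7 (E * N + 1), (N * (T / q ^ 2 + 1) +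
      N * (T / q ^ 2 + 1) + (N / q + 1) * (T / q + 1)) := by
    have h1 := Finset.card_le_card hcov
    rw [Finset.card_product, Finset.card_range, Nat.card_Ico, Nat.add_sub_cancel] at h1
    exact h1.trans ((Finset.card_union_le _ _).trans (add_le_add le_rfl
      (Finset.card_biUnion_le.trans (Finset.sum_le_sum hUcard))))
  have hcardR : (N : ℝ) * T ≤ S.card + ((N : ℝ) * T / 2 + 2 * E * N ^ 2 + N * T / 8 + N ^ 2 / 8 +
      (N + T) * E / 3 + E * N) := by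
    have h1 : ((N * T : ℕ) : ℝ) ≤ ((S.card + ∑ q ∈ Finset.Ico 7 (E * N + 1), (N * (T / q ^ 2 + 1) +
      N * (T / q ^ 2 + 1) + (N / q + 1) * (T / q + 1)) : ℕ) : ℝ) := by exact_mod_cast hcard
    rw [Nat.cast_add] at h1
    have h6 := sv_sum (N := N) (T := T) hE0
    rw [Nat.cast_mul] at h1
    linarith
  have hTr : (T : ℝ) = m * N ^ 2 := by rw [hT]; push_cast; ring
  have hmr : (1 : ℝ) ≤ m := by exact_mod_cast hm
  have hNr : (1 : ℝ) ≤ N := by exact_mod_cast hN1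
  have hEr : (0 : ℝ) ≤ E := Nat.cast_nonneg _
  have hN' : (8 : ℝ) * (4 * E + 1 + m * E + 2 * E) ≤ N := by exact_mod_cast hN
  rw [hTr] at hcardR
  -- the error terms
  have hN2 : (N : ℝ) ≤ N ^ 2 := by nlinarith
  have hN2p : (0 : ℝ) ≤ (N : ℝ) ^ 2 := by positivity
  have e1 : (8 : ℝ) * (4 * E + 1 + m * E + 2 * E) * N ^ 2 ≤ N * N ^ 2 :=
    mul_le_mul_of_nonneg_right hN' hN2p
  have e2 : (N : ℝ) * N ^ 2 ≤ m * (N * N ^ 2) := le_mul_of_one_le_left (by positivity) hmr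
  have e3 : (E : ℝ) * N ≤ E * N ^ 2 := mul_le_mul_of_nonneg_left hN2 hEr
  have e4 : (0 : ℝ) ≤ m * E * N ^ 2 := by positivity
  have e5 : (0 : ℝ) ≤ E * N ^ 2 := by positivity
  have e6 : (N : ℝ) ^ 3 = N * N ^ 2 := by ring
  rw [e6]
  nlinarith

end H88D8
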